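import Pool.Agent.Run7.h776.DZW.Fin

/-!
# From the finite theorem to large weights
-/

set_option autoImplicit false

namespace Run7.h776.DZW

open Finset Filter

lemma pw {g h : ℝ} {N L E D : ℕ} (hh : (N : ℝ) + 1 ≤ (2 : ℝ) ^ h) (hL : L ≤ N)
    (hs : (N : ℝ) * (6 + h + g + E * h) ≤ D) :
    (64 * (((L : ℝ) + 1) * (2 : ℝ) ^ g) * ((N : ℝ) + 1) ^ E) ^ N ≤ (2 : ℝ) ^ D := by
  have h2 : (0 : ℝ) < 2 := by norm_num
  have hLN : (L : ℝ) + 1 ≤ (2 : ℝ) ^ h := by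
    have : (L : ℝ) ≤ N := by exact_mod_cast hL
    linarith
  have e1 : ((N : ℝ) + 1) ^ E ≤ (2 : ℝ) ^ (E * h) := by
    calc ((N : ℝ) + 1) ^ E ≤ ((2 : ℝ) ^ h) ^ E := pow_le_pow_left₀ (by positivity) hh E
      _ = (2 : ℝ) ^ (E * h) := by
        rw [← Real.rpow_natCast, ← Real.rpow_mul h2.le, mul_comm]
  have e2 : 64 * (((L : ℝ) + 1) * (2 : ℝ) ^ g) * ((N : ℝ) + 1) ^ E ≤ (2 : ℝ) ^ (6 + h + g + E * h) := by
    rw [Real.rpow_add h2, Real.rpow_add h2, Real.rpow_add h2]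
    have e3 : (2 : ℝ) ^ (6 : ℝ) = 64 := by
      rw [show (6 : ℝ) = ((6 : ℕ) : ℝ) by norm_num, Real.rpow_natCast]
      norm_num
    rw [e3]
    have p1 : (0 : ℝ) < (2 : ℝ) ^ g := Real.rpow_pos_of_pos h2 _
    have p2 : (0 : ℝ) < (2 : ℝ) ^ h := Real.rpow_pos_of_pos h2 _
    calc 64 * (((L : ℝ) + 1) * (2 : ℝ) ^ g) * ((N : ℝ) + 1) ^ E
        ≤ 64 * ((2 : ℝ) ^ h * (2 : ℝ) ^ g) * (2 : ℝ) ^ (E * h) := by gcongr
      _ = _ := by ring
  calc (64 * (((L : ℝ) + 1) * (2 : ℝ) ^ g) * ((N : ℝ) + 1) ^ E) ^ N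
      ≤ ((2 : ℝ) ^ (6 + h + g + E * h)) ^ N := by
        refine pow_le_pow_left₀ ?_ e2 N
        have p1 : (0 : ℝ) < (2 : ℝ) ^ g := Real.rpow_pos_of_pos h2 _
        positivity
    _ = (2 : ℝ) ^ ((N : ℝ) * (6 + h + g + E * h)) := by
        rw [← Real.rpow_natCast, ← Real.rpow_mul h2.le, mul_comm]
    _ ≤ (2 : ℝ) ^ (D : ℝ) := Real.rpow_le_rpow_of_exponent_le (by norm_num) hs
    _ = (2 : ℝ) ^ D := Real.rpow_natCast _ _

lemma ev {s r : ℝ} (h : s < r) (A : ℝ) : ∀ᶠ x : ℝ in atTop, A * x ^ s ≤ x ^ r := by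
  have h1 := (tendsto_rpow_atTop (show 0 < r - s by linarith)).eventually_ge_atTop A
  filter_upwards [h1, eventually_gt_atTop 0] with x hx hx0
  calc A * x ^ s ≤ x ^ (r - s) * x ^ s := mul_le_mul_of_nonneg_right hx (Real.rpow_nonneg hx0.le _)
    _ = x ^ r := by rw [← Real.rpow_add hx0]; congr 1; ring

lemma ev_log {τ η : ℝ} (hη : 0 < η) : ∀ᶠ x : ℝ in atTop, x ^ τ + 1 ≤ (2 : ℝ) ^ (x ^ η) := by
  -- `x ^ τ + 1 ≤ x ^ (|τ| + 1)` and `log x ≤ c x ^ η`
  have h0 := ev (show τ < |τ| + 1 by linarith [le_abs_self τ]) 2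
  have h1 := ev (show (0 : ℝ) < |τ| + 1 by linarith [abs_nonneg τ]) 2
  have h2 := (isLittleO_log_rpow_atTop hη).def
    (show 0 < Real.log 2 / (|τ| + 1) by
      have := Real.log_pos (show (1 : ℝ) < 2 by norm_num)
      have := abs_nonneg τ
      positivity)
  filter_upwards [h0, h1, h2, eventually_gt_atTop 1] with x a0 a1 a2 hx
  have hx0 : 0 < x := by linarith
  rw [Real.rpow_zero] at a1
  have e1 : x ^ τ + 1 ≤ x ^ (|τ| + 1) := by linarith
  refine e1.trans ?_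
  rw [Real.norm_of_nonneg (Real.log_pos hx).le, Real.norm_of_nonneg (Real.rpow_nonneg hx0.le _)] at a2
  have ht : 0 < |τ| + 1 := by have := abs_nonneg τ; linarith
  rw [Real.rpow_def_of_pos hx0, Real.rpow_def_of_pos (show (0 : ℝ) < 2 by norm_num)]
  refine Real.exp_le_exp.2 ?_
  calc Real.log x * (|τ| + 1) ≤ (Real.log 2 / (|τ| + 1) * x ^ η) * (|τ| + 1) :=
        mul_le_mul_of_nonneg_right a2 ht.le
    _ = Real.log 2 * x ^ η := by field_simp

/-- **the asymptotic theorem** -/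
theorem window (t a b γ ε : ℝ) (ht : 0 < t) (hta : 2 * t < a) (hga : t + γ < a)
    (htb : b + t < 1) (hte : t < ε) :
    ∃ k0 : ℕ, ∀ k : ℕ, k0 ≤ k → ∀ u L : ℕ, (L : ℝ) ≤ (k : ℝ) ^ t →
      (k : ℝ) ^ a ≤ (k : ℝ) - u - L → (k : ℝ) - u ≤ (k : ℝ) ^ b →
      ∀ (c c' : ℕ → ℤ) (d : ℤ),
        (∀ q ∈ Icc u (u + L), |(c q : ℝ)| ≤ (2 : ℝ) ^ ((k : ℝ) ^ γ) ∧
          |(c' q : ℝ)| ≤ (2 : ℝ) ^ ((k : ℝ) ^ γ)) →
        (d ≠ 0 ∨ ∃ q ∈ Icc u (u + L), c q ≠ 0 ∨ c' q ≠ 0) →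
        (k : ℝ) ^ (-(ε * k)) <
          |∑ q ∈ Icc u (u + L), ((c q : ℝ) * dz q (k - q) + (c' q : ℝ) * dz (k - q) q) + d * zt k| := by
  by_cases hab : a ≤ b
  swap
  · refine ⟨2, fun k hk u L hL h1 h2 => ?_⟩
    exfalso
    have hk2 : (2 : ℝ) ≤ k := by exact_mod_cast hk
    have h3 : (k : ℝ) ^ b < (k : ℝ) ^ a := Real.rpow_lt_rpow_of_exponent_lt (by linarith) (by linarith)
    have : (0 : ℝ) ≤ L := Nat.cast_nonneg L
    linarith
  -- the exponents
  obtain ⟨η, hη, h1, h2, h3, h4⟩ : ∃ η : ℝ, 0 < η ∧ 2 * t + 2 * η < a ∧ t + γ + η < a ∧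
      b + t + 2 * η < 1 ∧ t + η < ε := by
    refine ⟨min (min (a - 2 * t) (a - t - γ)) (min (1 - b - t) (ε - t)) / 4, ?_, ?_, ?_, ?_, ?_⟩
    · have : 0 < min (min (a - 2 * t) (a - t - γ)) (min (1 - b - t) (ε - t)) := by
        refine lt_min (lt_min ?_ ?_) (lt_min ?_ ?_) <;> linarith
      positivity
    all_goals
      have m0 : 0 < min (min (a - 2 * t) (a - t - γ)) (min (1 - b - t) (ε - t)) := by
        refine lt_min (lt_min ?_ ?_) (lt_min ?_ ?_) <;> linarith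
      have m1 : min (min (a - 2 * t) (a - t - γ)) (min (1 - b - t) (ε - t)) ≤ a - 2 * t :=
        (min_le_left _ _).trans (min_le_left _ _)
      have m2 : min (min (a - 2 * t) (a - t - γ)) (min (1 - b - t) (ε - t)) ≤ a - t - γ :=
        (min_le_left _ _).trans (min_le_right _ _)
      have m3 : min (min (a - 2 * t) (a - t - γ)) (min (1 - b - t) (ε - t)) ≤ 1 - b - t :=
        (min_le_right _ _).trans (min_le_left _ _)
      have m4 : min (min (a - 2 * t) (a - t - γ)) (min (1 - b - t) (ε - t)) ≤ ε - t :=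
        (min_le_right _ _).trans (min_le_right _ _)
      linarith
  set τ : ℝ := t + η with hτ
  have ha0 : 0 < a := by linarith
  have hb1 : b < 1 := by linarith
  have hev : ∀ᶠ x : ℝ in atTop,
      (2 * x ^ t ≤ x ^ τ ∧ 10 * x ^ (0 : ℝ) ≤ x ^ τ ∧ 4 * x ^ (0 : ℝ) ≤ x ^ a ∧
        2 * x ^ b ≤ x ^ (1 : ℝ)) ∧
      x ^ τ + 1 ≤ (2 : ℝ) ^ (x ^ η) ∧
      (24 * x ^ τ ≤ x ^ a ∧ 20 * x ^ (τ + η) ≤ x ^ a ∧ 4 * x ^ (τ + γ) ≤ x ^ a ∧
        4 * x ^ (τ + t + η) ≤ x ^ a) ∧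
      (4 * x ^ a ≤ x ^ (1 : ℝ) ∧ 4 * x ^ (τ + b + η) ≤ x ^ (1 : ℝ)) ∧
      (4 * τ / (ε - τ)) * x ^ t ≤ x ^ (1 : ℝ) ∧ max 8 (4 / (ε - τ)) < x := by
    have g1 := ev (show t < τ by rw [hτ]; linarith) 2
    have g2 := ev (show (0 : ℝ) < τ by rw [hτ]; linarith) 10
    have g3 := ev (show (0 : ℝ) < a by linarith) 4
    have g4 := ev (show b < 1 by linarith) 2
    have g5 := ev_log (τ := τ) hη
    have g6 := ev (show τ < a by rw [hτ]; linarith) 24
    have g7 := ev (show τ + η < a by rw [hτ]; linarith) 20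
    have g8 := ev (show τ + γ < a by rw [hτ]; linarith) 4
    have g9 := ev (show τ + t + η < a by rw [hτ]; linarith) 4
    have g10 := ev (show a < 1 by linarith) 4
    have g11 := ev (show τ + b + η < 1 by rw [hτ]; linarith) 4
    have g12 := ev (show t < 1 by linarith) (4 * τ / (ε - τ))
    filter_upwards [g1, g2, g3, g4, g5, g6, g7, g8, g9, g10, g11, g12,
      eventually_gt_atTop (max 8 (4 / (ε - τ)))] with x a1 a2 a3 a4 a5 a6 a7 a8 a9 a10 a11 a12 a13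
    exact ⟨⟨a1, a2, a3, a4⟩, a5, ⟨a6, a7, a8, a9⟩, ⟨a10, a11⟩, a12, a13⟩
  have hev' := tendsto_natCast_atTop_atTop (R := ℝ) |>.eventually hev
  obtain ⟨k0, hk0⟩ := eventually_atTop.1 hev'
  refine ⟨k0, fun k hk u L hL hA hB c c' d hcc hne => ?_⟩
  obtain ⟨⟨a1, a2, a3, a4⟩, a5, ⟨a6, a7, a8, a9⟩, ⟨a10, a11⟩, a12, a13⟩ := hk0 k hk
  clear hk0 hev hev'
  set x : ℝ := (k : ℝ) with hx
  rw [Real.rpow_zero, mul_one] at a2 a3
  rw [Real.rpow_one] at a4 a10 a11 a12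
  have hx8 : 8 < x := lt_of_le_of_lt (le_max_left _ _) a13
  have hxe : 4 / (ε - τ) < x := lt_of_le_of_lt (le_max_right _ _) a13
  have hx0 : 0 < x := by linarith
  have hL0 : (0 : ℝ) ≤ L := Nat.cast_nonneg L
  -- the parameters
  set N : ℕ := ⌊x ^ τ⌋₊ with hN
  have hNle : (N : ℝ) ≤ x ^ τ := Nat.floor_le (by positivity)
  have hNgt : x ^ τ < (N : ℝ) + 1 := Nat.lt_floor_add_one _
  have huk : u + L ≤ k := by
    have h5 : (0 : ℝ) ≤ x ^ a := by positivity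
    have h6 : (u : ℝ) + L ≤ k := by linarith
    exact_mod_cast h6
  set D : ℕ := k - u with hD
  have hDr : (D : ℝ) = x - u := by
    rw [hD, Nat.cast_sub (by omega)]
  have hkD : u + D = k := by omega
  set g : ℝ := x ^ γ with hg
  set h : ℝ := x ^ η with hh
  have hg0 : 0 ≤ g := by positivity
  have hh0 : 0 ≤ h := by positivity
  have hLN : L + 3 ≤ N := by
    have h5 : (L : ℝ) + 3 < (N : ℝ) + 1 := by nlinarith
    have h6 : L + 3 < N + 1 := by exact_mod_cast h5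
    omega
  have hNh : (N : ℝ) + 1 ≤ (2 : ℝ) ^ h := by linarith
  set C : ℝ := ((L : ℝ) + 1) * (2 : ℝ) ^ g with hC
  have h2g : (1 : ℝ) ≤ (2 : ℝ) ^ g := Real.one_le_rpow (by norm_num) hg0
  -- the products of powers
  have m1 : x ^ τ * h = x ^ (τ + η) := by rw [hh, ← Real.rpow_add hx0]
  have m2 : x ^ τ * g = x ^ (τ + γ) := by rw [hg, ← Real.rpow_add hx0]
  have m3 : x ^ τ * (x ^ t * h) = x ^ (τ + t + η) := by
    rw [hh, ← Real.rpow_add hx0, ← Real.rpow_add hx0]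
    congr 1
    ring
  have m4 : x ^ τ * (x ^ b * h) = x ^ (τ + b + η) := by
    rw [hh, ← Real.rpow_add hx0, ← Real.rpow_add hx0]
    congr 1
    ring
  have xτ0 : 0 ≤ x ^ τ := by positivity
  have hPar : Par u D L N C := by
    refine ⟨?_, ?_, hLN, ?_, ?_, ?_⟩
    · have h5 : (4 : ℝ) ≤ u := by linarith
      exact_mod_cast h5
    · have h5 : (L : ℝ) + 4 ≤ D := by rw [hDr]; linarith
      exact_mod_cast h5
    · rw [hC]
      nlinarith
    · refine pw (h := h) hNh (by omega) ?_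
      push_cast
      calc (N : ℝ) * (6 + h + g + ((L : ℝ) + 4) * h)
          ≤ x ^ τ * (6 + h + g + (x ^ t + 4) * h) := by
            gcongr
        _ = 6 * x ^ τ + 5 * (x ^ τ * h) + x ^ τ * g + x ^ τ * (x ^ t * h) := by ring
        _ ≤ x ^ a := by rw [m1, m2, m3]; linarith
        _ ≤ D := by rw [hDr]; linarith
    · refine pw (h := h) hNh (by omega) ?_
      push_cast
      have hDb : (D : ℝ) ≤ x ^ b := by rw [hDr]; exact hB
      calc (N : ℝ) * (6 + h + g + ((L : ℝ) + (D : ℝ) + 4) * h)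
          ≤ x ^ τ * (6 + h + g + (x ^ t + x ^ b + 4) * h) := by
            gcongr
        _ = 6 * x ^ τ + 5 * (x ^ τ * h) + x ^ τ * g + x ^ τ * (x ^ t * h) + x ^ τ * (x ^ b * h) := by
            ring
        _ ≤ x ^ a + x ^ (τ + b + η) := by rw [m1, m2, m3, m4]; linarith
        _ ≤ x / 2 := by linarith
        _ ≤ u := by linarith
  -- the coefficients
  have hBd : ∀ e : ℕ → ℤ, (∀ q ∈ Icc u (u + L), |(e q : ℝ)| ≤ (2 : ℝ) ^ g) →
      Bd L (fun j => e (u + j)) C := by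
    intro e he
    unfold Bd
    calc ∑ j ∈ range (L + 1), |((e (u + j) : ℤ) : ℝ)| ≤ ∑ j ∈ range (L + 1), (2 : ℝ) ^ g :=
          Finset.sum_le_sum fun j hj => he _ (by
            rw [Finset.mem_range] at hj
            rw [Finset.mem_Icc]
            omega)
      _ = C := by
        rw [Finset.sum_const, Finset.card_range, nsmul_eq_mul, hC]
        push_cast
        ring
  have hfin := finite_bound (d := d) hPar (hBd c fun q hq => (hcc q hq).1)
    (hBd c' fun q hq => (hcc q hq).2) (by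
      rcases hne with h5 | ⟨q, hq, h5⟩
      · exact Or.inl h5
      · right
        rw [Finset.mem_Icc] at hq
        refine ⟨q - u, by omega, ?_⟩
        rw [show u + (q - u) = q by omega]
        exact h5)
  have hsum : ∑ q ∈ Icc u (u + L), ((c q : ℝ) * dz q (k - q) + (c' q : ℝ) * dz (k - q) q) =
      ∑ j ∈ range (L + 1), ((c (u + j) : ℝ) * dz (u + j) (D - j) +
        (c' (u + j) : ℝ) * dz (D - j) (u + j)) := by
    have e0 : Icc u (u + L) = Ico u (u + (L + 1)) := by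
      ext q
      rw [Finset.mem_Icc, Finset.mem_Ico]
      omega
    rw [e0, Finset.sum_Ico_eq_sum_range, show u + (L + 1) - u = L + 1 by omega]
    refine Finset.sum_congr rfl fun j hj => ?_
    rw [Finset.mem_range] at hj
    rw [show k - (u + j) = D - j by omega]
  rw [hsum]
  rw [hkD] at hfin
  refine lt_of_lt_of_le ?_ hfin
  -- `2 N ^ (k + L) < k ^ (ε k)`
  rw [Real.rpow_neg hx0.le, ← one_div]
  have hN0 : (0 : ℝ) < N := by exact_mod_cast (show 0 < N by omega)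
  refine one_div_lt_one_div_of_lt (by positivity) ?_
  have hετ : 0 < ε - τ := by linarith
  have e5 : (N : ℝ) ^ (k + L) ≤ x ^ (τ * (x + x ^ t)) := by
    calc (N : ℝ) ^ (k + L) ≤ (x ^ τ) ^ (k + L) := pow_le_pow_left₀ hN0.le hNle _
      _ = x ^ (τ * ((k + L : ℕ) : ℝ)) := by
        rw [← Real.rpow_natCast, ← Real.rpow_mul hx0.le]
      _ ≤ x ^ (τ * (x + x ^ t)) := by
        refine Real.rpow_le_rpow_of_exponent_le (by linarith) ?_
        refine mul_le_mul_of_nonneg_left ?_ (by rw [hτ]; linarith)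
        push_cast
        linarith
  have e6 : (2 : ℝ) < x ^ (1 : ℝ) := by rw [Real.rpow_one]; linarith
  calc 2 * (N : ℝ) ^ (k + L) ≤ 2 * x ^ (τ * (x + x ^ t)) := by linarith
    _ < x ^ (1 : ℝ) * x ^ (τ * (x + x ^ t)) :=
        mul_lt_mul_of_pos_right e6 (Real.rpow_pos_of_pos hx0 _)
    _ = x ^ (1 + τ * (x + x ^ t)) := by rw [← Real.rpow_add hx0]
    _ ≤ x ^ (ε * x) := by
        refine Real.rpow_le_rpow_of_exponent_le (by linarith) ?_
        have f1 : 4 < (ε - τ) * x := by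
          rw [div_lt_iff₀ hετ] at hxe
          linarith
        have f2 : 4 * τ * x ^ t ≤ (ε - τ) * x := by
          have h7 := mul_le_mul_of_nonneg_left a12 hετ.le
          have h8 : (ε - τ) * (4 * τ / (ε - τ) * x ^ t) = 4 * τ * x ^ t := by field_simp
          linarith
        nlinarith

end Run7.h776.DZW
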