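import Mathlib

/-!
# Double zeta values of weight `k` with one argument in a short window: the core estimate
-/

set_option autoImplicit false

namespace Run7.h776.DZW

open Finset

/-- the double zeta value `ζ(p, q)`, the sum of `m ^ (-p) n ^ (-q)` over `m > n ≥ 1` -/
noncomputable def dz (p q : ℕ) : ℝ :=
  ∑' m : ℕ, (∑ n ∈ Finset.Ico 1 (m + 1), 1 / (n : ℝ) ^ q) / ((m + 1 : ℕ) : ℝ) ^ p

/-- the term at `(x, n)` of the combination of the `ζ(p + j, D - j)` -/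
noncomputable def G (p D L : ℕ) (c : ℕ → ℤ) (x n : ℕ) : ℝ :=
  ∑ j ∈ range (L + 1), (c j : ℝ) * (1 / (n : ℝ) ^ (D - j) / (x : ℝ) ^ (p + j))

/-- the term at `(x, n)` of the combination of the `ζ(D - j, p + j)` -/
noncomputable def H (p D L : ℕ) (c : ℕ → ℤ) (x n : ℕ) : ℝ :=
  ∑ j ∈ range (L + 1), (c j : ℝ) * (1 / (n : ℝ) ^ (p + j) / (x : ℝ) ^ (D - j))

lemma sq_summable : Summable fun m : ℕ => 1 / ((m : ℝ) + 1) ^ 2 := by
  have h := (summable_nat_add_iff 1).2 (Real.summable_one_div_nat_pow.2 (by norm_num : 1 < 2))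
  simpa using h

lemma sq_le : ∑' m : ℕ, 1 / ((m : ℝ) + 1) ^ 2 ≤ 2 := by
  have h := hasSum_zeta_two
  have h1 := (hasSum_nat_add_iff' 1).2 h
  have h2 : ∑' m : ℕ, 1 / ((m : ℝ) + 1) ^ 2 = Real.pi ^ 2 / 6 := by
    rw [← h1.tsum_eq.trans (by simp : Real.pi ^ 2 / 6 - ∑ i ∈ range 1, 1 / (i : ℝ) ^ 2 = Real.pi ^ 2 / 6)]
    refine tsum_congr fun m => ?_
    push_cast
    rfl
  rw [h2]
  have := Real.pi_lt_d2
  have h0 := Real.pi_pos
  nlinarith

/-- the tails -/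
lemma tail {f : ℕ → ℝ} {A : ℝ} {m1 s : ℕ} (hA : 0 ≤ A) (h0 : ∀ m, m < m1 → f m = 0)
    (h1 : ∀ m, m1 ≤ m → |f m| ≤ A / ((m : ℝ) + 1) ^ (s + 2)) :
    Summable f ∧ |∑' m, f m| ≤ 2 * A / ((m1 : ℝ) + 1) ^ s := by
  have hb : ∀ m, |f m| ≤ A / ((m1 : ℝ) + 1) ^ s * (1 / ((m : ℝ) + 1) ^ 2) := by
    intro m
    by_cases hm : m < m1
    · rw [h0 m hm, abs_zero]
      positivity
    · have hm' : m1 ≤ m := by omega
      refine (h1 m hm').trans ?_
      have e1 : ((m1 : ℝ) + 1) ^ s ≤ ((m : ℝ) + 1) ^ s := by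
        have : (m1 : ℝ) ≤ m := by exact_mod_cast hm'
        gcongr
      rw [pow_add, div_mul_div_comm, mul_one]
      gcongr
  have hs : Summable fun m : ℕ => A / ((m1 : ℝ) + 1) ^ s * (1 / ((m : ℝ) + 1) ^ 2) :=
    sq_summable.mul_left _
  have hsf : Summable f := Summable.of_norm_bounded hs fun m => by
    rw [Real.norm_eq_abs]; exact hb m
  refine ⟨hsf, ?_⟩
  have hsa : Summable fun m => |f m| := hsf.abs
  calc |∑' m, f m| ≤ ∑' m, |f m| := by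
        have := norm_tsum_le_tsum_norm (f := f) (by simpa [Real.norm_eq_abs] using hsa)
        simpa [Real.norm_eq_abs] using this
    _ ≤ ∑' m : ℕ, A / ((m1 : ℝ) + 1) ^ s * (1 / ((m : ℝ) + 1) ^ 2) := hsa.tsum_le_tsum hb hs
    _ = A / ((m1 : ℝ) + 1) ^ s * ∑' m : ℕ, (1 / ((m : ℝ) + 1) ^ 2) := tsum_mul_left
    _ ≤ A / ((m1 : ℝ) + 1) ^ s * 2 := mul_le_mul_of_nonneg_left sq_le (by positivity)
    _ = _ := by ring

lemma dz_summable {p : ℕ} (q : ℕ) (hp : 3 ≤ p) : Summable fun m : ℕ =>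
    (∑ n ∈ Finset.Ico 1 (m + 1), 1 / (n : ℝ) ^ q) / ((m + 1 : ℕ) : ℝ) ^ p := by
  obtain ⟨r, rfl⟩ := Nat.exists_eq_add_of_le' hp
  refine (tail (A := 1) (m1 := 0) (s := r) zero_le_one (fun m hm => absurd hm (by omega))
    fun m _ => ?_).1
  have h1 : 0 ≤ ∑ n ∈ Finset.Ico 1 (m + 1), 1 / (n : ℝ) ^ q :=
    Finset.sum_nonneg fun n _ => by positivity
  have h2 : ∑ n ∈ Finset.Ico 1 (m + 1), 1 / (n : ℝ) ^ q ≤ (m : ℝ) + 1 := by
    calc ∑ n ∈ Finset.Ico 1 (m + 1), 1 / (n : ℝ) ^ q ≤ ∑ n ∈ Finset.Ico 1 (m + 1), (1 : ℝ) := by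
          refine Finset.sum_le_sum fun n hn => ?_
          rw [Finset.mem_Ico] at hn
          have : (1 : ℝ) ≤ (n : ℝ) ^ q := one_le_pow₀ (by exact_mod_cast hn.1)
          rw [div_le_one (by linarith)]
          exact this
      _ = m := by simp
      _ ≤ _ := by linarith
  rw [abs_of_nonneg (by positivity)]
  push_cast
  have hm : (0 : ℝ) < (m : ℝ) + 1 := by positivity
  rw [div_le_div_iff₀ (by positivity) (by positivity), show r + 3 = (r + 2) + 1 by ring,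
    pow_succ ((m : ℝ) + 1) (r + 2)]
  nlinarith [pow_pos hm (r + 2)]

/-- the combination of the `ζ(p + j, D - j)` -/
lemma sum_G {p D L : ℕ} (hp : 3 ≤ p) (c : ℕ → ℤ) :
    ∑ j ∈ range (L + 1), (c j : ℝ) * dz (p + j) (D - j) =
      ∑' m : ℕ, ∑ n ∈ Finset.Ico 1 (m + 1), G p D L c (m + 1) n := by
  have h1 : ∀ j ∈ range (L + 1), (c j : ℝ) * dz (p + j) (D - j) = ∑' m : ℕ, (c j : ℝ) *
      ((∑ n ∈ Finset.Ico 1 (m + 1), 1 / (n : ℝ) ^ (D - j)) / ((m + 1 : ℕ) : ℝ) ^ (p + j)) := by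
    intro j _
    rw [dz, tsum_mul_left]
  rw [Finset.sum_congr rfl h1, ← Summable.tsum_finsetSum]
  · refine tsum_congr fun m => ?_
    unfold G
    rw [Finset.sum_comm]
    refine Finset.sum_congr rfl fun j _ => ?_
    rw [Finset.sum_div, Finset.mul_sum]
  · intro j _
    exact (dz_summable _ (by omega)).mul_left _

/-- the combination of the `ζ(D - j, p + j)` -/
lemma sum_H {p D L : ℕ} (hD : L + 3 ≤ D) (c : ℕ → ℤ) :
    ∑ j ∈ range (L + 1), (c j : ℝ) * dz (D - j) (p + j) =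
      ∑' m : ℕ, ∑ n ∈ Finset.Ico 1 (m + 1), H p D L c (m + 1) n := by
  have h1 : ∀ j ∈ range (L + 1), (c j : ℝ) * dz (D - j) (p + j) = ∑' m : ℕ, (c j : ℝ) *
      ((∑ n ∈ Finset.Ico 1 (m + 1), 1 / (n : ℝ) ^ (p + j)) / ((m + 1 : ℕ) : ℝ) ^ (D - j)) := by
    intro j _
    rw [dz, tsum_mul_left]
  rw [Finset.sum_congr rfl h1, ← Summable.tsum_finsetSum]
  · refine tsum_congr fun m => ?_
    unfold H
    rw [Finset.sum_comm]
    refine Finset.sum_congr rfl fun j _ => ?_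
    rw [Finset.sum_div, Finset.mul_sum]
  · intro j hj
    rw [Finset.mem_range] at hj
    exact (dz_summable _ (by omega)).mul_left _

section bounds

variable {p D L : ℕ} {c : ℕ → ℤ} {C : ℝ}

/-- `G` is an integer divided by `x ^ (p + L) n ^ D` -/
lemma G_low (hD : L ≤ D) {x n : ℕ} (hx : 1 ≤ x) (hn : 1 ≤ n) (h : G p D L c x n ≠ 0) :
    1 / ((x : ℝ) ^ (p + L) * (n : ℝ) ^ D) ≤ |G p D L c x n| := by
  have hx0 : (0 : ℝ) < x := by exact_mod_cast hx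
  have hn0 : (0 : ℝ) < n := by exact_mod_cast hn
  have e : G p D L c x n = ((∑ j ∈ range (L + 1), c j * (x : ℤ) ^ (L - j) * (n : ℤ) ^ j : ℤ) : ℝ) /
      ((x : ℝ) ^ (p + L) * (n : ℝ) ^ D) := by
    unfold G
    push_cast
    rw [Finset.sum_div]
    refine Finset.sum_congr rfl fun j hj => ?_
    rw [Finset.mem_range] at hj
    obtain ⟨r, hr⟩ := Nat.exists_eq_add_of_le (show j ≤ L by omega)
    obtain ⟨s, hs⟩ := Nat.exists_eq_add_of_le (show j ≤ D by omega)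
    subst hr hs
    have e1 : j + r - j = r := by omega
    have e2 : j + s - j = s := by omega
    rw [e1, e2, pow_add (x : ℝ) p (j + r), pow_add (x : ℝ) j r, pow_add (n : ℝ) j s, pow_add (x : ℝ) p j]
    field_simp
  rw [e] at h ⊢
  have hne : (∑ j ∈ range (L + 1), c j * (x : ℤ) ^ (L - j) * (n : ℤ) ^ j : ℤ) ≠ 0 := by
    intro h0
    apply h
    rw [h0]
    simp
  have h1 : (1 : ℝ) ≤ |((∑ j ∈ range (L + 1), c j * (x : ℤ) ^ (L - j) * (n : ℤ) ^ j : ℤ) : ℝ)| := by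
    have := Int.one_le_abs hne
    exact_mod_cast this
  rw [abs_div, abs_of_pos (show (0 : ℝ) < (x : ℝ) ^ (p + L) * (n : ℝ) ^ D by positivity)]
  gcongr

lemma H_low (hD : L ≤ D) {x : ℕ} (hx : 1 ≤ x) (h : H p D L c x 1 ≠ 0) :
    1 / (x : ℝ) ^ D ≤ |H p D L c x 1| := by
  have hx0 : (0 : ℝ) < x := by exact_mod_cast hx
  have e : H p D L c x 1 = ((∑ j ∈ range (L + 1), c j * (x : ℤ) ^ j : ℤ) : ℝ) / (x : ℝ) ^ D := by
    unfold H
    push_cast
    rw [Finset.sum_div]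
    refine Finset.sum_congr rfl fun j hj => ?_
    rw [Finset.mem_range] at hj
    obtain ⟨s, hs⟩ := Nat.exists_eq_add_of_le (show j ≤ D by omega)
    subst hs
    have e2 : j + s - j = s := by omega
    rw [e2, pow_add (x : ℝ) j s, one_pow]
    field_simp
  rw [e] at h ⊢
  have hne : (∑ j ∈ range (L + 1), c j * (x : ℤ) ^ j : ℤ) ≠ 0 := by
    intro h0
    apply h
    rw [h0]
    simp
  have h1 : (1 : ℝ) ≤ |((∑ j ∈ range (L + 1), c j * (x : ℤ) ^ j : ℤ) : ℝ)| := by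
    have := Int.one_le_abs hne
    exact_mod_cast this
  rw [abs_div, abs_of_pos (show (0 : ℝ) < (x : ℝ) ^ D by positivity)]
  gcongr

/-- the sum of the absolute values of the coefficients is at most `C` -/
def Bd (L : ℕ) (c : ℕ → ℤ) (C : ℝ) : Prop := ∑ j ∈ range (L + 1), |(c j : ℝ)| ≤ C

lemma G_up (hD : L ≤ D) (hC : Bd L c C) {x n : ℕ} (hn : 1 ≤ n) (hnx : n ≤ x) :
    |G p D L c x n| ≤ C / ((x : ℝ) ^ p * (n : ℝ) ^ D) := by
  have hn0 : (0 : ℝ) < n := by exact_mod_cast hn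
  have hx0 : (0 : ℝ) < x := lt_of_lt_of_le hn0 (by exact_mod_cast hnx)
  have hnx' : (n : ℝ) ≤ x := by exact_mod_cast hnx
  calc |G p D L c x n| ≤ ∑ j ∈ range (L + 1), |(c j : ℝ)| * (1 / ((x : ℝ) ^ p * (n : ℝ) ^ D)) := by
        unfold G
        refine (Finset.abs_sum_le_sum_abs _ _).trans (Finset.sum_le_sum fun j hj => ?_)
        rw [Finset.mem_range] at hj
        rw [abs_mul]
        refine mul_le_mul_of_nonneg_left ?_ (abs_nonneg _)
        rw [abs_of_nonneg (by positivity)]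
        obtain ⟨s, hs⟩ := Nat.exists_eq_add_of_le (show j ≤ D by omega)
        subst hs
        have e2 : j + s - j = s := by omega
        rw [e2, div_div, one_div_le_one_div (by positivity) (by positivity), pow_add (n : ℝ) j s,
          pow_add (x : ℝ) p j]
        have h3 : (n : ℝ) ^ j ≤ (x : ℝ) ^ j := by gcongr
        have h4 : (0 : ℝ) ≤ (x : ℝ) ^ p * (n : ℝ) ^ s := by positivity
        calc (x : ℝ) ^ p * ((n : ℝ) ^ j * (n : ℝ) ^ s) = (x : ℝ) ^ p * (n : ℝ) ^ s * (n : ℝ) ^ j := by ring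
          _ ≤ (x : ℝ) ^ p * (n : ℝ) ^ s * (x : ℝ) ^ j := mul_le_mul_of_nonneg_left h3 h4
          _ = _ := by ring
    _ = (∑ j ∈ range (L + 1), |(c j : ℝ)|) * (1 / ((x : ℝ) ^ p * (n : ℝ) ^ D)) := by
        rw [Finset.sum_mul]
    _ ≤ C * (1 / ((x : ℝ) ^ p * (n : ℝ) ^ D)) := mul_le_mul_of_nonneg_right hC (by positivity)
    _ = _ := by ring

lemma H_up (hD : L ≤ D) (hC : Bd L c C) {x n : ℕ} (hn : 1 ≤ n) (hx : 1 ≤ x) :
    |H p D L c x n| ≤ C * (x : ℝ) ^ L / ((x : ℝ) ^ D * (n : ℝ) ^ p) := by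
  have hn0 : (0 : ℝ) < n := by exact_mod_cast hn
  have hx0 : (0 : ℝ) < x := by exact_mod_cast hx
  have hn1 : (1 : ℝ) ≤ n := by exact_mod_cast hn
  have hx1 : (1 : ℝ) ≤ x := by exact_mod_cast hx
  calc |H p D L c x n| ≤ ∑ j ∈ range (L + 1), |(c j : ℝ)| * ((x : ℝ) ^ L / ((x : ℝ) ^ D * (n : ℝ) ^ p)) := by
        unfold H
        refine (Finset.abs_sum_le_sum_abs _ _).trans (Finset.sum_le_sum fun j hj => ?_)
        rw [Finset.mem_range] at hj
        rw [abs_mul]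
        refine mul_le_mul_of_nonneg_left ?_ (abs_nonneg _)
        rw [abs_of_nonneg (by positivity)]
        obtain ⟨s, hs⟩ := Nat.exists_eq_add_of_le (show j ≤ D by omega)
        obtain ⟨r, hr⟩ := Nat.exists_eq_add_of_le (show j ≤ L by omega)
        subst hs hr
        have e2 : j + s - j = s := by omega
        rw [e2, div_div, div_le_div_iff₀ (by positivity) (by positivity), pow_add (n : ℝ) p j,
          pow_add (x : ℝ) j s, pow_add (x : ℝ) j r]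
        have h3 : (1 : ℝ) ≤ (n : ℝ) ^ j := one_le_pow₀ hn1
        have h5 : (1 : ℝ) ≤ (x : ℝ) ^ r := one_le_pow₀ hx1
        have h6 : (1 : ℝ) ≤ (n : ℝ) ^ j * (x : ℝ) ^ r := by nlinarith
        have h4 : (0 : ℝ) ≤ (x : ℝ) ^ j * (x : ℝ) ^ s * (n : ℝ) ^ p := by positivity
        calc 1 * ((x : ℝ) ^ j * (x : ℝ) ^ s * (n : ℝ) ^ p) ≤
            ((n : ℝ) ^ j * (x : ℝ) ^ r) * ((x : ℝ) ^ j * (x : ℝ) ^ s * (n : ℝ) ^ p) :=
              mul_le_mul_of_nonneg_right h6 h4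
          _ = _ := by ring
    _ = (∑ j ∈ range (L + 1), |(c j : ℝ)|) * ((x : ℝ) ^ L / ((x : ℝ) ^ D * (n : ℝ) ^ p)) := by
        rw [Finset.sum_mul]
    _ ≤ C * ((x : ℝ) ^ L / ((x : ℝ) ^ D * (n : ℝ) ^ p)) := mul_le_mul_of_nonneg_right hC (by positivity)
    _ = _ := by ring

end bounds

end Run7.h776.DZW
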