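import Pool.Agent.Run7.h776.DZW.Core

/-!
# The finite estimate
-/

set_option autoImplicit false

namespace Run7.h776.DZW

open Finset

/-- `(n + 1) / n` to a high power -/
lemma succ_pow {n N e : ℕ} {A : ℝ} (hn : 1 ≤ n) (hnN : n ≤ N) (hA : 0 ≤ A)
    (h : A ^ N ≤ (2 : ℝ) ^ e) : A * (n : ℝ) ^ e ≤ ((n : ℝ) + 1) ^ e := by
  have hn0 : (0 : ℝ) < n := by exact_mod_cast hn
  have hN : N ≠ 0 := by omega
  have h2 : (2 : ℝ) * (n : ℝ) ^ N ≤ ((n : ℝ) + 1) ^ N := by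
    have hb : (2 : ℝ) ≤ (1 + 1 / (n : ℝ)) ^ N := by
      have h3 : (1 : ℝ) + (n : ℝ) * (1 / (n : ℝ)) ≤ (1 + 1 / (n : ℝ)) ^ n :=
        one_add_mul_le_pow (by have : (0 : ℝ) < 1 / (n : ℝ) := by positivity
                               linarith) n
      have h4 : (n : ℝ) * (1 / (n : ℝ)) = 1 := by field_simp
      have h5 : (1 + 1 / (n : ℝ)) ^ n ≤ (1 + 1 / (n : ℝ)) ^ N :=
        pow_le_pow_right₀ (by have : (0 : ℝ) < 1 / (n : ℝ) := by positivity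
                              linarith) hnN
      linarith
    have e1 : ((n : ℝ) + 1) ^ N = (1 + 1 / (n : ℝ)) ^ N * (n : ℝ) ^ N := by
      rw [← mul_pow]
      congr 1
      field_simp
    rw [e1]
    exact mul_le_mul_of_nonneg_right hb (by positivity)
  have h6 : (A * (n : ℝ) ^ e) ^ N ≤ (((n : ℝ) + 1) ^ e) ^ N := by
    calc (A * (n : ℝ) ^ e) ^ N = A ^ N * ((n : ℝ) ^ N) ^ e := by
          rw [mul_pow, ← pow_mul, ← pow_mul, mul_comm e N]
      _ ≤ (2 : ℝ) ^ e * ((n : ℝ) ^ N) ^ e := mul_le_mul_of_nonneg_right h (by positivity)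
      _ = (2 * (n : ℝ) ^ N) ^ e := by rw [mul_pow]
      _ ≤ (((n : ℝ) + 1) ^ N) ^ e := pow_le_pow_left₀ (by positivity) h2 e
      _ = (((n : ℝ) + 1) ^ e) ^ N := by rw [← pow_mul, ← pow_mul, mul_comm]
  exact le_of_pow_le_pow_left₀ hN (by positivity) h6

section

variable {p D L : ℕ} {c c' : ℕ → ℤ} {C : ℝ}

/-- rows of `G` -/
lemma rowG (hD : L ≤ D) (hC0 : 0 ≤ C) (hC : Bd L c C) {m a : ℕ} (ha : 1 ≤ a) :
    |∑ n ∈ Finset.Ico a (m + 1), G p D L c (m + 1) n| ≤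
      C * ((m : ℝ) + 1) / (((m : ℝ) + 1) ^ p * (a : ℝ) ^ D) := by
  have ha0 : (0 : ℝ) < a := by exact_mod_cast ha
  calc |∑ n ∈ Finset.Ico a (m + 1), G p D L c (m + 1) n|
      ≤ ∑ n ∈ Finset.Ico a (m + 1), C / (((m : ℝ) + 1) ^ p * (a : ℝ) ^ D) := by
        refine (Finset.abs_sum_le_sum_abs _ _).trans (Finset.sum_le_sum fun n hn => ?_)
        rw [Finset.mem_Ico] at hn
        have h1 := G_up (p := p) (x := m + 1) hD hC (show 1 ≤ n by omega) (by omega)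
        push_cast at h1
        refine h1.trans ?_
        have : (a : ℝ) ≤ n := by exact_mod_cast hn.1
        gcongr
    _ = ((m + 1 - a : ℕ) : ℝ) * (C / (((m : ℝ) + 1) ^ p * (a : ℝ) ^ D)) := by
        rw [Finset.sum_const, Nat.card_Ico, nsmul_eq_mul]
    _ ≤ ((m : ℝ) + 1) * (C / (((m : ℝ) + 1) ^ p * (a : ℝ) ^ D)) := by
        refine mul_le_mul_of_nonneg_right ?_ (by positivity)
        have : (m + 1 - a : ℕ) ≤ m + 1 := by omega
        exact_mod_cast this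
    _ = _ := by ring

/-- rows of `H` -/
lemma rowH (hD : L ≤ D) (hC0 : 0 ≤ C) (hC : Bd L c C) {m a : ℕ} (ha : 1 ≤ a) :
    |∑ n ∈ Finset.Ico a (m + 1), H p D L c (m + 1) n| ≤
      C * ((m : ℝ) + 1) ^ (L + 1) / (((m : ℝ) + 1) ^ D * (a : ℝ) ^ p) := by
  have ha0 : (0 : ℝ) < a := by exact_mod_cast ha
  calc |∑ n ∈ Finset.Ico a (m + 1), H p D L c (m + 1) n|
      ≤ ∑ n ∈ Finset.Ico a (m + 1), C * ((m : ℝ) + 1) ^ L / (((m : ℝ) + 1) ^ D * (a : ℝ) ^ p) := by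
        refine (Finset.abs_sum_le_sum_abs _ _).trans (Finset.sum_le_sum fun n hn => ?_)
        rw [Finset.mem_Ico] at hn
        have h1 := H_up (p := p) (x := m + 1) (n := n) hD hC (show 1 ≤ n by omega) (by omega)
        push_cast at h1
        refine h1.trans ?_
        have : (a : ℝ) ≤ n := by exact_mod_cast hn.1
        gcongr
    _ = ((m + 1 - a : ℕ) : ℝ) * (C * ((m : ℝ) + 1) ^ L / (((m : ℝ) + 1) ^ D * (a : ℝ) ^ p)) := by
        rw [Finset.sum_const, Nat.card_Ico, nsmul_eq_mul]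
    _ ≤ ((m : ℝ) + 1) * (C * ((m : ℝ) + 1) ^ L / (((m : ℝ) + 1) ^ D * (a : ℝ) ^ p)) := by
        refine mul_le_mul_of_nonneg_right ?_ (by positivity)
        have : (m + 1 - a : ℕ) ≤ m + 1 := by omega
        exact_mod_cast this
    _ = _ := by ring

/-- the sum of the rows of `G` after the first `m1` -/
lemma sumG (hD : L ≤ D) (hp : 4 ≤ p) (hC0 : 0 ≤ C) (hC : Bd L c C) {m1 : ℕ} {f : ℕ → ℝ}
    (h0 : ∀ m, m < m1 → f m = 0)
    (hf : ∀ m, m1 ≤ m → f m = ∑ n ∈ Finset.Ico 1 (m + 1), G p D L c (m + 1) n) :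
    Summable f ∧ |∑' m, f m| ≤ 2 * C / ((m1 : ℝ) + 1) ^ (p - 3) := by
  obtain ⟨r, rfl⟩ := Nat.exists_eq_add_of_le' hp
  have e : r + 4 - 3 = r + 1 := by omega
  rw [e]
  refine tail hC0 h0 fun m hm => ?_
  rw [hf m hm]
  refine (rowG hD hC0 hC le_rfl).trans (le_of_eq ?_)
  have : (0 : ℝ) < (m : ℝ) + 1 := by positivity
  rw [Nat.cast_one, one_pow, mul_one, show r + 4 = (r + 1 + 2) + 1 by ring,
    pow_succ ((m : ℝ) + 1) (r + 1 + 2)]
  field_simp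

/-- the sum of the rows of `H`, without the first `a - 1` terms, after the first `m1` -/
lemma sumH (hD : L + 4 ≤ D) (hC0 : 0 ≤ C) (hC : Bd L c C) {m1 a : ℕ} (ha : 1 ≤ a) {f : ℕ → ℝ}
    (h0 : ∀ m, m < m1 → f m = 0)
    (hf : ∀ m, m1 ≤ m → f m = ∑ n ∈ Finset.Ico a (m + 1), H p D L c (m + 1) n) :
    Summable f ∧ |∑' m, f m| ≤ 2 * (C / (a : ℝ) ^ p) / ((m1 : ℝ) + 1) ^ (D - L - 3) := by
  obtain ⟨r, rfl⟩ := Nat.exists_eq_add_of_le' hD
  have ha0 : (0 : ℝ) < a := by exact_mod_cast ha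
  have e : r + (L + 4) - L - 3 = r + 1 := by omega
  rw [e]
  refine tail (by positivity) h0 fun m hm => ?_
  rw [hf m hm]
  refine (rowH (by omega) hC0 hC ha).trans (le_of_eq ?_)
  have : (0 : ℝ) < (m : ℝ) + 1 := by positivity
  rw [show r + (L + 4) = (L + 1) + (r + 1 + 2) by ring, pow_add ((m : ℝ) + 1) (L + 1) (r + 1 + 2)]
  field_simp

end

end Run7.h776.DZW
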