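import Pool.Agent.Run7.h776.DZW.Main

/-!
# The finite theorem: the other two cases
-/

set_option autoImplicit false

namespace Run7.h776.DZW

open Finset

section

variable {p D L N : ℕ} {c c' : ℕ → ℤ} {d : ℤ} {C : ℝ}

/-- splitting off one term of a series whose earlier terms vanish -/
lemma split_one {f : ℕ → ℝ} {y : ℕ} (h0 : ∀ m, m < y → f m = 0)
    (hg : Summable fun m => if m ≤ y then 0 else f m) :
    Summable f ∧ ∑' m, f m = f y + ∑' m, (if m ≤ y then 0 else f m) := by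
  have e1 : f = fun m => (if m = y then f y else 0) + (if m ≤ y then 0 else f m) := by
    funext m
    rcases lt_trichotomy m y with hm | hm | hm
    · rw [h0 m hm, if_neg (by omega), if_pos (by omega)]
      ring
    · rw [if_pos hm, if_pos (by omega), hm]
      ring
    · rw [if_neg (by omega), if_neg (by omega)]
      ring
  have hs1 : Summable fun m : ℕ => (if m = y then f y else 0) :=
    summable_of_finite_support (Set.Finite.subset (Set.finite_singleton y) fun m hm => by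
      by_contra h'
      apply hm
      simp only [Set.mem_singleton_iff] at h'
      simp [h'])
  constructor
  · rw [e1]
    exact hs1.add hg
  · conv_lhs => rw [e1]
    rw [hs1.tsum_add hg, tsum_ite_eq]

/-- the rows of `G` are small -/
lemma G_small (h : Par p D L N C) (hC : Bd L c C) :
    Summable (fun m : ℕ => ∑ n ∈ Finset.Ico 1 (m + 1), G p D L c (m + 1) n) ∧
    |∑' m : ℕ, ∑ n ∈ Finset.Ico 1 (m + 1), G p D L c (m + 1) n| ≤ 16 * C / 2 ^ p := by
  have hD : L ≤ D := by have := h.hD; omega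
  have hC0 : 0 ≤ C := by linarith [h.hC1]
  have h1 := sumG (m1 := 1) (f := fun m => ∑ n ∈ Finset.Ico 1 (m + 1), G p D L c (m + 1) n)
    hD h.hp hC0 hC (fun m hm => by
      have : m = 0 := by omega
      subst this
      simp) (fun m _ => rfl)
  refine ⟨h1.1, h1.2.trans (le_of_eq ?_)⟩
  obtain ⟨r, hr⟩ := Nat.exists_eq_add_of_le' (show 3 ≤ p by have := h.hp; omega)
  rw [hr, show r + 3 - 3 = r by omega, pow_add]
  push_cast
  norm_num
  field_simp
  norm_num
  ring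

/-- the case where some `ζ(D - j, p + j)` occurs -/
lemma caseH (h : Par p D L N C) (hC : Bd L c C) (hC' : Bd L c' C) (hne : ∃ j, j ≤ L ∧ c' j ≠ 0) :
    1 / (2 * (N : ℝ) ^ (p + D + L)) ≤
      |∑' m : ℕ, ∑ n ∈ Finset.Ico 1 (m + 1), G p D L c (m + 1) n +
        ∑' m : ℕ, ∑ n ∈ Finset.Ico 1 (m + 1), H p D L c' (m + 1) n| := by
  classical
  have hD : L ≤ D := by have := h.hD; omega
  have hC0 : 0 ≤ C := by linarith [h.hC1]
  have hex : ∃ x : ℕ, 2 ≤ x ∧ x ≤ N ∧ H p D L c' x 1 ≠ 0 := by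
    by_contra hcon
    push_neg at hcon
    obtain ⟨j, hj, hcj⟩ := hne
    apply hcj
    refine poly_zero h.hN (fun x hx hxN => ?_) j hj
    have h1 := hcon x hx hxN
    rw [H_one hD (by omega), div_eq_zero_iff] at h1
    rcases h1 with h1 | h1
    · exact h1
    · exact absurd h1 (by have : (0 : ℝ) < x := by exact_mod_cast (show 0 < x by omega)
                          positivity)
  set x0 := Nat.find hex with hx0
  obtain ⟨hx2, hxN, hH⟩ := Nat.find_spec hex
  rw [← hx0] at hx2 hxN hH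
  have hmin : ∀ x : ℕ, 2 ≤ x → x < x0 → H p D L c' x 1 = 0 := by
    intro x h1 h2
    by_contra h4
    exact Nat.find_min hex h2 ⟨h1, by omega, h4⟩
  obtain ⟨y, hy⟩ := Nat.exists_eq_add_of_le' (show 1 ≤ x0 by omega)
  set f : ℕ → ℝ := fun m => if m = 0 then 0 else H p D L c' (m + 1) 1 with hf
  set f2 : ℕ → ℝ := fun m => ∑ n ∈ Finset.Ico 2 (m + 1), H p D L c' (m + 1) n with hf2
  have hf0 : ∀ m, m < y → f m = 0 := by
    intro m hm
    rw [hf]
    simp only
    by_cases h1 : m = 0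
    · rw [if_pos h1]
    · rw [if_neg h1]
      exact hmin _ (by omega) (by omega)
  have hfy : f y = H p D L c' x0 1 := by
    rw [hf]
    simp only
    rw [if_neg (by omega), hy]
  -- the tail of f
  have hgb := tail (f := fun m => if m ≤ y then 0 else f m) (A := C) (m1 := y + 1) (s := D - L - 2) hC0
    (fun m hm => by rw [if_pos (by omega)]) (fun m hm => by
      rw [if_neg (by omega), hf]
      simp only
      rw [if_neg (by omega)]
      have h1 := H_up (p := p) (x := m + 1) (n := 1) hD hC' le_rfl (by omega)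
      refine h1.trans (le_of_eq ?_)
      obtain ⟨r, hr⟩ := Nat.exists_eq_add_of_le' h.hD
      rw [hr, show r + (L + 4) - L - 2 + 2 = r + 4 by omega,
        show r + (L + 4) = L + (r + 4) by ring, pow_add _ L (r + 4)]
      push_cast
      have : (0 : ℝ) < (m : ℝ) + 1 := by positivity
      field_simp
      simp)
  have hsp := split_one hf0 hgb.1
  have hf2b := sumH (m1 := 0) (a := 2) (f := f2) h.hD hC0 hC' (by omega)
    (fun m hm => absurd hm (by omega)) (fun m _ => rfl)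
  have hGs := G_small h hC
  have hrows : ∑' m : ℕ, ∑ n ∈ Finset.Ico 1 (m + 1), H p D L c' (m + 1) n = ∑' m, f m + ∑' m, f2 m := by
    rw [← hsp.1.tsum_add hf2b.1]
    refine tsum_congr fun m => ?_
    rw [hf, hf2]
    simp only
    by_cases h1 : m = 0
    · rw [if_pos h1, h1]
      simp
    · rw [if_neg h1, Finset.sum_eq_sum_Ico_succ_bot (show 1 < m + 1 by omega)]
  rw [hrows, hsp.2, hfy]
  -- numbers
  have hx0p : (0 : ℝ) < (x0 : ℝ) := by exact_mod_cast (show 0 < x0 by omega)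
  have hNp : (0 : ℝ) < (N : ℝ) := by exact_mod_cast (show 0 < N by omega)
  have hxN' : (x0 : ℝ) ≤ N := by exact_mod_cast hxN
  have hN1 : (1 : ℝ) ≤ N := by exact_mod_cast (show 1 ≤ N by omega)
  have hlow := H_low (p := p) hD (show 1 ≤ x0 by omega) hH
  have hA := succ_pow (n := x0) (N := N) (e := D) (by omega) (by omega)
    (by have := h.hC1; positivity) h.h1
  have hP := h.p_ge
  set V : ℝ := 1 / (x0 : ℝ) ^ D with hV
  have hVp : 0 < V := by positivity
  -- tail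
  have hr1 : 2 * C / (((y + 1 : ℕ) : ℝ) + 1) ^ (D - L - 2) ≤ V / 8 := by
    have hy1 : ((y + 1 : ℕ) : ℝ) = (x0 : ℝ) := by rw [hy]
    obtain ⟨r, hr⟩ := Nat.exists_eq_add_of_le' h.hD
    rw [hy1, hV, div_div, div_le_div_iff₀ (by positivity) (by positivity)]
    have e3 : D - L - 2 = r + 2 := by omega
    rw [e3]
    have hpos : (0 : ℝ) < ((x0 : ℝ) + 1) ^ (L + 2) := by positivity
    rw [← mul_le_mul_iff_of_pos_right hpos]
    have e4 : ((x0 : ℝ) + 1) ^ (r + 2) * ((x0 : ℝ) + 1) ^ (L + 2) = ((x0 : ℝ) + 1) ^ D := by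
      rw [← pow_add, hr]
      congr 1
      ring
    have e5 : ((x0 : ℝ) + 1) ^ (L + 2) ≤ ((N : ℝ) + 1) ^ (L + 4) := by
      calc ((x0 : ℝ) + 1) ^ (L + 2) ≤ ((N : ℝ) + 1) ^ (L + 2) := by gcongr
        _ ≤ _ := pow_le_pow_right₀ (by linarith) (by omega)
    calc 2 * C * ((x0 : ℝ) ^ D * 8) * ((x0 : ℝ) + 1) ^ (L + 2)
        = 16 * C * ((x0 : ℝ) + 1) ^ (L + 2) * (x0 : ℝ) ^ D := by ring
      _ ≤ 64 * C * ((N : ℝ) + 1) ^ (L + 4) * (x0 : ℝ) ^ D := by
          refine mul_le_mul_of_nonneg_right ?_ (by positivity)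
          have b1 : 0 ≤ C * ((x0 : ℝ) + 1) ^ (L + 2) := by positivity
          calc 16 * C * ((x0 : ℝ) + 1) ^ (L + 2) ≤ 64 * C * ((x0 : ℝ) + 1) ^ (L + 2) := by nlinarith
            _ ≤ _ := mul_le_mul_of_nonneg_left e5 (by positivity)
      _ ≤ ((x0 : ℝ) + 1) ^ D := hA
      _ = 1 * ((x0 : ℝ) + 1) ^ (r + 2) * ((x0 : ℝ) + 1) ^ (L + 2) := by rw [one_mul, e4]
  -- the rest
  have hr2 : 18 * C / 2 ^ p ≤ V / 3 := by
    rw [hV, div_div, div_le_div_iff₀ (by positivity) (by positivity)]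
    have e1 : (x0 : ℝ) ^ D ≤ ((N : ℝ) + 1) ^ (L + D + 4) := by
      calc (x0 : ℝ) ^ D ≤ ((N : ℝ) + 1) ^ D := by
            have : (x0 : ℝ) ≤ (N : ℝ) + 1 := by linarith
            gcongr
        _ ≤ _ := pow_le_pow_right₀ (by linarith) (by omega)
    have b1 : 0 ≤ C * (x0 : ℝ) ^ D := by positivity
    calc 18 * C * ((x0 : ℝ) ^ D * 3) = 54 * (C * (x0 : ℝ) ^ D) := by ring
      _ ≤ 64 * (C * (x0 : ℝ) ^ D) := by linarith
      _ = 64 * C * (x0 : ℝ) ^ D := by ring
      _ ≤ 64 * C * ((N : ℝ) + 1) ^ (L + D + 4) := mul_le_mul_of_nonneg_left e1 (by positivity)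
      _ ≤ 2 ^ p := hP
      _ = 1 * 2 ^ p := by ring
  have hf2' : |∑' m, f2 m| ≤ 2 * C / 2 ^ p := by
    refine hf2b.2.trans (le_of_eq ?_)
    push_cast
    simp
    ring
  have hsum : 2 * C / 2 ^ p + 16 * C / 2 ^ p = 18 * C / 2 ^ p := by ring
  have hfin : V / 2 ≤ |∑' m : ℕ, ∑ n ∈ Finset.Ico 1 (m + 1), G p D L c (m + 1) n +
      (H p D L c' x0 1 + ∑' m, (if m ≤ y then 0 else f m) + ∑' m, f2 m)| := by
    have t0 : ∑' m : ℕ, ∑ n ∈ Finset.Ico 1 (m + 1), G p D L c (m + 1) n +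
      (H p D L c' x0 1 + ∑' m, (if m ≤ y then 0 else f m) + ∑' m, f2 m) =
      H p D L c' x0 1 + (∑' m : ℕ, ∑ n ∈ Finset.Ico 1 (m + 1), G p D L c (m + 1) n +
        (∑' m, (if m ≤ y then 0 else f m) + ∑' m, f2 m)) := by ring
    rw [t0]
    have t1 := abs_sub_abs_le_abs_add (H p D L c' x0 1)
      (∑' m : ℕ, ∑ n ∈ Finset.Ico 1 (m + 1), G p D L c (m + 1) n +
        (∑' m, (if m ≤ y then 0 else f m) + ∑' m, f2 m))
    have t2 := abs_add_le (∑' m : ℕ, ∑ n ∈ Finset.Ico 1 (m + 1), G p D L c (m + 1) n)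
      (∑' m, (if m ≤ y then 0 else f m) + ∑' m, f2 m)
    have t3 := abs_add_le (∑' m, (if m ≤ y then 0 else f m)) (∑' m, f2 m)
    have t4 := hgb.2.trans hr1
    have t5 := hGs.2
    linarith
  refine le_trans ?_ hfin
  rw [hV, div_div, div_le_div_iff₀ (by positivity) (by positivity), one_mul, one_mul]
  calc (x0 : ℝ) ^ D * 2 ≤ (N : ℝ) ^ D * 2 := by gcongr
    _ ≤ (N : ℝ) ^ (p + D + L) * 2 := by
        have : (N : ℝ) ^ D ≤ (N : ℝ) ^ (p + D + L) := pow_le_pow_right₀ hN1 (by omega)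
        linarith
    _ = 2 * (N : ℝ) ^ (p + D + L) := by ring

/-- the Riemann zeta value at the natural number `k` -/
noncomputable def zt (k : ℕ) : ℝ := ∑' m : ℕ, 1 / ((m + 1 : ℕ) : ℝ) ^ k

lemma zt_ge {k : ℕ} (hk : 2 ≤ k) : 1 ≤ zt k := by
  obtain ⟨s, rfl⟩ := Nat.exists_eq_add_of_le' hk
  have hs := (tail (f := fun m : ℕ => 1 / ((m + 1 : ℕ) : ℝ) ^ (s + 2)) (A := 1) (m1 := 0) (s := s)
    zero_le_one (fun m hm => absurd hm (by omega)) (fun m _ => by
      rw [abs_of_nonneg (by positivity)]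
      push_cast
      exact le_rfl)).1
  have h1 := hs.le_tsum 0 (fun m _ => by positivity)
  simpa [zt] using h1

/-- the case `d ≠ 0` -/
lemma caseD (h : Par p D L N C) (hC : Bd L c C) (hC' : Bd L c' C) (hd : d ≠ 0) :
    1 / (2 * (N : ℝ) ^ (p + D + L)) ≤
      |∑' m : ℕ, ∑ n ∈ Finset.Ico 1 (m + 1), G p D L c (m + 1) n +
        ∑' m : ℕ, ∑ n ∈ Finset.Ico 1 (m + 1), H p D L c' (m + 1) n + d * zt (p + D)| := by
  have hC0 : 0 ≤ C := by linarith [h.hC1]
  have hGs := (G_small h hC).2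
  have hP := h.p_ge
  have hQ := h.D_ge
  have hHs := (sumH (m1 := 1) (a := 1)
    (f := fun m => ∑ n ∈ Finset.Ico 1 (m + 1), H p D L c' (m + 1) n) h.hD hC0 hC' le_rfl
    (fun m hm => by
      have : m = 0 := by omega
      subst this
      simp) (fun m _ => rfl)).2
  have hz : 1 ≤ |(d : ℝ) * zt (p + D)| := by
    rw [abs_mul]
    have h1 : (1 : ℝ) ≤ |(d : ℝ)| := by
      have := Int.one_le_abs hd
      exact_mod_cast this
    have h2 := zt_ge (k := p + D) (by have := h.hp; omega)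
    rw [abs_of_nonneg (show (0 : ℝ) ≤ zt (p + D) by linarith)]
    nlinarith
  have hN1 : (1 : ℝ) ≤ N := by have := h.hN; exact_mod_cast (show 1 ≤ N by omega)
  have e1 : 16 * C / 2 ^ p ≤ 1 / 4 := by
    rw [div_le_div_iff₀ (by positivity) (by norm_num)]
    have : (1 : ℝ) ≤ ((N : ℝ) + 1) ^ (L + D + 4) := one_le_pow₀ (by linarith)
    have b1 : 64 * C * 1 ≤ 64 * C * ((N : ℝ) + 1) ^ (L + D + 4) :=
      mul_le_mul_of_nonneg_left this (by positivity)
    linarith
  have e2 : |∑' m : ℕ, ∑ n ∈ Finset.Ico 1 (m + 1), H p D L c' (m + 1) n| ≤ 1 / 4 := by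
    refine hHs.trans ?_
    obtain ⟨r, hr⟩ := Nat.exists_eq_add_of_le' h.hD
    rw [show D - L - 3 = r + 1 by omega]
    push_cast
    norm_num
    rw [div_le_div_iff₀ (by positivity) (by norm_num)]
    have hpos : (0 : ℝ) < 2 ^ (L + 3) := by positivity
    rw [← mul_le_mul_iff_of_pos_right hpos]
    have e4 : (2 : ℝ) ^ (r + 1) * 2 ^ (L + 3) = 2 ^ D := by
      rw [← pow_add, hr]
      congr 1
      ring
    have e5 : (2 : ℝ) ^ (L + 3) ≤ ((N : ℝ) + 1) ^ (L + 4) := by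
      calc (2 : ℝ) ^ (L + 3) ≤ ((N : ℝ) + 1) ^ (L + 3) := by
            have : (2 : ℝ) ≤ (N : ℝ) + 1 := by linarith
            gcongr
        _ ≤ _ := pow_le_pow_right₀ (by linarith) (by omega)
    calc 2 * C * 4 * 2 ^ (L + 3) ≤ 64 * C * 2 ^ (L + 3) := by
          have : 0 ≤ C * (2 : ℝ) ^ (L + 3) := by positivity
          nlinarith
      _ ≤ 64 * C * ((N : ℝ) + 1) ^ (L + 4) := mul_le_mul_of_nonneg_left e5 (by positivity)
      _ ≤ 2 ^ D := hQ
      _ = 1 * 2 ^ (r + 1) * 2 ^ (L + 3) := by rw [one_mul, e4]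
  have t0 : (1 : ℝ) / 2 ≤ |∑' m : ℕ, ∑ n ∈ Finset.Ico 1 (m + 1), G p D L c (m + 1) n +
        ∑' m : ℕ, ∑ n ∈ Finset.Ico 1 (m + 1), H p D L c' (m + 1) n + d * zt (p + D)| := by
    rw [add_comm]
    have t1 := abs_sub_abs_le_abs_add ((d : ℝ) * zt (p + D))
      (∑' m : ℕ, ∑ n ∈ Finset.Ico 1 (m + 1), G p D L c (m + 1) n +
        ∑' m : ℕ, ∑ n ∈ Finset.Ico 1 (m + 1), H p D L c' (m + 1) n)
    have t2 := abs_add_le (∑' m : ℕ, ∑ n ∈ Finset.Ico 1 (m + 1), G p D L c (m + 1) n)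
      (∑' m : ℕ, ∑ n ∈ Finset.Ico 1 (m + 1), H p D L c' (m + 1) n)
    linarith
  refine le_trans ?_ t0
  rw [div_le_div_iff₀ (by positivity) (by norm_num)]
  have : (1 : ℝ) ≤ (N : ℝ) ^ (p + D + L) := one_le_pow₀ hN1
  linarith

/-- **the finite theorem** -/
theorem finite_bound (h : Par p D L N C) (hC : Bd L c C) (hC' : Bd L c' C)
    (hne : d ≠ 0 ∨ ∃ j, j ≤ L ∧ (c j ≠ 0 ∨ c' j ≠ 0)) :
    1 / (2 * (N : ℝ) ^ (p + D + L)) ≤
      |∑ j ∈ range (L + 1), ((c j : ℝ) * dz (p + j) (D - j) + (c' j : ℝ) * dz (D - j) (p + j)) +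
        d * zt (p + D)| := by
  rw [Finset.sum_add_distrib, sum_G (by have := h.hp; omega), sum_H (by have := h.hD; omega)]
  by_cases hd : d = 0
  · rw [hd, Int.cast_zero, zero_mul, add_zero]
    by_cases hc' : ∃ j, j ≤ L ∧ c' j ≠ 0
    · exact caseH h hC hC' hc'
    · push_neg at hc'
      have h0 : ∀ x n : ℕ, H p D L c' x n = 0 := by
        intro x n
        unfold H
        refine Finset.sum_eq_zero fun j hj => ?_
        rw [Finset.mem_range] at hj
        rw [hc' j (by omega)]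
        simp
      simp only [h0, Finset.sum_const_zero, tsum_zero, add_zero]
      refine caseG h hC ?_
      rcases hne with h1 | ⟨j, hj, h1 | h1⟩
      · exact absurd hd h1
      · exact ⟨j, hj, h1⟩
      · exact absurd (hc' j hj) h1
  · exact caseD h hC hC' hd

end

end Run7.h776.DZW
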