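import Pool.Agent.Run7.h776.DZW.Est

/-!
# The finite theorem
-/

set_option autoImplicit false

namespace Run7.h776.DZW

open Finset

/-- the conditions on the parameters -/
structure Par (p D L N : ℕ) (C : ℝ) : Prop where
  hp : 4 ≤ p
  hD : L + 4 ≤ D
  hN : L + 3 ≤ N
  hC1 : 1 ≤ C
  h1 : (64 * C * ((N : ℝ) + 1) ^ (L + 4)) ^ N ≤ (2 : ℝ) ^ D
  h2 : (64 * C * ((N : ℝ) + 1) ^ (L + D + 4)) ^ N ≤ (2 : ℝ) ^ p

section

variable {p D L N : ℕ} {c c' : ℕ → ℤ} {d : ℤ} {C : ℝ}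

lemma Par.D_ge (h : Par p D L N C) : 64 * C * ((N : ℝ) + 1) ^ (L + 4) ≤ (2 : ℝ) ^ D := by
  have h1 := h.h1
  have hN : 1 ≤ N := by have := h.hN; omega
  have hb : (1 : ℝ) ≤ 64 * C * ((N : ℝ) + 1) ^ (L + 4) := by
    have e1 : (1 : ℝ) ≤ ((N : ℝ) + 1) ^ (L + 4) := one_le_pow₀ (by linarith [Nat.cast_nonneg (α := ℝ) N])
    have e2 := h.hC1
    nlinarith
  refine le_trans ?_ h1
  exact le_self_pow₀ hb (by omega)

lemma Par.p_ge (h : Par p D L N C) : 64 * C * ((N : ℝ) + 1) ^ (L + D + 4) ≤ (2 : ℝ) ^ p := by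
  have h1 := h.h2
  have hN : 1 ≤ N := by have := h.hN; omega
  have hb : (1 : ℝ) ≤ 64 * C * ((N : ℝ) + 1) ^ (L + D + 4) := by
    have e1 : (1 : ℝ) ≤ ((N : ℝ) + 1) ^ (L + D + 4) :=
      one_le_pow₀ (by linarith [Nat.cast_nonneg (α := ℝ) N])
    have e2 := h.hC1
    nlinarith
  refine le_trans ?_ h1
  exact le_self_pow₀ hb (by omega)

/-- a polynomial with integer coefficients vanishing at many points -/
lemma poly_zero (hN : L + 3 ≤ N)
    (h : ∀ x : ℕ, 2 ≤ x → x ≤ N → ∑ j ∈ range (L + 1), (c j : ℝ) * (x : ℝ) ^ j = 0) :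
    ∀ j, j ≤ L → c j = 0 := by
  classical
  set P : Polynomial ℝ := ∑ j ∈ range (L + 1), Polynomial.C (c j : ℝ) * Polynomial.X ^ j with hP
  have hdeg : P.natDegree ≤ L := by
    rw [hP]
    refine Polynomial.natDegree_sum_le_of_forall_le _ _ fun j hj => ?_
    rw [Finset.mem_range] at hj
    exact (Polynomial.natDegree_C_mul_X_pow_le _ _).trans (by omega)
  have hz : P = 0 := by
    refine Polynomial.eq_zero_of_natDegree_lt_card_of_eval_eq_zero' P
      ((Finset.Icc 2 N).image fun x : ℕ => (x : ℝ)) ?_ ?_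
    · intro x hx
      rw [Finset.mem_image] at hx
      obtain ⟨y, hy, rfl⟩ := hx
      rw [Finset.mem_Icc] at hy
      rw [hP, Polynomial.eval_finset_sum]
      simp only [Polynomial.eval_mul, Polynomial.eval_C, Polynomial.eval_pow, Polynomial.eval_X]
      exact h y hy.1 hy.2
    · rw [Finset.card_image_of_injective _ Nat.cast_injective, Nat.card_Icc]
      omega
  intro j hj
  have hc : P.coeff j = (c j : ℝ) := by
    rw [hP, Polynomial.finset_sum_coeff]
    simp only [Polynomial.coeff_C_mul, Polynomial.coeff_X_pow]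
    rw [Finset.sum_eq_single j]
    · simp
    · intro i _ hij
      rw [if_neg (Ne.symm hij)]
      ring
    · intro hj'
      rw [Finset.mem_range] at hj'
      omega
  rw [hz, Polynomial.coeff_zero] at hc
  exact_mod_cast hc.symm

/-- reversed polynomial -/
lemma poly_zero' (hN : L + 3 ≤ N)
    (h : ∀ x : ℕ, 2 ≤ x → x ≤ N → ∑ j ∈ range (L + 1), (c j : ℝ) * (x : ℝ) ^ (L - j) = 0) :
    ∀ j, j ≤ L → c j = 0 := by
  have h1 := poly_zero (c := fun j => c (L - j)) hN (fun x hx hxN => by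
    rw [← h x hx hxN, ← Finset.sum_range_reflect]
    refine Finset.sum_congr rfl fun j hj => ?_
    rw [Finset.mem_range] at hj
    have e : L + 1 - 1 - j = L - j := by omega
    rw [e, show L - (L - j) = j by omega])
  intro j hj
  have := h1 (L - j) (by omega)
  simpa [show L - (L - j) = j by omega] using this

lemma G_one (hD : L ≤ D) {x : ℕ} (hx : 1 ≤ x) :
    G p D L c x 1 = (∑ j ∈ range (L + 1), (c j : ℝ) * (x : ℝ) ^ (L - j)) / (x : ℝ) ^ (p + L) := by
  have hx0 : (0 : ℝ) < x := by exact_mod_cast hx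
  unfold G
  rw [Finset.sum_div]
  refine Finset.sum_congr rfl fun j hj => ?_
  rw [Finset.mem_range] at hj
  obtain ⟨r, hr⟩ := Nat.exists_eq_add_of_le (show j ≤ L by omega)
  subst hr
  rw [show j + r - j = r by omega, show p + (j + r) = p + j + r by ring, pow_add (x : ℝ) (p + j) r]
  field_simp
  simp

lemma H_one (hD : L ≤ D) {x : ℕ} (hx : 1 ≤ x) :
    H p D L c x 1 = (∑ j ∈ range (L + 1), (c j : ℝ) * (x : ℝ) ^ j) / (x : ℝ) ^ D := by
  have hx0 : (0 : ℝ) < x := by exact_mod_cast hx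
  unfold H
  rw [Finset.sum_div]
  refine Finset.sum_congr rfl fun j hj => ?_
  rw [Finset.mem_range] at hj
  obtain ⟨r, hr⟩ := Nat.exists_eq_add_of_le (show j ≤ D by omega)
  subst hr
  rw [show j + r - j = r by omega, pow_add (x : ℝ) j r]
  field_simp
  simp

/-- the case of the `ζ(p + j, D - j)` alone -/
lemma caseG (h : Par p D L N C) (hC : Bd L c C) (hne : ∃ j, j ≤ L ∧ c j ≠ 0) :
    1 / (2 * (N : ℝ) ^ (p + D + L)) ≤
      |∑' m : ℕ, ∑ n ∈ Finset.Ico 1 (m + 1), G p D L c (m + 1) n| := by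
  classical
  have hD : L ≤ D := by have := h.hD; omega
  have hC0 : 0 ≤ C := by linarith [h.hC1]
  -- the first term
  have hex : ∃ x : ℕ, ∃ n : ℕ, 1 ≤ n ∧ n < x ∧ x ≤ N ∧ G p D L c x n ≠ 0 := by
    by_contra hcon
    push_neg at hcon
    obtain ⟨j, hj, hcj⟩ := hne
    apply hcj
    refine poly_zero' h.hN (fun x hx hxN => ?_) j hj
    have h1 := hcon x 1 le_rfl (by omega) hxN
    rw [G_one hD (by omega), div_eq_zero_iff] at h1
    rcases h1 with h1 | h1
    · exact h1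
    · exact absurd h1 (by have : (0 : ℝ) < x := by exact_mod_cast (show 0 < x by omega)
                          positivity)
  set x0 := Nat.find hex with hx0
  have hx0s := Nat.find_spec hex
  rw [← hx0] at hx0s
  set n0 := Nat.find hx0s with hn0
  obtain ⟨hn1, hnx, hxN, hG⟩ := Nat.find_spec hx0s
  rw [← hn0] at hn1 hnx hG
  have hmin : ∀ x n : ℕ, 1 ≤ n → n < x → x < x0 → G p D L c x n = 0 := by
    intro x n h1 h2 h3
    by_contra h4
    exact Nat.find_min hex h3 ⟨n, h1, h2, by omega, h4⟩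
  have hmin' : ∀ n : ℕ, 1 ≤ n → n < n0 → G p D L c x0 n = 0 := by
    intro n h1 h2
    by_contra h4
    exact Nat.find_min hx0s h2 ⟨h1, by omega, hxN, h4⟩
  obtain ⟨y, hy⟩ := Nat.exists_eq_add_of_le' (show 1 ≤ x0 by omega)
  -- x0 = y + 1
  set f : ℕ → ℝ := fun m => ∑ n ∈ Finset.Ico 1 (m + 1), G p D L c (m + 1) n with hf
  have hf0 : ∀ m, m < y → f m = 0 := by
    intro m hm
    rw [hf]
    refine Finset.sum_eq_zero fun n hn => ?_
    rw [Finset.mem_Ico] at hn
    exact hmin _ _ hn.1 (by omega) (by omega)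
  have hfs : Summable f := (sumG hD h.hp hC0 hC (m1 := 0) (f := f) (fun m hm => absurd hm (by omega))
    fun m _ => rfl).1
  have hfy : f y = G p D L c x0 n0 + ∑ n ∈ Finset.Ico (n0 + 1) (y + 1), G p D L c (y + 1) n := by
    rw [hf]
    simp only
    rw [← Finset.sum_Ico_consecutive _ (show 1 ≤ n0 by omega) (show n0 ≤ y + 1 by omega),
      Finset.sum_eq_zero (s := Finset.Ico 1 n0), zero_add,
      Finset.sum_eq_sum_Ico_succ_bot (show n0 < y + 1 by omega), ← hy]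
    intro n hn
    rw [Finset.mem_Ico] at hn
    rw [← hy]
    exact hmin' n hn.1 hn.2
  -- the rest
  set g : ℕ → ℝ := fun m => if m ≤ y then 0 else f m with hg
  have hgb := sumG (m1 := y + 1) (f := g) hD h.hp hC0 hC (fun m hm => by
    rw [hg]; simp only; rw [if_pos (by omega)]) (fun m hm => by
    rw [hg]; simp only; rw [if_neg (by omega)])
  have hsum : ∑' m, f m = f y + ∑' m, g m := by
    have e1 : f = fun m => (if m = y then f y else 0) + g m := by
      funext m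
      rw [hg]
      simp only
      rcases lt_trichotomy m y with hm | hm | hm
      · rw [hf0 m hm, if_neg (by omega), if_pos (by omega)]
        ring
      · rw [if_pos hm, if_pos (by omega), hm]
        ring
      · rw [if_neg (by omega), if_neg (by omega)]
        ring
    have hs1 : Summable fun m : ℕ => (if m = y then f y else 0) :=
      summable_of_finite_support (Set.Finite.subset (Set.finite_singleton y) fun m hm => by
        by_contra h'
        apply hm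
        simp only [Set.mem_singleton_iff] at h'
        simp [h'])
    conv_lhs => rw [e1]
    rw [hs1.tsum_add hgb.1, tsum_ite_eq]
  rw [hsum, hfy]
  have hrow := rowG (p := p) (m := y) (a := n0 + 1) hD hC0 hC (by omega)
  have hlow := G_low (p := p) hD (show 1 ≤ x0 by omega) hn1 hG
  -- numbers
  have hX : ((x0 : ℕ) : ℝ) = (y : ℝ) + 1 := by rw [hy]; push_cast; ring
  have hx0p : (0 : ℝ) < (x0 : ℝ) := by exact_mod_cast (show 0 < x0 by omega)
  have hn0p : (0 : ℝ) < (n0 : ℝ) := by exact_mod_cast (show 0 < n0 by omega)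
  have hNp : (0 : ℝ) < (N : ℝ) := by exact_mod_cast (show 0 < N by omega)
  have hxN' : (x0 : ℝ) ≤ N := by exact_mod_cast hxN
  have hnN' : (n0 : ℝ) ≤ N := by exact_mod_cast (show n0 ≤ N by omega)
  have hA := succ_pow (n := n0) (N := N) (e := D) (by omega) (by omega) (by positivity) h.h1
  have hB := succ_pow (n := x0) (N := N) (e := p) (by omega) (by omega) (by positivity) h.h2
  set V : ℝ := 1 / ((x0 : ℝ) ^ (p + L) * (n0 : ℝ) ^ D) with hV
  have hVp : 0 < V := by positivity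
  -- the row
  have hr1 : C * ((y : ℝ) + 1) / (((y : ℝ) + 1) ^ p * (((n0 + 1 : ℕ) : ℝ)) ^ D) ≤ V / 4 := by
    rw [← hX, hV, div_div, div_le_div_iff₀ (by positivity) (by positivity)]
    push_cast
    have e1 : (x0 : ℝ) ^ (L + 1) ≤ ((N : ℝ) + 1) ^ (L + 4) := by
      calc (x0 : ℝ) ^ (L + 1) ≤ ((N : ℝ) + 1) ^ (L + 1) := by
            have : (x0 : ℝ) ≤ (N : ℝ) + 1 := by linarith
            gcongr
        _ ≤ ((N : ℝ) + 1) ^ (L + 4) := pow_le_pow_right₀ (by linarith) (by omega)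
    calc C * (x0 : ℝ) * ((x0 : ℝ) ^ (p + L) * (n0 : ℝ) ^ D * 4)
        = (x0 : ℝ) ^ p * (4 * C * (x0 : ℝ) ^ (L + 1) * (n0 : ℝ) ^ D) := by ring
      _ ≤ (x0 : ℝ) ^ p * (64 * C * ((N : ℝ) + 1) ^ (L + 4) * (n0 : ℝ) ^ D) := by
          refine mul_le_mul_of_nonneg_left ?_ (by positivity)
          refine mul_le_mul_of_nonneg_right ?_ (by positivity)
          have : 4 * C * (x0 : ℝ) ^ (L + 1) ≤ 64 * C * (x0 : ℝ) ^ (L + 1) := by
            have : 0 ≤ C * (x0 : ℝ) ^ (L + 1) := by positivity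
            nlinarith
          refine this.trans ?_
          exact mul_le_mul_of_nonneg_left e1 (by positivity)
      _ ≤ (x0 : ℝ) ^ p * (((n0 : ℝ) + 1) ^ D) := mul_le_mul_of_nonneg_left hA (by positivity)
      _ = 1 * ((x0 : ℝ) ^ p * ((n0 : ℝ) + 1) ^ D) := by ring
  -- the later rows
  have hr2 : 2 * C / (((y + 1 : ℕ) : ℝ) + 1) ^ (p - 3) ≤ V / 4 := by
    have hy1 : ((y + 1 : ℕ) : ℝ) = (x0 : ℝ) := by rw [hX]; push_cast; ring
    obtain ⟨r, hr⟩ := Nat.exists_eq_add_of_le' (show 3 ≤ p by have := h.hp; omega)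
    rw [hy1, hV, div_div, div_le_div_iff₀ (by positivity) (by positivity)]
    have e0 : (x0 : ℝ) + 1 ≤ (N : ℝ) + 1 := by linarith
    have e3 : p - 3 = r := by omega
    rw [e3]
    have hpos : (0 : ℝ) < ((x0 : ℝ) + 1) ^ 3 := by positivity
    rw [← mul_le_mul_iff_of_pos_right hpos]
    have e4 : ((x0 : ℝ) + 1) ^ r * ((x0 : ℝ) + 1) ^ 3 = ((x0 : ℝ) + 1) ^ p := by
      rw [← pow_add, hr]
    have e5 : (x0 : ℝ) ^ L * (n0 : ℝ) ^ D * ((x0 : ℝ) + 1) ^ 3 ≤ ((N : ℝ) + 1) ^ (L + D + 4) := by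
      calc (x0 : ℝ) ^ L * (n0 : ℝ) ^ D * ((x0 : ℝ) + 1) ^ 3
          ≤ ((N : ℝ) + 1) ^ L * ((N : ℝ) + 1) ^ D * ((N : ℝ) + 1) ^ 3 := by
            have a1 : (x0 : ℝ) ≤ (N : ℝ) + 1 := by linarith
            have a2 : (n0 : ℝ) ≤ (N : ℝ) + 1 := by linarith
            gcongr
        _ = ((N : ℝ) + 1) ^ (L + D + 3) := by rw [← pow_add, ← pow_add]
        _ ≤ _ := pow_le_pow_right₀ (by linarith) (by omega)
    calc 2 * C * ((x0 : ℝ) ^ (p + L) * (n0 : ℝ) ^ D * 4) * ((x0 : ℝ) + 1) ^ 3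
        = (8 * C * ((x0 : ℝ) ^ L * (n0 : ℝ) ^ D * ((x0 : ℝ) + 1) ^ 3)) * (x0 : ℝ) ^ p := by ring
      _ ≤ (64 * C * ((N : ℝ) + 1) ^ (L + D + 4)) * (x0 : ℝ) ^ p := by
          refine mul_le_mul_of_nonneg_right ?_ (by positivity)
          have b1 : 0 ≤ C * ((x0 : ℝ) ^ L * (n0 : ℝ) ^ D * ((x0 : ℝ) + 1) ^ 3) := by positivity
          calc 8 * C * ((x0 : ℝ) ^ L * (n0 : ℝ) ^ D * ((x0 : ℝ) + 1) ^ 3)
              ≤ 64 * C * ((x0 : ℝ) ^ L * (n0 : ℝ) ^ D * ((x0 : ℝ) + 1) ^ 3) := by nlinarith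
            _ ≤ _ := mul_le_mul_of_nonneg_left e5 (by positivity)
      _ ≤ ((x0 : ℝ) + 1) ^ p := hB
      _ = 1 * ((x0 : ℝ) + 1) ^ r * ((x0 : ℝ) + 1) ^ 3 := by rw [one_mul, e4]
  have hfin : V / 2 ≤ |G p D L c x0 n0 + ∑ n ∈ Finset.Ico (n0 + 1) (y + 1), G p D L c (y + 1) n +
      ∑' m, g m| := by
    have t1 := abs_sub_abs_le_abs_add (G p D L c x0 n0)
      (∑ n ∈ Finset.Ico (n0 + 1) (y + 1), G p D L c (y + 1) n + ∑' m, g m)
    have t2 := abs_add_le (∑ n ∈ Finset.Ico (n0 + 1) (y + 1), G p D L c (y + 1) n) (∑' m, g m)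
    rw [← add_assoc] at t1
    have t3 := hrow.trans hr1
    have t4 := hgb.2.trans hr2
    linarith
  refine le_trans ?_ hfin
  rw [hV, div_div, div_le_div_iff₀ (by positivity) (by positivity), one_mul, one_mul]
  calc (x0 : ℝ) ^ (p + L) * (n0 : ℝ) ^ D * 2 ≤ (N : ℝ) ^ (p + L) * (N : ℝ) ^ D * 2 := by gcongr
    _ = 2 * (N : ℝ) ^ (p + D + L) := by rw [← pow_add]; ring

end

end Run7.h776.DZW
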