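import Pool.Agent.Run7.h776.DZW.Fin

/-!
# Double zeta values with first argument near the multiples of `k / s`: the finite theorem
-/

set_option autoImplicit false

namespace Run7.h776.DZW

open Finset

/-- the inner sum for the window `r` -/
noncomputable def Qr (e : ℕ) (c : ℕ → ℕ → ℤ) (r x n : ℕ) : ℝ :=
  ∑ i ∈ range (e + 1), (c r i : ℝ) * (1 / (n : ℝ) ^ (e - i) / (x : ℝ) ^ i)

/-- the weight of the pair `(x, n)` in the window `r` -/
def Wt (s r x n : ℕ) : ℕ := x ^ r * n ^ (s - r)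

/-- the part of the value of the combination which belongs to `M ^ (- κ)` -/
noncomputable def Tm (s e : ℕ) (c : ℕ → ℕ → ℤ) (M : ℕ) : ℝ :=
  ∑ m ∈ range M, ∑ n ∈ Finset.Ico 1 (m + 1), ∑ r ∈ Finset.Ico 1 s,
    if Wt s r (m + 1) n = M then Qr e c r (m + 1) n else 0

section

variable {s κ e : ℕ} {c : ℕ → ℕ → ℤ} {C : ℝ}

lemma Wt_ge {r x n : ℕ} (hr : 1 ≤ r) (hrs : r < s) (hx : 1 ≤ x) (hn : 1 ≤ n) : x * n ≤ Wt s r x n := by
  unfold Wt
  have h1 : x ≤ x ^ r := Nat.le_self_pow (by omega) x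
  have h2 : n ≤ n ^ (s - r) := Nat.le_self_pow (by omega) n
  exact Nat.mul_le_mul h1 h2

lemma Wt_ge_left {r x n : ℕ} (hr : 1 ≤ r) (hrs : r < s) (hx : 1 ≤ x) (hn : 1 ≤ n) :
    x ≤ Wt s r x n :=
  (Nat.le_mul_of_pos_right x hn).trans (Wt_ge hr hrs hx hn)

lemma Qr_up {r x n : ℕ} (hx : 1 ≤ x) (hn : 1 ≤ n) :
    |Qr e c r x n| ≤ ∑ i ∈ range (e + 1), |(c r i : ℝ)| := by
  unfold Qr
  refine (Finset.abs_sum_le_sum_abs _ _).trans (Finset.sum_le_sum fun i _ => ?_)
  rw [abs_mul]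
  refine mul_le_of_le_one_right (abs_nonneg _) ?_
  have h1 : (1 : ℝ) ≤ (n : ℝ) ^ (e - i) := one_le_pow₀ (by exact_mod_cast hn)
  have h2 : (1 : ℝ) ≤ (x : ℝ) ^ i := one_le_pow₀ (by exact_mod_cast hx)
  rw [abs_of_nonneg (by positivity), div_div]
  rw [div_le_one (by positivity)]
  nlinarith

/-- the double series -/
lemma sum_Q (hκ : 3 ≤ κ) :
    ∑ r ∈ Finset.Ico 1 s, ∑ i ∈ range (e + 1),
      (c r i : ℝ) * dz (r * κ + i) ((s - r) * κ + (e - i)) =
      ∑' m : ℕ, ∑ n ∈ Finset.Ico 1 (m + 1), ∑ r ∈ Finset.Ico 1 s,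
        Qr e c r (m + 1) n / (Wt s r (m + 1) n : ℝ) ^ κ := by
  have h0 : ∀ r ∈ Finset.Ico 1 s, ∑ i ∈ range (e + 1),
      (c r i : ℝ) * dz (r * κ + i) ((s - r) * κ + (e - i)) = ∑' m : ℕ,
        ∑ n ∈ Finset.Ico 1 (m + 1), Qr e c r (m + 1) n / (Wt s r (m + 1) n : ℝ) ^ κ ∧
      Summable fun m : ℕ =>
        ∑ n ∈ Finset.Ico 1 (m + 1), Qr e c r (m + 1) n / (Wt s r (m + 1) n : ℝ) ^ κ := by
    intro r hr
    rw [Finset.mem_Ico] at hr
    have hκr : 3 ≤ r * κ := le_trans hκ (Nat.le_mul_of_pos_left κ (by omega))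
    have h1 : ∀ i ∈ range (e + 1), (c r i : ℝ) * dz (r * κ + i) ((s - r) * κ + (e - i)) =
        ∑' m : ℕ, (c r i : ℝ) * ((∑ n ∈ Finset.Ico 1 (m + 1), 1 / (n : ℝ) ^ ((s - r) * κ + (e - i))) /
          ((m + 1 : ℕ) : ℝ) ^ (r * κ + i)) := by
      intro i _
      rw [dz, tsum_mul_left]
    have hs : ∀ i ∈ range (e + 1), Summable fun m : ℕ =>
        (c r i : ℝ) * ((∑ n ∈ Finset.Ico 1 (m + 1), 1 / (n : ℝ) ^ ((s - r) * κ + (e - i))) /
          ((m + 1 : ℕ) : ℝ) ^ (r * κ + i)) := by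
      intro i _
      exact (dz_summable _ (by omega)).mul_left _
    have hpt : ∀ m : ℕ, ∑ i ∈ range (e + 1),
        (c r i : ℝ) * ((∑ n ∈ Finset.Ico 1 (m + 1), 1 / (n : ℝ) ^ ((s - r) * κ + (e - i))) /
          ((m + 1 : ℕ) : ℝ) ^ (r * κ + i)) =
        ∑ n ∈ Finset.Ico 1 (m + 1), Qr e c r (m + 1) n / (Wt s r (m + 1) n : ℝ) ^ κ := by
      intro m
      unfold Qr
      simp_rw [Finset.sum_div, Finset.mul_sum]
      rw [Finset.sum_comm]
      refine Finset.sum_congr rfl fun n hn => Finset.sum_congr rfl fun i _ => ?_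
      rw [Finset.mem_Ico] at hn
      have hn0 : (n : ℝ) ≠ 0 := by
        have : n ≠ 0 := by omega
        exact_mod_cast this
      have hm0 : ((m : ℝ) + 1) ≠ 0 := by positivity
      unfold Wt
      push_cast
      rw [pow_add, pow_add, mul_pow, ← pow_mul, ← pow_mul]
      field_simp
    refine ⟨?_, ?_⟩
    · rw [Finset.sum_congr rfl h1, ← Summable.tsum_finsetSum hs]
      exact tsum_congr hpt
    · have := summable_sum hs
      refine this.congr fun m => ?_
      exact hpt m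
  rw [Finset.sum_congr rfl fun r hr => (h0 r hr).1, ← Summable.tsum_finsetSum fun r hr => (h0 r hr).2]
  exact tsum_congr fun m => Finset.sum_comm

/-- the large part of the series -/
lemma large_part (hκ : 3 ≤ κ) (hC : ∑ r ∈ Finset.Ico 1 s, ∑ i ∈ range (e + 1), |(c r i : ℝ)| ≤ C)
    (K : ℕ) :
    Summable (fun m : ℕ => ∑ n ∈ Finset.Ico 1 (m + 1), ∑ r ∈ Finset.Ico 1 s,
      if Wt s r (m + 1) n ≤ K then 0 else Qr e c r (m + 1) n / (Wt s r (m + 1) n : ℝ) ^ κ) ∧
    |∑' m : ℕ, ∑ n ∈ Finset.Ico 1 (m + 1), ∑ r ∈ Finset.Ico 1 s,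
      if Wt s r (m + 1) n ≤ K then 0 else Qr e c r (m + 1) n / (Wt s r (m + 1) n : ℝ) ^ κ| ≤
      2 * C / ((K : ℝ) + 1) ^ (κ - 3) := by
  have hC0 : 0 ≤ C := le_trans (Finset.sum_nonneg fun r _ => Finset.sum_nonneg fun i _ =>
    abs_nonneg _) hC
  have h := tail (m1 := 0) (s := 0) (A := C / ((K : ℝ) + 1) ^ (κ - 3))
    (f := fun m : ℕ => ∑ n ∈ Finset.Ico 1 (m + 1), ∑ r ∈ Finset.Ico 1 s,
      if Wt s r (m + 1) n ≤ K then 0 else Qr e c r (m + 1) n / (Wt s r (m + 1) n : ℝ) ^ κ)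
    (by positivity) (fun m hm => absurd hm (by omega)) (fun m _ => by
      have hm0 : (0 : ℝ) < (m : ℝ) + 1 := by positivity
      have hterm : ∀ n ∈ Finset.Ico 1 (m + 1), |∑ r ∈ Finset.Ico 1 s,
          if Wt s r (m + 1) n ≤ K then 0 else
            Qr e c r (m + 1) n / (Wt s r (m + 1) n : ℝ) ^ κ| ≤
          C * (1 / (((K : ℝ) + 1) ^ (κ - 3) * ((m : ℝ) + 1) ^ 3)) := by
        intro n hn
        rw [Finset.mem_Ico] at hn
        calc |∑ r ∈ Finset.Ico 1 s,
            if Wt s r (m + 1) n ≤ K then 0 else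
              Qr e c r (m + 1) n / (Wt s r (m + 1) n : ℝ) ^ κ|
            ≤ ∑ r ∈ Finset.Ico 1 s, (∑ i ∈ range (e + 1), |(c r i : ℝ)|) *
                (1 / (((K : ℝ) + 1) ^ (κ - 3) * ((m : ℝ) + 1) ^ 3)) := by
              refine (Finset.abs_sum_le_sum_abs _ _).trans (Finset.sum_le_sum fun r hr => ?_)
              rw [Finset.mem_Ico] at hr
              have hq0 : 0 ≤ ∑ i ∈ range (e + 1), |(c r i : ℝ)| :=
                Finset.sum_nonneg fun i _ => abs_nonneg _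
              by_cases hW : Wt s r (m + 1) n ≤ K
              · rw [if_pos hW, abs_zero]
                positivity
              · rw [if_neg hW]
                have hW1 : (K : ℝ) + 1 ≤ (Wt s r (m + 1) n : ℝ) := by
                  have : K + 1 ≤ Wt s r (m + 1) n := by omega
                  exact_mod_cast this
                have hW2 : (m : ℝ) + 1 ≤ (Wt s r (m + 1) n : ℝ) := by
                  have := Wt_ge_left (s := s) (r := r) (x := m + 1) (n := n) hr.1 hr.2 (by omega) hn.1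
                  exact_mod_cast this
                have hW0 : (0 : ℝ) < (Wt s r (m + 1) n : ℝ) := by linarith
                rw [abs_div, abs_of_pos (show (0 : ℝ) < (Wt s r (m + 1) n : ℝ) ^ κ by positivity),
                  div_eq_mul_one_div]
                have e1 : ((K : ℝ) + 1) ^ (κ - 3) * ((m : ℝ) + 1) ^ 3 ≤ (Wt s r (m + 1) n : ℝ) ^ κ := by
                  calc ((K : ℝ) + 1) ^ (κ - 3) * ((m : ℝ) + 1) ^ 3
                      ≤ (Wt s r (m + 1) n : ℝ) ^ (κ - 3) * (Wt s r (m + 1) n : ℝ) ^ 3 := by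
                        gcongr
                    _ = (Wt s r (m + 1) n : ℝ) ^ κ := by
                        rw [← pow_add]
                        congr 1
                        omega
                exact mul_le_mul (Qr_up (by omega) hn.1)
                  (one_div_le_one_div_of_le (by positivity) e1) (by positivity) hq0
          _ = (∑ r ∈ Finset.Ico 1 s, ∑ i ∈ range (e + 1), |(c r i : ℝ)|) *
                (1 / (((K : ℝ) + 1) ^ (κ - 3) * ((m : ℝ) + 1) ^ 3)) := by rw [Finset.sum_mul]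
          _ ≤ _ := mul_le_mul_of_nonneg_right hC (by positivity)
      calc |∑ n ∈ Finset.Ico 1 (m + 1), ∑ r ∈ Finset.Ico 1 s,
            if Wt s r (m + 1) n ≤ K then 0 else
              Qr e c r (m + 1) n / (Wt s r (m + 1) n : ℝ) ^ κ|
          ≤ ∑ n ∈ Finset.Ico 1 (m + 1), C * (1 / (((K : ℝ) + 1) ^ (κ - 3) * ((m : ℝ) + 1) ^ 3)) :=
            (Finset.abs_sum_le_sum_abs _ _).trans (Finset.sum_le_sum hterm)
        _ = (m : ℝ) * (C * (1 / (((K : ℝ) + 1) ^ (κ - 3) * ((m : ℝ) + 1) ^ 3))) := by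
            rw [Finset.sum_const, Nat.card_Ico, nsmul_eq_mul]
            simp
        _ ≤ ((m : ℝ) + 1) * (C * (1 / (((K : ℝ) + 1) ^ (κ - 3) * ((m : ℝ) + 1) ^ 3))) :=
            mul_le_mul_of_nonneg_right (by linarith) (by positivity)
        _ = C / ((K : ℝ) + 1) ^ (κ - 3) / ((m : ℝ) + 1) ^ (0 + 2) := by
            field_simp
            ring)
  refine ⟨h.1, h.2.trans (le_of_eq ?_)⟩
  push_cast
  simp
  ring

/-- the small part of the series -/
lemma small_part (K : ℕ) (hT : ∀ M, M < K → Tm s e c M = 0) :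
    Summable (fun m : ℕ => ∑ n ∈ Finset.Ico 1 (m + 1), ∑ r ∈ Finset.Ico 1 s,
      if Wt s r (m + 1) n ≤ K then Qr e c r (m + 1) n / (Wt s r (m + 1) n : ℝ) ^ κ else 0) ∧
    ∑' m : ℕ, ∑ n ∈ Finset.Ico 1 (m + 1), ∑ r ∈ Finset.Ico 1 s,
      (if Wt s r (m + 1) n ≤ K then Qr e c r (m + 1) n / (Wt s r (m + 1) n : ℝ) ^ κ else 0) =
      Tm s e c K / (K : ℝ) ^ κ := by
  have hz : ∀ M, ∀ m : ℕ, m ∉ range M → ∑ n ∈ Finset.Ico 1 (m + 1), ∑ r ∈ Finset.Ico 1 s,
      (if Wt s r (m + 1) n = M then Qr e c r (m + 1) n else 0) = 0 := by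
    intro M m hm
    rw [Finset.mem_range] at hm
    refine Finset.sum_eq_zero fun n hn => Finset.sum_eq_zero fun r hr => ?_
    rw [Finset.mem_Ico] at hn hr
    have := Wt_ge_left (s := s) (r := r) (x := m + 1) (n := n) hr.1 hr.2 (by omega) hn.1
    rw [if_neg (by omega)]
  have hz' : ∀ m : ℕ, m ∉ range K → ∑ n ∈ Finset.Ico 1 (m + 1), ∑ r ∈ Finset.Ico 1 s,
      (if Wt s r (m + 1) n ≤ K then Qr e c r (m + 1) n / (Wt s r (m + 1) n : ℝ) ^ κ else 0) = 0 := by
    intro m hm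
    rw [Finset.mem_range] at hm
    refine Finset.sum_eq_zero fun n hn => Finset.sum_eq_zero fun r hr => ?_
    rw [Finset.mem_Ico] at hn hr
    have := Wt_ge_left (s := s) (r := r) (x := m + 1) (n := n) hr.1 hr.2 (by omega) hn.1
    rw [if_neg (by omega)]
  refine ⟨summable_of_ne_finset_zero hz', ?_⟩
  rw [tsum_eq_sum hz']
  have hTm : ∀ M, M ≤ K → Tm s e c M = ∑ m ∈ range K, ∑ n ∈ Finset.Ico 1 (m + 1),
      ∑ r ∈ Finset.Ico 1 s, (if Wt s r (m + 1) n = M then Qr e c r (m + 1) n else 0) := by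
    intro M hM
    unfold Tm
    refine Finset.sum_subset (Finset.range_mono hM) fun m _ hm => hz M m hm
  calc ∑ m ∈ range K, ∑ n ∈ Finset.Ico 1 (m + 1), ∑ r ∈ Finset.Ico 1 s,
      (if Wt s r (m + 1) n ≤ K then Qr e c r (m + 1) n / (Wt s r (m + 1) n : ℝ) ^ κ else 0)
      = ∑ m ∈ range K, ∑ n ∈ Finset.Ico 1 (m + 1), ∑ r ∈ Finset.Ico 1 s,
        ∑ M ∈ range (K + 1), (if Wt s r (m + 1) n = M then Qr e c r (m + 1) n else 0) /
          (M : ℝ) ^ κ := by
        refine Finset.sum_congr rfl fun m _ => Finset.sum_congr rfl fun n _ =>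
          Finset.sum_congr rfl fun r _ => ?_
        by_cases hW : Wt s r (m + 1) n ≤ K
        · rw [if_pos hW, Finset.sum_eq_single (Wt s r (m + 1) n)]
          · rw [if_pos rfl]
          · intro M _ hM
            rw [if_neg (Ne.symm hM), zero_div]
          · intro h
            exact absurd (Finset.mem_range.2 (by omega)) h
        · rw [if_neg hW]
          refine (Finset.sum_eq_zero fun M hM => ?_).symm
          rw [Finset.mem_range] at hM
          rw [if_neg (by omega), zero_div]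
    _ = ∑ M ∈ range (K + 1), (∑ m ∈ range K, ∑ n ∈ Finset.Ico 1 (m + 1), ∑ r ∈ Finset.Ico 1 s,
          (if Wt s r (m + 1) n = M then Qr e c r (m + 1) n else 0)) / (M : ℝ) ^ κ := by
        symm
        rw [Finset.sum_congr rfl fun M _ => by rw [Finset.sum_div]]
        rw [Finset.sum_comm]
        refine Finset.sum_congr rfl fun m _ => ?_
        rw [Finset.sum_congr rfl fun M _ => by rw [Finset.sum_div]]
        rw [Finset.sum_comm]
        refine Finset.sum_congr rfl fun n _ => ?_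
        rw [Finset.sum_congr rfl fun M _ => by rw [Finset.sum_div]]
        rw [Finset.sum_comm]
    _ = ∑ M ∈ range (K + 1), Tm s e c M / (M : ℝ) ^ κ := by
        refine Finset.sum_congr rfl fun M hM => ?_
        rw [Finset.mem_range] at hM
        rw [hTm M (by omega)]
    _ = Tm s e c K / (K : ℝ) ^ κ := by
        rw [Finset.sum_range_succ, Finset.sum_eq_zero, zero_add]
        intro M hM
        rw [Finset.mem_range] at hM
        rw [hT M hM, zero_div]

/-- the whole series -/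
lemma whole (hκ : 3 ≤ κ) (hC : ∑ r ∈ Finset.Ico 1 s, ∑ i ∈ range (e + 1), |(c r i : ℝ)| ≤ C)
    (K : ℕ) (hT : ∀ M, M < K → Tm s e c M = 0) :
    |∑ r ∈ Finset.Ico 1 s, ∑ i ∈ range (e + 1),
      (c r i : ℝ) * dz (r * κ + i) ((s - r) * κ + (e - i)) - Tm s e c K / (K : ℝ) ^ κ| ≤
      2 * C / ((K : ℝ) + 1) ^ (κ - 3) := by
  have h1 := large_part hκ hC K
  have h2 := small_part (κ := κ) K hT
  rw [sum_Q hκ]
  have h3 : ∑' m : ℕ, ∑ n ∈ Finset.Ico 1 (m + 1), ∑ r ∈ Finset.Ico 1 s,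
        Qr e c r (m + 1) n / (Wt s r (m + 1) n : ℝ) ^ κ =
      Tm s e c K / (K : ℝ) ^ κ + ∑' m : ℕ, ∑ n ∈ Finset.Ico 1 (m + 1), ∑ r ∈ Finset.Ico 1 s,
      (if Wt s r (m + 1) n ≤ K then 0 else Qr e c r (m + 1) n / (Wt s r (m + 1) n : ℝ) ^ κ) := by
    rw [← h2.2, ← h2.1.tsum_add h1.1]
    refine tsum_congr fun m => ?_
    rw [← Finset.sum_add_distrib]
    refine Finset.sum_congr rfl fun n _ => ?_
    rw [← Finset.sum_add_distrib]
    refine Finset.sum_congr rfl fun r _ => ?_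
    by_cases hW : Wt s r (m + 1) n ≤ K
    · rw [if_pos hW, if_pos hW, add_zero]
    · rw [if_neg hW, if_neg hW, zero_add]
  rw [h3, add_sub_cancel_left]
  exact h1.2

/-- `K ^ e T(K)` is an integer -/
lemma Tm_low {K : ℕ} (hK : 1 ≤ K) (h : Tm s e c K ≠ 0) : 1 / (K : ℝ) ^ e ≤ |Tm s e c K| := by
  have hK0 : (0 : ℝ) < K := by exact_mod_cast hK
  have hmem : (K : ℝ) ^ e * Tm s e c K ∈ (Int.castRingHom ℝ).range := by
    unfold Tm
    rw [Finset.mul_sum]
    refine sum_mem fun m _ => ?_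
    rw [Finset.mul_sum]
    refine sum_mem fun n hn => ?_
    rw [Finset.mul_sum]
    refine sum_mem fun r hr => ?_
    rw [Finset.mem_Ico] at hn hr
    by_cases hW : Wt s r (m + 1) n = K
    swap
    · rw [if_neg hW, mul_zero]
      exact zero_mem _
    rw [if_pos hW]
    unfold Qr
    rw [Finset.mul_sum]
    refine sum_mem fun i hi => ?_
    rw [Finset.mem_range] at hi
    obtain ⟨y1, hy1⟩ : (m + 1) ∣ K := by
      rw [← hW]
      exact Dvd.dvd.mul_right (dvd_pow_self _ (by omega)) _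
    obtain ⟨y2, hy2⟩ : n ∣ K := by
      rw [← hW]
      exact Dvd.dvd.mul_left (dvd_pow_self _ (by omega)) _
    have e1 : (K : ℝ) = ((m : ℝ) + 1) * y1 := by rw [hy1]; push_cast; ring
    have e2 : (K : ℝ) = (n : ℝ) * y2 := by rw [hy2]; push_cast; ring
    have hn0 : (n : ℝ) ≠ 0 := by
      have : n ≠ 0 := by omega
      exact_mod_cast this
    have hm0 : ((m : ℝ) + 1) ≠ 0 := by positivity
    refine ⟨c r i * (y1 : ℤ) ^ i * (y2 : ℤ) ^ (e - i), ?_⟩
    have e3 : (K : ℝ) ^ e = (K : ℝ) ^ i * (K : ℝ) ^ (e - i) := by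
      rw [← pow_add]
      congr 1
      omega
    have e4 : (K : ℝ) ^ i = ((m : ℝ) + 1) ^ i * (y1 : ℝ) ^ i := by rw [e1, mul_pow]
    have e5 : (K : ℝ) ^ (e - i) = (n : ℝ) ^ (e - i) * (y2 : ℝ) ^ (e - i) := by
      conv_lhs => rw [e2]
      rw [mul_pow]
    rw [e3, e4, e5]
    simp only [eq_intCast]
    push_cast
    field_simp
  obtain ⟨z, hz⟩ := hmem
  rw [eq_intCast] at hz
  have hz0 : z ≠ 0 := by
    intro h0
    rw [h0, Int.cast_zero] at hz
    rcases mul_eq_zero.1 hz.symm with h1 | h1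
    · exact absurd h1 (by positivity)
    · exact h h1
  have h1 : (1 : ℝ) ≤ |(z : ℝ)| := by
    have := Int.one_le_abs hz0
    exact_mod_cast this
  rw [hz, abs_mul, abs_of_pos (show (0 : ℝ) < (K : ℝ) ^ e by positivity)] at h1
  rw [div_le_iff₀ (by positivity), mul_comm]
  exact h1

lemma Tm_zero : Tm s e c 0 = 0 := by
  unfold Tm
  simp

lemma Tm_one (hs : 2 ≤ s) : Tm s e c 1 = 0 := by
  unfold Tm
  simp

/-- prime powers are represented once -/
lemma rep {ℓ r r' x n : ℕ} (hℓ : ℓ.Prime) (hr' : 1 ≤ r') (hrr : r ≤ r') (hrs : r' < s)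
    (hn : 1 ≤ n) (hnx : n < x) (h : Wt s r' x n = ℓ ^ r) : x = ℓ ∧ n = 1 ∧ r' = r := by
  unfold Wt at h
  obtain ⟨a, ha, rfl⟩ := (Nat.dvd_prime_pow hℓ).1
    (show x ∣ ℓ ^ r by rw [← h]; exact Dvd.dvd.mul_right (dvd_pow_self _ (by omega)) _)
  obtain ⟨b, hb, rfl⟩ := (Nat.dvd_prime_pow hℓ).1
    (show n ∣ ℓ ^ r by rw [← h]; exact Dvd.dvd.mul_left (dvd_pow_self _ (by omega)) _)
  rw [← pow_mul, ← pow_mul, ← pow_add] at h
  have h1 := Nat.pow_right_injective hℓ.two_le h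
  have ha1 : 1 ≤ a := by
    by_contra h2
    have : a = 0 := by omega
    rw [this, pow_zero] at hnx
    omega
  have h2 : r' ≤ a * r' := Nat.le_mul_of_pos_left r' ha1
  have h3 : r' = r := by
    have : a * r' ≤ r := by omega
    omega
  subst h3
  have h4 : a = 1 := by
    by_contra h5
    have h6 : 2 ≤ a := by omega
    have : 2 * r' ≤ a * r' := Nat.mul_le_mul_right r' h6
    omega
  subst h4
  have h5 : b * (s - r') = 0 := by omega
  have h6 : b = 0 := by
    rcases Nat.mul_eq_zero.1 h5 with h7 | h7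
    · exact h7
    · omega
  subst h6
  exact ⟨pow_one _, pow_zero _, rfl⟩

lemma Tm_prime {ℓ r : ℕ} (hℓ : ℓ.Prime) (hr : 1 ≤ r) (hrs : r < s)
    (hc : ∀ r', r' < r → ∀ i, c r' i = 0) : Tm s e c (ℓ ^ r) = Qr e c r ℓ 1 := by
  have h2 := hℓ.two_le
  have hz : ∀ m n r' : ℕ, 1 ≤ n → n < m + 1 → 1 ≤ r' → r' < s → ¬ (m + 1 = ℓ ∧ n = 1 ∧ r' = r) →
      (if Wt s r' (m + 1) n = ℓ ^ r then Qr e c r' (m + 1) n else 0) = 0 := by
    intro m n r' hn hnm hr' hrs' hne
    by_cases hrr : r ≤ r'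
    · rw [if_neg]
      intro hW
      exact hne (rep hℓ hr' hrr hrs' hn hnm hW)
    · have : Qr e c r' (m + 1) n = 0 := by
        unfold Qr
        refine Finset.sum_eq_zero fun i _ => ?_
        rw [hc r' (by omega) i]
        simp
      rw [this, ite_self]
  obtain ⟨y, hy⟩ := Nat.exists_eq_add_of_le' (show 1 ≤ ℓ by omega)
  unfold Tm
  rw [Finset.sum_eq_single y, Finset.sum_eq_single 1, Finset.sum_eq_single r]
  · rw [← hy, if_pos]
    unfold Wt
    rw [one_pow, mul_one]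
  · intro r' hr' hne
    rw [Finset.mem_Ico] at hr'
    exact hz _ _ _ le_rfl (by omega) hr'.1 hr'.2 (by tauto)
  · intro h
    exact absurd (Finset.mem_Ico.2 ⟨hr, hrs⟩) h
  · intro n hn hne
    rw [Finset.mem_Ico] at hn
    refine Finset.sum_eq_zero fun r' hr' => ?_
    rw [Finset.mem_Ico] at hr'
    exact hz _ _ _ hn.1 hn.2 hr'.1 hr'.2 (by tauto)
  · intro h
    exact absurd (Finset.mem_Ico.2 ⟨le_rfl, by omega⟩) h
  · intro m hm hne
    refine Finset.sum_eq_zero fun n hn => Finset.sum_eq_zero fun r' hr' => ?_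
    rw [Finset.mem_Ico] at hn hr'
    exact hz _ _ _ hn.1 hn.2 hr'.1 hr'.2 (by
      rintro ⟨h3, -, -⟩
      omega)
  · intro h
    refine absurd (Finset.mem_range.2 ?_) h
    calc y < ℓ := by omega
      _ ≤ ℓ ^ r := Nat.le_self_pow (by omega) ℓ

/-- a polynomial with integer coefficients and zeros `1 / ℓ` for many primes `ℓ` -/
lemma prime_test {c : ℕ → ℤ} {P : Finset ℕ} (hP : ∀ ℓ ∈ P, ℓ.Prime) {H : ℝ}
    (hH : ∀ i, i ≤ e → |(c i : ℝ)| ≤ H) (hc : ∃ i, i ≤ e ∧ c i ≠ 0)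
    (hPc : e < P.card ∨ H < (2 : ℝ) ^ P.card) :
    ∃ ℓ ∈ P, ∑ i ∈ range (e + 1), (c i : ℝ) * (1 / (ℓ : ℝ) ^ i) ≠ 0 := by
  classical
  by_contra hcon
  push_neg at hcon
  rcases hPc with hPc | hPc
  · -- too many zeros
    set p : Polynomial ℝ := ∑ j ∈ range (e + 1), Polynomial.C (c j : ℝ) * Polynomial.X ^ j with hp
    have hdeg : p.natDegree ≤ e := by
      rw [hp]
      refine Polynomial.natDegree_sum_le_of_forall_le _ _ fun j hj => ?_
      rw [Finset.mem_range] at hj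
      exact (Polynomial.natDegree_C_mul_X_pow_le _ _).trans (by omega)
    have hinj : Function.Injective fun x : ℕ => (1 : ℝ) / (x : ℝ) := by
      intro x y hxy
      simp only [one_div, inv_inj] at hxy
      exact_mod_cast hxy
    have hz : p = 0 := by
      refine Polynomial.eq_zero_of_natDegree_lt_card_of_eval_eq_zero' p
        (P.image fun x : ℕ => (1 : ℝ) / (x : ℝ)) ?_ ?_
      · intro x hx
        rw [Finset.mem_image] at hx
        obtain ⟨y, hy, rfl⟩ := hx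
        rw [hp, Polynomial.eval_finset_sum]
        simp only [Polynomial.eval_mul, Polynomial.eval_C, Polynomial.eval_pow, Polynomial.eval_X]
        rw [← hcon y hy]
        refine Finset.sum_congr rfl fun i _ => ?_
        rw [div_pow, one_pow]
      · rw [Finset.card_image_of_injective _ hinj]
        omega
    obtain ⟨i, hi, hci⟩ := hc
    apply hci
    have hcf : p.coeff i = (c i : ℝ) := by
      rw [hp, Polynomial.finset_sum_coeff]
      simp only [Polynomial.coeff_C_mul, Polynomial.coeff_X_pow]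
      rw [Finset.sum_eq_single i]
      · simp
      · intro j _ hij
        rw [if_neg (Ne.symm hij)]
        ring
      · intro hj'
        rw [Finset.mem_range] at hj'
        omega
    rw [hz, Polynomial.coeff_zero] at hcf
    exact_mod_cast hcf.symm
  · -- the last coefficient is divisible by the product of the primes
    obtain ⟨i, hi, hci⟩ := hc
    set S : Finset ℕ := (range (e + 1)).filter fun i => c i ≠ 0 with hS
    have hSne : S.Nonempty := ⟨i, by rw [hS, Finset.mem_filter, Finset.mem_range]; exact ⟨by omega, hci⟩⟩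
    set i0 := S.max' hSne with hi0
    have hi0S : i0 ∈ S := S.max'_mem hSne
    have hi0' : i0 < e + 1 ∧ c i0 ≠ 0 := by
      rw [hS, Finset.mem_filter, Finset.mem_range] at hi0S
      exact hi0S
    have hmax : ∀ j, j < e + 1 → i0 < j → c j = 0 := by
      intro j hj hij
      by_contra h1
      have h2 : j ∈ S := by
        rw [hS, Finset.mem_filter, Finset.mem_range]
        exact ⟨hj, h1⟩
      have := S.le_max' j h2
      omega
    have hdvd : ∀ ℓ ∈ P, (ℓ : ℤ) ∣ c i0 := by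
      intro ℓ hℓ
      have hp := hP ℓ hℓ
      have hℓ0 : (ℓ : ℝ) ≠ 0 := by exact_mod_cast hp.ne_zero
      have h1 := hcon ℓ hℓ
      have h2 : ∑ i ∈ range (i0 + 1), (c i : ℝ) * (1 / (ℓ : ℝ) ^ i) = 0 := by
        rw [← h1]
        refine Finset.sum_subset (Finset.range_mono (by omega)) fun j hj hj' => ?_
        rw [Finset.mem_range] at hj hj'
        rw [hmax j hj (by omega)]
        simp
      have h3 : ((∑ i ∈ range (i0 + 1), c i * (ℓ : ℤ) ^ (i0 - i) : ℤ) : ℝ) = 0 := by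
        push_cast
        have h4 : ∑ i ∈ range (i0 + 1), (c i : ℝ) * (ℓ : ℝ) ^ (i0 - i) =
            (ℓ : ℝ) ^ i0 * ∑ i ∈ range (i0 + 1), (c i : ℝ) * (1 / (ℓ : ℝ) ^ i) := by
          rw [Finset.mul_sum]
          refine Finset.sum_congr rfl fun i hi => ?_
          rw [Finset.mem_range] at hi
          have h5 : (ℓ : ℝ) ^ i0 = (ℓ : ℝ) ^ (i0 - i) * (ℓ : ℝ) ^ i := by
            rw [← pow_add]
            congr 1
            omega
          rw [h5]
          field_simp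
        rw [h4, h2, mul_zero]
      have h4 : ∑ i ∈ range (i0 + 1), c i * (ℓ : ℤ) ^ (i0 - i) = 0 := by exact_mod_cast h3
      rw [Finset.sum_range_succ, Nat.sub_self, pow_zero, mul_one] at h4
      have h5 : (ℓ : ℤ) ∣ ∑ i ∈ range i0, c i * (ℓ : ℤ) ^ (i0 - i) := by
        refine Finset.dvd_sum fun i hi => ?_
        rw [Finset.mem_range] at hi
        exact Dvd.dvd.mul_left (dvd_pow_self _ (by omega)) _
      have h6 : c i0 = -∑ i ∈ range i0, c i * (ℓ : ℤ) ^ (i0 - i) := by linarith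
      rw [h6]
      exact (dvd_neg).2 h5
    have hprod : (∏ ℓ ∈ P, ℓ) ∣ (c i0).natAbs := by
      refine Finset.prod_primes_dvd _ (fun ℓ hℓ => (hP ℓ hℓ).prime) fun ℓ hℓ => ?_
      exact Int.natCast_dvd.1 (hdvd ℓ hℓ)
    have hge : 2 ^ P.card ≤ (c i0).natAbs := by
      calc 2 ^ P.card = ∏ ℓ ∈ P, 2 := by rw [Finset.prod_const]
        _ ≤ ∏ ℓ ∈ P, ℓ := Finset.prod_le_prod (fun _ _ => by omega) fun ℓ hℓ => (hP ℓ hℓ).two_le
        _ ≤ (c i0).natAbs := Nat.le_of_dvd (Int.natAbs_pos.2 hi0'.2) hprod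
    have h7 : (2 : ℝ) ^ P.card ≤ |(c i0 : ℝ)| := by
      have h8 : ((2 ^ P.card : ℕ) : ℝ) ≤ ((c i0).natAbs : ℝ) := by exact_mod_cast hge
      rw [Nat.cast_natAbs] at h8
      push_cast at h8
      exact h8
    have h9 := hH i0 (by omega)
    linarith

/-- **the finite theorem** for the windows near the multiples of `k / s` -/
theorem rat_finite {P : Finset ℕ} {N B : ℕ} {H : ℝ} {d : ℤ} (hs : 2 ≤ s) (hκ : 3 ≤ κ)
    (hC : ∑ r ∈ Finset.Ico 1 s, ∑ i ∈ range (e + 1), |(c r i : ℝ)| ≤ C) (hC1 : 1 ≤ C)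
    (hH : ∀ r i, |(c r i : ℝ)| ≤ H)
    (hP : ∀ ℓ ∈ P, ℓ.Prime) (hPN : ∀ ℓ ∈ P, ℓ ≤ N) (hN : 1 ≤ N) (hB : B = N ^ (s - 1))
    (hPc : e < P.card ∨ H < (2 : ℝ) ^ P.card)
    (hcond : (8 * C * ((B : ℝ) + 1) ^ (e + 3)) ^ B ≤ (2 : ℝ) ^ κ)
    (hne : d ≠ 0 ∨ ∃ r ∈ Finset.Ico 1 s, ∃ i ∈ range (e + 1), c r i ≠ 0) :
    1 / (2 * (B : ℝ) ^ (κ + e)) ≤ |∑ r ∈ Finset.Ico 1 s, ∑ i ∈ range (e + 1),
      (c r i : ℝ) * dz (r * κ + i) ((s - r) * κ + (e - i)) + d * zt (s * κ + e)| := by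
  classical
  have hB1 : 1 ≤ B := by rw [hB]; exact Nat.one_le_pow _ _ hN
  have hBr : (1 : ℝ) ≤ B := by exact_mod_cast hB1
  have hbase : 8 * C * ((B : ℝ) + 1) ^ (e + 3) ≤ (2 : ℝ) ^ κ := by
    have hb : (1 : ℝ) ≤ 8 * C * ((B : ℝ) + 1) ^ (e + 3) := by
      have e1 : (1 : ℝ) ≤ ((B : ℝ) + 1) ^ (e + 3) := one_le_pow₀ (by linarith)
      nlinarith
    exact le_trans (le_self_pow₀ hb (by omega)) hcond
  by_cases hd : d = 0
  · rw [hd, Int.cast_zero, zero_mul, add_zero]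
    -- the first window with a coefficient
    have hex : ∃ r, (1 ≤ r ∧ r < s) ∧ ∃ i, i ≤ e ∧ c r i ≠ 0 := by
      rcases hne with h1 | ⟨r, hr, i, hi, h1⟩
      · exact absurd hd h1
      · rw [Finset.mem_Ico] at hr
        rw [Finset.mem_range] at hi
        exact ⟨r, hr, i, by omega, h1⟩
    -- we may assume that the other coefficients vanish
    set c1 : ℕ → ℕ → ℤ := fun r i => if 1 ≤ r ∧ r < s ∧ i ≤ e then c r i else 0 with hc1
    have hcc : ∀ r ∈ Finset.Ico 1 s, ∀ i ∈ range (e + 1), c1 r i = c r i := by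
      intro r hr i hi
      rw [Finset.mem_Ico] at hr
      rw [Finset.mem_range] at hi
      rw [hc1]
      simp only
      rw [if_pos ⟨hr.1, hr.2, by omega⟩]
    have hsum : ∑ r ∈ Finset.Ico 1 s, ∑ i ∈ range (e + 1),
        (c r i : ℝ) * dz (r * κ + i) ((s - r) * κ + (e - i)) =
        ∑ r ∈ Finset.Ico 1 s, ∑ i ∈ range (e + 1),
        (c1 r i : ℝ) * dz (r * κ + i) ((s - r) * κ + (e - i)) :=
      Finset.sum_congr rfl fun r hr => Finset.sum_congr rfl fun i hi => by rw [hcc r hr i hi]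
    have hC' : ∑ r ∈ Finset.Ico 1 s, ∑ i ∈ range (e + 1), |(c1 r i : ℝ)| ≤ C := by
      refine le_trans (le_of_eq ?_) hC
      exact Finset.sum_congr rfl fun r hr => Finset.sum_congr rfl fun i hi => by rw [hcc r hr i hi]
    rw [hsum]
    have hex1 : ∃ r, (1 ≤ r ∧ r < s) ∧ ∃ i, i ≤ e ∧ c1 r i ≠ 0 := by
      obtain ⟨r, hr, i, hi, h1⟩ := hex
      refine ⟨r, hr, i, hi, ?_⟩
      rw [hcc r (Finset.mem_Ico.2 hr) i (Finset.mem_range.2 (by omega))]
      exact h1
    set r0 := Nat.find hex1 with hr0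
    obtain ⟨⟨hr1, hrs⟩, hcr⟩ := Nat.find_spec hex1
    rw [← hr0] at hr1 hrs hcr
    have hlt : ∀ r', r' < r0 → ∀ i, c1 r' i = 0 := by
      intro r' hr' i
      by_contra h1
      have h2 : 1 ≤ r' ∧ r' < s ∧ i ≤ e := by
        by_contra h3
        apply h1
        rw [hc1]
        simp only
        rw [if_neg h3]
      exact Nat.find_min hex1 hr' ⟨⟨h2.1, h2.2.1⟩, i, h2.2.2, h1⟩
    obtain ⟨ℓ, hℓP, hℓ⟩ := prime_test (c := c1 r0) (e := e) hP (H := H) (fun i hi => by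
      rw [hcc r0 (Finset.mem_Ico.2 ⟨hr1, hrs⟩) i (Finset.mem_range.2 (by omega))]
      exact hH r0 i) hcr hPc
    have hTℓ : Tm s e c1 (ℓ ^ r0) ≠ 0 := by
      rw [Tm_prime (hP ℓ hℓP) hr1 hrs hlt]
      unfold Qr
      intro h0
      apply hℓ
      rw [← h0]
      refine Finset.sum_congr rfl fun i _ => ?_
      simp
    have hexM : ∃ M, Tm s e c1 M ≠ 0 := ⟨_, hTℓ⟩
    set K := Nat.find hexM with hKdef
    have hTK : Tm s e c1 K ≠ 0 := Nat.find_spec hexM
    have hTlt : ∀ M, M < K → Tm s e c1 M = 0 := by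
      intro M hM
      by_contra h1
      exact Nat.find_min hexM hM h1
    have hK1 : 1 ≤ K := by
      by_contra h1
      have : K = 0 := by omega
      rw [this] at hTK
      exact hTK Tm_zero
    have hKB : K ≤ B := by
      calc K ≤ ℓ ^ r0 := Nat.find_min' hexM hTℓ
        _ ≤ N ^ r0 := Nat.pow_le_pow_left (hPN ℓ hℓP) _
        _ ≤ N ^ (s - 1) := Nat.pow_le_pow_right hN (by omega)
        _ = B := hB.symm
    have hw := whole hκ hC' K hTlt
    have hlow := Tm_low hK1 hTK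
    have hsucc := succ_pow (n := K) (N := B) (e := κ) hK1 hKB (by positivity) hcond
    have hK0 : (0 : ℝ) < K := by exact_mod_cast hK1
    have hKB' : (K : ℝ) ≤ B := by exact_mod_cast hKB
    -- numbers
    have h1 : 2 * C / ((K : ℝ) + 1) ^ (κ - 3) ≤ 1 / (4 * (K : ℝ) ^ (κ + e)) := by
      rw [div_le_div_iff₀ (by positivity) (by positivity)]
      have hpos : (0 : ℝ) < ((K : ℝ) + 1) ^ 3 := by positivity
      rw [← mul_le_mul_iff_of_pos_right hpos]
      have e4 : ((K : ℝ) + 1) ^ (κ - 3) * ((K : ℝ) + 1) ^ 3 = ((K : ℝ) + 1) ^ κ := by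
        rw [← pow_add]
        congr 1
        omega
      have e5 : (K : ℝ) ^ e * ((K : ℝ) + 1) ^ 3 ≤ ((B : ℝ) + 1) ^ (e + 3) := by
        rw [pow_add]
        have : (K : ℝ) ≤ (B : ℝ) + 1 := by linarith
        gcongr
      calc 2 * C * (4 * (K : ℝ) ^ (κ + e)) * ((K : ℝ) + 1) ^ 3
          = 8 * C * ((K : ℝ) ^ e * ((K : ℝ) + 1) ^ 3) * (K : ℝ) ^ κ := by
            rw [pow_add]
            ring
        _ ≤ 8 * C * ((B : ℝ) + 1) ^ (e + 3) * (K : ℝ) ^ κ := by
            refine mul_le_mul_of_nonneg_right ?_ (by positivity)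
            exact mul_le_mul_of_nonneg_left e5 (by positivity)
        _ ≤ ((K : ℝ) + 1) ^ κ := hsucc
        _ = 1 * ((K : ℝ) + 1) ^ (κ - 3) * ((K : ℝ) + 1) ^ 3 := by rw [one_mul, e4]
    have h2 : 1 / (K : ℝ) ^ (κ + e) ≤ |Tm s e c1 K / (K : ℝ) ^ κ| := by
      rw [abs_div, abs_of_pos (show (0 : ℝ) < (K : ℝ) ^ κ by positivity),
        div_le_div_iff₀ (by positivity) (by positivity), one_mul]
      rw [div_le_iff₀ (by positivity)] at hlow
      calc (K : ℝ) ^ κ = 1 * (K : ℝ) ^ κ := by ring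
        _ ≤ |Tm s e c1 K| * (K : ℝ) ^ e * (K : ℝ) ^ κ := mul_le_mul_of_nonneg_right hlow (by positivity)
        _ = |Tm s e c1 K| * (K : ℝ) ^ (κ + e) := by rw [pow_add]; ring
    have h3 : 1 / (4 * (K : ℝ) ^ (κ + e)) = 1 / (K : ℝ) ^ (κ + e) / 4 := by
      rw [div_div]
      congr 1
      ring
    have h4 : 1 / (2 * (K : ℝ) ^ (κ + e)) = 1 / (K : ℝ) ^ (κ + e) / 2 := by
      rw [div_div]
      congr 1
      ring
    have h5 : 0 < 1 / (K : ℝ) ^ (κ + e) := by positivity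
    have h6 : 1 / (2 * (B : ℝ) ^ (κ + e)) ≤ 1 / (2 * (K : ℝ) ^ (κ + e)) :=
      one_div_le_one_div_of_le (by positivity) (by gcongr)
    refine h6.trans ?_
    rw [h4]
    have h7 := abs_sub_abs_le_abs_sub (Tm s e c1 K / (K : ℝ) ^ κ)
      (∑ r ∈ Finset.Ico 1 s, ∑ i ∈ range (e + 1),
      (c1 r i : ℝ) * dz (r * κ + i) ((s - r) * κ + (e - i)))
    rw [abs_sub_comm] at h7
    linarith
  · -- `d ≠ 0`
    have hw := whole (c := c) hκ hC 1 (fun M hM => by
      have : M = 0 := by omega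
      rw [this]
      exact Tm_zero)
    rw [Tm_one hs, zero_div, sub_zero] at hw
    have hz : 1 ≤ |(d : ℝ) * zt (s * κ + e)| := by
      rw [abs_mul]
      have h1 : (1 : ℝ) ≤ |(d : ℝ)| := by
        have := Int.one_le_abs hd
        exact_mod_cast this
      have h2 := zt_ge (k := s * κ + e) (by nlinarith)
      rw [abs_of_nonneg (show (0 : ℝ) ≤ zt (s * κ + e) by linarith)]
      nlinarith
    have h1 : 2 * C / (((1 : ℕ) : ℝ) + 1) ^ (κ - 3) ≤ 1 / 4 := by
      rw [div_le_div_iff₀ (by positivity) (by norm_num)]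
      have hpos : (0 : ℝ) < 2 ^ 3 := by positivity
      rw [← mul_le_mul_iff_of_pos_right hpos]
      have e4 : (((1 : ℕ) : ℝ) + 1) ^ (κ - 3) * 2 ^ 3 = 2 ^ κ := by
        rw [show ((1 : ℕ) : ℝ) + 1 = 2 by norm_num, ← pow_add]
        congr 1
        omega
      rw [mul_assoc 1, e4, one_mul]
      have e5 : (8 : ℝ) ≤ ((B : ℝ) + 1) ^ (e + 3) := by
        calc (8 : ℝ) = 2 ^ 3 := by norm_num
          _ ≤ ((B : ℝ) + 1) ^ 3 := by
            have : (2 : ℝ) ≤ (B : ℝ) + 1 := by linarith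
            gcongr
          _ ≤ ((B : ℝ) + 1) ^ (e + 3) := pow_le_pow_right₀ (by linarith) (by omega)
      calc 2 * C * 4 * 2 ^ 3 = 8 * C * 8 := by ring
        _ ≤ 8 * C * ((B : ℝ) + 1) ^ (e + 3) := mul_le_mul_of_nonneg_left e5 (by positivity)
        _ ≤ 2 ^ κ := hbase
    have h2 : 1 / (2 * (B : ℝ) ^ (κ + e)) ≤ 1 / 2 := by
      refine one_div_le_one_div_of_le (by norm_num) ?_
      have : (1 : ℝ) ≤ (B : ℝ) ^ (κ + e) := one_le_pow₀ hBr
      linarith
    refine h2.trans ?_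
    rw [add_comm]
    have t1 := abs_sub_abs_le_abs_add ((d : ℝ) * zt (s * κ + e))
      (∑ r ∈ Finset.Ico 1 s, ∑ i ∈ range (e + 1),
        (c r i : ℝ) * dz (r * κ + i) ((s - r) * κ + (e - i)))
    linarith

end

end Run7.h776.DZW
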