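import Pool.Agent.Run7.h776.DZW.Rat

/-!
# Two-sided bounds
-/

set_option autoImplicit false

namespace Run7.h776.DZW

open Finset

/-- the conditions on the parameters -/
structure Par2 (p D L N : ℕ) (C : ℝ) : Prop where
  hp : 4 ≤ p
  hD : L + 4 ≤ D
  hN : 1 ≤ N
  hC1 : 1 ≤ C
  h1 : (64 * C * ((N : ℝ) + 1) ^ (L + 4)) ^ N ≤ (2 : ℝ) ^ D
  h2 : (64 * C * ((N : ℝ) + 1) ^ (L + D + 4)) ^ N ≤ (2 : ℝ) ^ p

section

variable {p D L N : ℕ} {c c' : ℕ → ℤ} {d : ℤ} {C : ℝ}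

lemma Par2.D_ge (h : Par2 p D L N C) : 64 * C * ((N : ℝ) + 1) ^ (L + 4) ≤ (2 : ℝ) ^ D := by
  have h1 := h.h1
  have hN : 1 ≤ N := h.hN
  have hb : (1 : ℝ) ≤ 64 * C * ((N : ℝ) + 1) ^ (L + 4) := by
    have e1 : (1 : ℝ) ≤ ((N : ℝ) + 1) ^ (L + 4) := one_le_pow₀ (by linarith [Nat.cast_nonneg (α := ℝ) N])
    have e2 := h.hC1
    nlinarith
  refine le_trans ?_ h1
  exact le_self_pow₀ hb (by omega)

lemma Par2.p_ge (h : Par2 p D L N C) : 64 * C * ((N : ℝ) + 1) ^ (L + D + 4) ≤ (2 : ℝ) ^ p := by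
  have h1 := h.h2
  have hN : 1 ≤ N := h.hN
  have hb : (1 : ℝ) ≤ 64 * C * ((N : ℝ) + 1) ^ (L + D + 4) := by
    have e1 : (1 : ℝ) ≤ ((N : ℝ) + 1) ^ (L + D + 4) :=
      one_le_pow₀ (by linarith [Nat.cast_nonneg (α := ℝ) N])
    have e2 := h.hC1
    nlinarith
  refine le_trans ?_ h1
  exact le_self_pow₀ hb (by omega)

/-- the rows of `G` are small -/
lemma G_small2 (h : Par2 p D L N C) (hC : Bd L c C) :
    Summable (fun m : ℕ => ∑ n ∈ Finset.Ico 1 (m + 1), G p D L c (m + 1) n) ∧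
    |∑' m : ℕ, ∑ n ∈ Finset.Ico 1 (m + 1), G p D L c (m + 1) n| ≤ 16 * C / 2 ^ p := by
  have hD : L ≤ D := by have := h.hD; omega
  have hC0 : 0 ≤ C := by linarith [h.hC1]
  have h1 := sumG (m1 := 1) (f := fun m => ∑ n ∈ Finset.Ico 1 (m + 1), G p D L c (m + 1) n)
    hD h.hp hC0 hC (fun m hm => by
      have : m = 0 := by omega
      subst this
      simp) (fun m _ => rfl)
  refine ⟨h1.1, h1.2.trans (le_of_eq ?_)⟩
  obtain ⟨r, hr⟩ := Nat.exists_eq_add_of_le' (show 3 ≤ p by have := h.hp; omega)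
  rw [hr, show r + 3 - 3 = r by omega, pow_add]
  push_cast
  norm_num
  field_simp
  norm_num
  ring

/-- some `G(x, 1)` is not zero -/
lemma hexG {P : Finset ℕ} {H0 : ℝ} (hD : L ≤ D) (hP : ∀ ℓ ∈ P, ℓ.Prime) (hPN : ∀ ℓ ∈ P, ℓ ≤ N)
    (hH : ∀ j, j ≤ L → |(c j : ℝ)| ≤ H0) (hPc : L < P.card ∨ H0 < (2 : ℝ) ^ P.card)
    (hne : ∃ j, j ≤ L ∧ c j ≠ 0) : ∃ x : ℕ, 2 ≤ x ∧ x ≤ N ∧ G p D L c x 1 ≠ 0 := by
  obtain ⟨ℓ, hℓP, hℓ⟩ := prime_test hP hH hne hPc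
  have h2 := (hP ℓ hℓP).two_le
  refine ⟨ℓ, h2, hPN ℓ hℓP, fun h0 => hℓ ?_⟩
  have hℓ0 : (0 : ℝ) < ℓ := by exact_mod_cast (show 0 < ℓ by omega)
  rw [G_one hD (by omega), div_eq_zero_iff] at h0
  rcases h0 with h0 | h0
  · have e1 : ∑ i ∈ range (L + 1), (c i : ℝ) * (1 / (ℓ : ℝ) ^ i) =
        (∑ j ∈ range (L + 1), (c j : ℝ) * (ℓ : ℝ) ^ (L - j)) / (ℓ : ℝ) ^ L := by
      rw [Finset.sum_div]
      refine Finset.sum_congr rfl fun i hi => ?_
      rw [Finset.mem_range] at hi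
      have e2 : (ℓ : ℝ) ^ L = (ℓ : ℝ) ^ (L - i) * (ℓ : ℝ) ^ i := by
        rw [← pow_add]
        congr 1
        omega
      rw [e2]
      field_simp
    rw [e1, h0, zero_div]
  · exact absurd h0 (by positivity)

/-- some `H(x, 1)` is not zero -/
lemma hexH {P : Finset ℕ} {H0 : ℝ} (hD : L ≤ D) (hP : ∀ ℓ ∈ P, ℓ.Prime) (hPN : ∀ ℓ ∈ P, ℓ ≤ N)
    (hH : ∀ j, j ≤ L → |(c j : ℝ)| ≤ H0) (hPc : L < P.card ∨ H0 < (2 : ℝ) ^ P.card)
    (hne : ∃ j, j ≤ L ∧ c j ≠ 0) : ∃ x : ℕ, 2 ≤ x ∧ x ≤ N ∧ H p D L c x 1 ≠ 0 := by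
  obtain ⟨j, hj, hcj⟩ := hne
  obtain ⟨ℓ, hℓP, hℓ⟩ := prime_test (c := fun i => c (L - i)) hP
    (fun i _ => hH (L - i) (by omega)) ⟨L - j, by omega, by
      rw [show L - (L - j) = j by omega]
      exact hcj⟩ hPc
  have h2 := (hP ℓ hℓP).two_le
  refine ⟨ℓ, h2, hPN ℓ hℓP, fun h0 => hℓ ?_⟩
  have hℓ0 : (0 : ℝ) < ℓ := by exact_mod_cast (show 0 < ℓ by omega)
  rw [H_one hD (by omega), div_eq_zero_iff] at h0
  rcases h0 with h0 | h0
  · have e1 : ∑ i ∈ range (L + 1), (c (L - i) : ℝ) * (1 / (ℓ : ℝ) ^ i) =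
        (∑ j ∈ range (L + 1), (c j : ℝ) * (ℓ : ℝ) ^ j) / (ℓ : ℝ) ^ L := by
      rw [← Finset.sum_range_reflect (fun j => (c j : ℝ) * (ℓ : ℝ) ^ j), Finset.sum_div]
      refine Finset.sum_congr rfl fun i hi => ?_
      rw [Finset.mem_range] at hi
      have e0 : L + 1 - 1 - i = L - i := by omega
      have e2 : (ℓ : ℝ) ^ L = (ℓ : ℝ) ^ (L - i) * (ℓ : ℝ) ^ i := by
        rw [← pow_add]
        congr 1
        omega
      rw [e0, e2]
      field_simp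
    rw [e1, h0, zero_div]
  · exact absurd h0 (by positivity)

/-- the case of the `ζ(p + j, D - j)` alone: both bounds -/
lemma caseG' (h : Par2 p D L N C) (hC : Bd L c C)
    (hne : ∃ x : ℕ, 2 ≤ x ∧ x ≤ N ∧ G p D L c x 1 ≠ 0) :
    ∃ x0 n0 : ℕ, 1 ≤ n0 ∧ n0 < x0 ∧ x0 ≤ N ∧
      1 / ((x0 : ℝ) ^ (p + L) * (n0 : ℝ) ^ D) / 2 ≤
        |∑' m : ℕ, ∑ n ∈ Finset.Ico 1 (m + 1), G p D L c (m + 1) n| ∧
      |∑' m : ℕ, ∑ n ∈ Finset.Ico 1 (m + 1), G p D L c (m + 1) n| ≤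
        2 * C / ((x0 : ℝ) ^ p * (n0 : ℝ) ^ D) := by
  classical
  have hD : L ≤ D := by have := h.hD; omega
  have hC0 : 0 ≤ C := by linarith [h.hC1]
  -- the first term
  have hex : ∃ x : ℕ, ∃ n : ℕ, 1 ≤ n ∧ n < x ∧ x ≤ N ∧ G p D L c x n ≠ 0 := by
    obtain ⟨x, hx, hxN, hG⟩ := hne
    exact ⟨x, 1, le_rfl, by omega, hxN, hG⟩
  set x0 := Nat.find hex with hx0
  have hx0s := Nat.find_spec hex
  rw [← hx0] at hx0s
  set n0 := Nat.find hx0s with hn0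
  obtain ⟨hn1, hnx, hxN, hG⟩ := Nat.find_spec hx0s
  rw [← hn0] at hn1 hnx hG
  have hmin : ∀ x n : ℕ, 1 ≤ n → n < x → x < x0 → G p D L c x n = 0 := by
    intro x n h1 h2 h3
    by_contra h4
    exact Nat.find_min hex h3 ⟨n, h1, h2, by omega, h4⟩
  have hmin' : ∀ n : ℕ, 1 ≤ n → n < n0 → G p D L c x0 n = 0 := by
    intro n h1 h2
    by_contra h4
    exact Nat.find_min hx0s h2 ⟨h1, by omega, hxN, h4⟩
  obtain ⟨y, hy⟩ := Nat.exists_eq_add_of_le' (show 1 ≤ x0 by omega)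
  -- x0 = y + 1
  set f : ℕ → ℝ := fun m => ∑ n ∈ Finset.Ico 1 (m + 1), G p D L c (m + 1) n with hf
  have hf0 : ∀ m, m < y → f m = 0 := by
    intro m hm
    rw [hf]
    refine Finset.sum_eq_zero fun n hn => ?_
    rw [Finset.mem_Ico] at hn
    exact hmin _ _ hn.1 (by omega) (by omega)
  have hfs : Summable f := (sumG hD h.hp hC0 hC (m1 := 0) (f := f) (fun m hm => absurd hm (by omega))
    fun m _ => rfl).1
  have hfy : f y = G p D L c x0 n0 + ∑ n ∈ Finset.Ico (n0 + 1) (y + 1), G p D L c (y + 1) n := by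
    rw [hf]
    simp only
    rw [← Finset.sum_Ico_consecutive _ (show 1 ≤ n0 by omega) (show n0 ≤ y + 1 by omega),
      Finset.sum_eq_zero (s := Finset.Ico 1 n0), zero_add,
      Finset.sum_eq_sum_Ico_succ_bot (show n0 < y + 1 by omega), ← hy]
    intro n hn
    rw [Finset.mem_Ico] at hn
    rw [← hy]
    exact hmin' n hn.1 hn.2
  -- the rest
  set g : ℕ → ℝ := fun m => if m ≤ y then 0 else f m with hg
  have hgb := sumG (m1 := y + 1) (f := g) hD h.hp hC0 hC (fun m hm => by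
    rw [hg]; simp only; rw [if_pos (by omega)]) (fun m hm => by
    rw [hg]; simp only; rw [if_neg (by omega)])
  have hsum : ∑' m, f m = f y + ∑' m, g m := by
    have e1 : f = fun m => (if m = y then f y else 0) + g m := by
      funext m
      rw [hg]
      simp only
      rcases lt_trichotomy m y with hm | hm | hm
      · rw [hf0 m hm, if_neg (by omega), if_pos (by omega)]
        ring
      · rw [if_pos hm, if_pos (by omega), hm]
        ring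
      · rw [if_neg (by omega), if_neg (by omega)]
        ring
    have hs1 : Summable fun m : ℕ => (if m = y then f y else 0) :=
      summable_of_finite_support (Set.Finite.subset (Set.finite_singleton y) fun m hm => by
        by_contra h'
        apply hm
        simp only [Set.mem_singleton_iff] at h'
        simp [h'])
    conv_lhs => rw [e1]
    rw [hs1.tsum_add hgb.1, tsum_ite_eq]
  rw [hsum, hfy]
  have hrow := rowG (p := p) (m := y) (a := n0 + 1) hD hC0 hC (by omega)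
  have hlow := G_low (p := p) hD (show 1 ≤ x0 by omega) hn1 hG
  -- numbers
  have hX : ((x0 : ℕ) : ℝ) = (y : ℝ) + 1 := by rw [hy]; push_cast; ring
  have hx0p : (0 : ℝ) < (x0 : ℝ) := by exact_mod_cast (show 0 < x0 by omega)
  have hn0p : (0 : ℝ) < (n0 : ℝ) := by exact_mod_cast (show 0 < n0 by omega)
  have hNp : (0 : ℝ) < (N : ℝ) := by exact_mod_cast (show 0 < N by omega)
  have hxN' : (x0 : ℝ) ≤ N := by exact_mod_cast hxN
  have hnN' : (n0 : ℝ) ≤ N := by exact_mod_cast (show n0 ≤ N by omega)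
  have hA := succ_pow (n := n0) (N := N) (e := D) (by omega) (by omega) (by positivity) h.h1
  have hB := succ_pow (n := x0) (N := N) (e := p) (by omega) (by omega) (by positivity) h.h2
  set V : ℝ := 1 / ((x0 : ℝ) ^ (p + L) * (n0 : ℝ) ^ D) with hV
  have hVp : 0 < V := by positivity
  -- the row
  have hr1 : C * ((y : ℝ) + 1) / (((y : ℝ) + 1) ^ p * (((n0 + 1 : ℕ) : ℝ)) ^ D) ≤ V / 4 := by
    rw [← hX, hV, div_div, div_le_div_iff₀ (by positivity) (by positivity)]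
    push_cast
    have e1 : (x0 : ℝ) ^ (L + 1) ≤ ((N : ℝ) + 1) ^ (L + 4) := by
      calc (x0 : ℝ) ^ (L + 1) ≤ ((N : ℝ) + 1) ^ (L + 1) := by
            have : (x0 : ℝ) ≤ (N : ℝ) + 1 := by linarith
            gcongr
        _ ≤ ((N : ℝ) + 1) ^ (L + 4) := pow_le_pow_right₀ (by linarith) (by omega)
    calc C * (x0 : ℝ) * ((x0 : ℝ) ^ (p + L) * (n0 : ℝ) ^ D * 4)
        = (x0 : ℝ) ^ p * (4 * C * (x0 : ℝ) ^ (L + 1) * (n0 : ℝ) ^ D) := by ring
      _ ≤ (x0 : ℝ) ^ p * (64 * C * ((N : ℝ) + 1) ^ (L + 4) * (n0 : ℝ) ^ D) := by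
          refine mul_le_mul_of_nonneg_left ?_ (by positivity)
          refine mul_le_mul_of_nonneg_right ?_ (by positivity)
          have : 4 * C * (x0 : ℝ) ^ (L + 1) ≤ 64 * C * (x0 : ℝ) ^ (L + 1) := by
            have : 0 ≤ C * (x0 : ℝ) ^ (L + 1) := by positivity
            nlinarith
          refine this.trans ?_
          exact mul_le_mul_of_nonneg_left e1 (by positivity)
      _ ≤ (x0 : ℝ) ^ p * (((n0 : ℝ) + 1) ^ D) := mul_le_mul_of_nonneg_left hA (by positivity)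
      _ = 1 * ((x0 : ℝ) ^ p * ((n0 : ℝ) + 1) ^ D) := by ring
  -- the later rows
  have hr2 : 2 * C / (((y + 1 : ℕ) : ℝ) + 1) ^ (p - 3) ≤ V / 4 := by
    have hy1 : ((y + 1 : ℕ) : ℝ) = (x0 : ℝ) := by rw [hX]; push_cast; ring
    obtain ⟨r, hr⟩ := Nat.exists_eq_add_of_le' (show 3 ≤ p by have := h.hp; omega)
    rw [hy1, hV, div_div, div_le_div_iff₀ (by positivity) (by positivity)]
    have e0 : (x0 : ℝ) + 1 ≤ (N : ℝ) + 1 := by linarith
    have e3 : p - 3 = r := by omega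
    rw [e3]
    have hpos : (0 : ℝ) < ((x0 : ℝ) + 1) ^ 3 := by positivity
    rw [← mul_le_mul_iff_of_pos_right hpos]
    have e4 : ((x0 : ℝ) + 1) ^ r * ((x0 : ℝ) + 1) ^ 3 = ((x0 : ℝ) + 1) ^ p := by
      rw [← pow_add, hr]
    have e5 : (x0 : ℝ) ^ L * (n0 : ℝ) ^ D * ((x0 : ℝ) + 1) ^ 3 ≤ ((N : ℝ) + 1) ^ (L + D + 4) := by
      calc (x0 : ℝ) ^ L * (n0 : ℝ) ^ D * ((x0 : ℝ) + 1) ^ 3
          ≤ ((N : ℝ) + 1) ^ L * ((N : ℝ) + 1) ^ D * ((N : ℝ) + 1) ^ 3 := by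
            have a1 : (x0 : ℝ) ≤ (N : ℝ) + 1 := by linarith
            have a2 : (n0 : ℝ) ≤ (N : ℝ) + 1 := by linarith
            gcongr
        _ = ((N : ℝ) + 1) ^ (L + D + 3) := by rw [← pow_add, ← pow_add]
        _ ≤ _ := pow_le_pow_right₀ (by linarith) (by omega)
    calc 2 * C * ((x0 : ℝ) ^ (p + L) * (n0 : ℝ) ^ D * 4) * ((x0 : ℝ) + 1) ^ 3
        = (8 * C * ((x0 : ℝ) ^ L * (n0 : ℝ) ^ D * ((x0 : ℝ) + 1) ^ 3)) * (x0 : ℝ) ^ p := by ring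
      _ ≤ (64 * C * ((N : ℝ) + 1) ^ (L + D + 4)) * (x0 : ℝ) ^ p := by
          refine mul_le_mul_of_nonneg_right ?_ (by positivity)
          have b1 : 0 ≤ C * ((x0 : ℝ) ^ L * (n0 : ℝ) ^ D * ((x0 : ℝ) + 1) ^ 3) := by positivity
          calc 8 * C * ((x0 : ℝ) ^ L * (n0 : ℝ) ^ D * ((x0 : ℝ) + 1) ^ 3)
              ≤ 64 * C * ((x0 : ℝ) ^ L * (n0 : ℝ) ^ D * ((x0 : ℝ) + 1) ^ 3) := by nlinarith
            _ ≤ _ := mul_le_mul_of_nonneg_left e5 (by positivity)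
      _ ≤ ((x0 : ℝ) + 1) ^ p := hB
      _ = 1 * ((x0 : ℝ) + 1) ^ r * ((x0 : ℝ) + 1) ^ 3 := by rw [one_mul, e4]
  have hup := G_up (p := p) (c := c) hD hC hn1 hnx.le
  have hVU : V ≤ C / ((x0 : ℝ) ^ p * (n0 : ℝ) ^ D) := hlow.trans hup
  refine ⟨x0, n0, hn1, hnx, hxN, ?_, ?_⟩
  · have t1 := abs_sub_abs_le_abs_add (G p D L c x0 n0)
      (∑ n ∈ Finset.Ico (n0 + 1) (y + 1), G p D L c (y + 1) n + ∑' m, g m)
    have t2 := abs_add_le (∑ n ∈ Finset.Ico (n0 + 1) (y + 1), G p D L c (y + 1) n) (∑' m, g m)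
    rw [← add_assoc] at t1
    have t3 := hrow.trans hr1
    have t4 := hgb.2.trans hr2
    rw [← hV]
    linarith
  · have t1 := abs_add_le (G p D L c x0 n0)
      (∑ n ∈ Finset.Ico (n0 + 1) (y + 1), G p D L c (y + 1) n + ∑' m, g m)
    have t2 := abs_add_le (∑ n ∈ Finset.Ico (n0 + 1) (y + 1), G p D L c (y + 1) n) (∑' m, g m)
    rw [← add_assoc] at t1
    have t3 := hrow.trans hr1
    have t4 := hgb.2.trans hr2
    have t5 : 2 * C / ((x0 : ℝ) ^ p * (n0 : ℝ) ^ D) =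
        C / ((x0 : ℝ) ^ p * (n0 : ℝ) ^ D) + C / ((x0 : ℝ) ^ p * (n0 : ℝ) ^ D) := by ring
    rw [t5]
    linarith

/-- the case where some `ζ(D - j, p + j)` occurs -/
lemma caseH' (h : Par2 p D L N C) (hC : Bd L c C) (hC' : Bd L c' C)
    (hex : ∃ x : ℕ, 2 ≤ x ∧ x ≤ N ∧ H p D L c' x 1 ≠ 0) :
    1 / (2 * (N : ℝ) ^ D) ≤
      |∑' m : ℕ, ∑ n ∈ Finset.Ico 1 (m + 1), G p D L c (m + 1) n +
        ∑' m : ℕ, ∑ n ∈ Finset.Ico 1 (m + 1), H p D L c' (m + 1) n| := by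
  classical
  have hD : L ≤ D := by have := h.hD; omega
  have hC0 : 0 ≤ C := by linarith [h.hC1]
  set x0 := Nat.find hex with hx0
  obtain ⟨hx2, hxN, hH⟩ := Nat.find_spec hex
  rw [← hx0] at hx2 hxN hH
  have hmin : ∀ x : ℕ, 2 ≤ x → x < x0 → H p D L c' x 1 = 0 := by
    intro x h1 h2
    by_contra h4
    exact Nat.find_min hex h2 ⟨h1, by omega, h4⟩
  obtain ⟨y, hy⟩ := Nat.exists_eq_add_of_le' (show 1 ≤ x0 by omega)
  set f : ℕ → ℝ := fun m => if m = 0 then 0 else H p D L c' (m + 1) 1 with hf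
  set f2 : ℕ → ℝ := fun m => ∑ n ∈ Finset.Ico 2 (m + 1), H p D L c' (m + 1) n with hf2
  have hf0 : ∀ m, m < y → f m = 0 := by
    intro m hm
    rw [hf]
    simp only
    by_cases h1 : m = 0
    · rw [if_pos h1]
    · rw [if_neg h1]
      exact hmin _ (by omega) (by omega)
  have hfy : f y = H p D L c' x0 1 := by
    rw [hf]
    simp only
    rw [if_neg (by omega), hy]
  -- the tail of f
  have hgb := tail (f := fun m => if m ≤ y then 0 else f m) (A := C) (m1 := y + 1) (s := D - L - 2) hC0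
    (fun m hm => by rw [if_pos (by omega)]) (fun m hm => by
      rw [if_neg (by omega), hf]
      simp only
      rw [if_neg (by omega)]
      have h1 := H_up (p := p) (x := m + 1) (n := 1) hD hC' le_rfl (by omega)
      refine h1.trans (le_of_eq ?_)
      obtain ⟨r, hr⟩ := Nat.exists_eq_add_of_le' h.hD
      rw [hr, show r + (L + 4) - L - 2 + 2 = r + 4 by omega,
        show r + (L + 4) = L + (r + 4) by ring, pow_add _ L (r + 4)]
      push_cast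
      have : (0 : ℝ) < (m : ℝ) + 1 := by positivity
      field_simp
      simp)
  have hsp := split_one hf0 hgb.1
  have hf2b := sumH (m1 := 0) (a := 2) (f := f2) h.hD hC0 hC' (by omega)
    (fun m hm => absurd hm (by omega)) (fun m _ => rfl)
  have hGs := G_small2 h hC
  have hrows : ∑' m : ℕ, ∑ n ∈ Finset.Ico 1 (m + 1), H p D L c' (m + 1) n = ∑' m, f m + ∑' m, f2 m := by
    rw [← hsp.1.tsum_add hf2b.1]
    refine tsum_congr fun m => ?_
    rw [hf, hf2]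
    simp only
    by_cases h1 : m = 0
    · rw [if_pos h1, h1]
      simp
    · rw [if_neg h1, Finset.sum_eq_sum_Ico_succ_bot (show 1 < m + 1 by omega)]
  rw [hrows, hsp.2, hfy]
  -- numbers
  have hx0p : (0 : ℝ) < (x0 : ℝ) := by exact_mod_cast (show 0 < x0 by omega)
  have hNp : (0 : ℝ) < (N : ℝ) := by exact_mod_cast (show 0 < N by omega)
  have hxN' : (x0 : ℝ) ≤ N := by exact_mod_cast hxN
  have hN1 : (1 : ℝ) ≤ N := by exact_mod_cast (show 1 ≤ N by omega)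
  have hlow := H_low (p := p) hD (show 1 ≤ x0 by omega) hH
  have hA := succ_pow (n := x0) (N := N) (e := D) (by omega) (by omega)
    (by have := h.hC1; positivity) h.h1
  have hP := h.p_ge
  set V : ℝ := 1 / (x0 : ℝ) ^ D with hV
  have hVp : 0 < V := by positivity
  -- tail
  have hr1 : 2 * C / (((y + 1 : ℕ) : ℝ) + 1) ^ (D - L - 2) ≤ V / 8 := by
    have hy1 : ((y + 1 : ℕ) : ℝ) = (x0 : ℝ) := by rw [hy]
    obtain ⟨r, hr⟩ := Nat.exists_eq_add_of_le' h.hD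
    rw [hy1, hV, div_div, div_le_div_iff₀ (by positivity) (by positivity)]
    have e3 : D - L - 2 = r + 2 := by omega
    rw [e3]
    have hpos : (0 : ℝ) < ((x0 : ℝ) + 1) ^ (L + 2) := by positivity
    rw [← mul_le_mul_iff_of_pos_right hpos]
    have e4 : ((x0 : ℝ) + 1) ^ (r + 2) * ((x0 : ℝ) + 1) ^ (L + 2) = ((x0 : ℝ) + 1) ^ D := by
      rw [← pow_add, hr]
      congr 1
      ring
    have e5 : ((x0 : ℝ) + 1) ^ (L + 2) ≤ ((N : ℝ) + 1) ^ (L + 4) := by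
      calc ((x0 : ℝ) + 1) ^ (L + 2) ≤ ((N : ℝ) + 1) ^ (L + 2) := by gcongr
        _ ≤ _ := pow_le_pow_right₀ (by linarith) (by omega)
    calc 2 * C * ((x0 : ℝ) ^ D * 8) * ((x0 : ℝ) + 1) ^ (L + 2)
        = 16 * C * ((x0 : ℝ) + 1) ^ (L + 2) * (x0 : ℝ) ^ D := by ring
      _ ≤ 64 * C * ((N : ℝ) + 1) ^ (L + 4) * (x0 : ℝ) ^ D := by
          refine mul_le_mul_of_nonneg_right ?_ (by positivity)
          have b1 : 0 ≤ C * ((x0 : ℝ) + 1) ^ (L + 2) := by positivity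
          calc 16 * C * ((x0 : ℝ) + 1) ^ (L + 2) ≤ 64 * C * ((x0 : ℝ) + 1) ^ (L + 2) := by nlinarith
            _ ≤ _ := mul_le_mul_of_nonneg_left e5 (by positivity)
      _ ≤ ((x0 : ℝ) + 1) ^ D := hA
      _ = 1 * ((x0 : ℝ) + 1) ^ (r + 2) * ((x0 : ℝ) + 1) ^ (L + 2) := by rw [one_mul, e4]
  -- the rest
  have hr2 : 18 * C / 2 ^ p ≤ V / 3 := by
    rw [hV, div_div, div_le_div_iff₀ (by positivity) (by positivity)]
    have e1 : (x0 : ℝ) ^ D ≤ ((N : ℝ) + 1) ^ (L + D + 4) := by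
      calc (x0 : ℝ) ^ D ≤ ((N : ℝ) + 1) ^ D := by
            have : (x0 : ℝ) ≤ (N : ℝ) + 1 := by linarith
            gcongr
        _ ≤ _ := pow_le_pow_right₀ (by linarith) (by omega)
    have b1 : 0 ≤ C * (x0 : ℝ) ^ D := by positivity
    calc 18 * C * ((x0 : ℝ) ^ D * 3) = 54 * (C * (x0 : ℝ) ^ D) := by ring
      _ ≤ 64 * (C * (x0 : ℝ) ^ D) := by linarith
      _ = 64 * C * (x0 : ℝ) ^ D := by ring
      _ ≤ 64 * C * ((N : ℝ) + 1) ^ (L + D + 4) := mul_le_mul_of_nonneg_left e1 (by positivity)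
      _ ≤ 2 ^ p := hP
      _ = 1 * 2 ^ p := by ring
  have hf2' : |∑' m, f2 m| ≤ 2 * C / 2 ^ p := by
    refine hf2b.2.trans (le_of_eq ?_)
    push_cast
    simp
    ring
  have hsum : 2 * C / 2 ^ p + 16 * C / 2 ^ p = 18 * C / 2 ^ p := by ring
  have hfin : V / 2 ≤ |∑' m : ℕ, ∑ n ∈ Finset.Ico 1 (m + 1), G p D L c (m + 1) n +
      (H p D L c' x0 1 + ∑' m, (if m ≤ y then 0 else f m) + ∑' m, f2 m)| := by
    have t0 : ∑' m : ℕ, ∑ n ∈ Finset.Ico 1 (m + 1), G p D L c (m + 1) n +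
      (H p D L c' x0 1 + ∑' m, (if m ≤ y then 0 else f m) + ∑' m, f2 m) =
      H p D L c' x0 1 + (∑' m : ℕ, ∑ n ∈ Finset.Ico 1 (m + 1), G p D L c (m + 1) n +
        (∑' m, (if m ≤ y then 0 else f m) + ∑' m, f2 m)) := by ring
    rw [t0]
    have t1 := abs_sub_abs_le_abs_add (H p D L c' x0 1)
      (∑' m : ℕ, ∑ n ∈ Finset.Ico 1 (m + 1), G p D L c (m + 1) n +
        (∑' m, (if m ≤ y then 0 else f m) + ∑' m, f2 m))
    have t2 := abs_add_le (∑' m : ℕ, ∑ n ∈ Finset.Ico 1 (m + 1), G p D L c (m + 1) n)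
      (∑' m, (if m ≤ y then 0 else f m) + ∑' m, f2 m)
    have t3 := abs_add_le (∑' m, (if m ≤ y then 0 else f m)) (∑' m, f2 m)
    have t4 := hgb.2.trans hr1
    have t5 := hGs.2
    linarith
  refine le_trans ?_ hfin
  rw [hV, div_div, div_le_div_iff₀ (by positivity) (by positivity), one_mul, one_mul]
  calc (x0 : ℝ) ^ D * 2 ≤ (N : ℝ) ^ D * 2 := by gcongr
    _ = 2 * (N : ℝ) ^ D := by ring

end

section

variable {s κ e : ℕ} {c : ℕ → ℕ → ℤ} {C : ℝ}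

lemma Tm_up (hC : ∑ r ∈ Finset.Ico 1 s, ∑ i ∈ range (e + 1), |(c r i : ℝ)| ≤ C) (K : ℕ) :
    |Tm s e c K| ≤ C * (K : ℝ) ^ 2 := by
  have hC0 : 0 ≤ C := le_trans (Finset.sum_nonneg fun r _ => Finset.sum_nonneg fun i _ =>
    abs_nonneg _) hC
  unfold Tm
  calc |∑ m ∈ range K, ∑ n ∈ Finset.Ico 1 (m + 1), ∑ r ∈ Finset.Ico 1 s,
      if Wt s r (m + 1) n = K then Qr e c r (m + 1) n else 0|
      ≤ ∑ m ∈ range K, ∑ n ∈ Finset.Ico 1 (m + 1), C := by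
        refine (Finset.abs_sum_le_sum_abs _ _).trans (Finset.sum_le_sum fun m _ => ?_)
        refine (Finset.abs_sum_le_sum_abs _ _).trans (Finset.sum_le_sum fun n hn => ?_)
        rw [Finset.mem_Ico] at hn
        refine (Finset.abs_sum_le_sum_abs _ _).trans (le_trans ?_ hC)
        refine Finset.sum_le_sum fun r _ => ?_
        by_cases hW : Wt s r (m + 1) n = K
        · rw [if_pos hW]
          exact Qr_up (by omega) hn.1
        · rw [if_neg hW, abs_zero]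
          exact Finset.sum_nonneg fun i _ => abs_nonneg _
    _ ≤ ∑ m ∈ range K, (K : ℝ) * C := by
        refine Finset.sum_le_sum fun m hm => ?_
        rw [Finset.mem_range] at hm
        rw [Finset.sum_const, Nat.card_Ico, nsmul_eq_mul]
        refine mul_le_mul_of_nonneg_right ?_ hC0
        have : m + 1 - 1 ≤ K := by omega
        exact_mod_cast this
    _ = C * (K : ℝ) ^ 2 := by
        rw [Finset.sum_const, Finset.card_range, nsmul_eq_mul]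
        ring

/-- both bounds for the windows near the multiples of `k / s` -/
lemma rat_two {P : Finset ℕ} {N B : ℕ} {H : ℝ} (hs : 2 ≤ s) (hκ : 3 ≤ κ)
    (hC : ∑ r ∈ Finset.Ico 1 s, ∑ i ∈ range (e + 1), |(c r i : ℝ)| ≤ C) (hC1 : 1 ≤ C)
    (hH : ∀ r i, |(c r i : ℝ)| ≤ H)
    (hP : ∀ ℓ ∈ P, ℓ.Prime) (hPN : ∀ ℓ ∈ P, ℓ ≤ N) (hN : 1 ≤ N) (hB : B = N ^ (s - 1))
    (hPc : e < P.card ∨ H < (2 : ℝ) ^ P.card)
    (hcond : (8 * C * ((B : ℝ) + 1) ^ (e + 3)) ^ B ≤ (2 : ℝ) ^ κ)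
    (hne : ∃ r ∈ Finset.Ico 1 s, ∃ i ∈ range (e + 1), c r i ≠ 0) :
    ∃ K : ℕ, 2 ≤ K ∧ K ≤ B ∧
      1 / (2 * (K : ℝ) ^ (κ + e)) ≤ |∑ r ∈ Finset.Ico 1 s, ∑ i ∈ range (e + 1),
        (c r i : ℝ) * dz (r * κ + i) ((s - r) * κ + (e - i))| ∧
      |∑ r ∈ Finset.Ico 1 s, ∑ i ∈ range (e + 1),
        (c r i : ℝ) * dz (r * κ + i) ((s - r) * κ + (e - i))| ≤ 2 * C * (K : ℝ) ^ 2 / (K : ℝ) ^ κ := by
  classical
  -- the first window with a coefficient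
  have hex : ∃ r, (1 ≤ r ∧ r < s) ∧ ∃ i, i ≤ e ∧ c r i ≠ 0 := by
    obtain ⟨r, hr, i, hi, h1⟩ := hne
    rw [Finset.mem_Ico] at hr
    rw [Finset.mem_range] at hi
    exact ⟨r, hr, i, by omega, h1⟩
  -- we may assume that the other coefficients vanish
  set c1 : ℕ → ℕ → ℤ := fun r i => if 1 ≤ r ∧ r < s ∧ i ≤ e then c r i else 0 with hc1
  have hcc : ∀ r ∈ Finset.Ico 1 s, ∀ i ∈ range (e + 1), c1 r i = c r i := by
    intro r hr i hi
    rw [Finset.mem_Ico] at hr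
    rw [Finset.mem_range] at hi
    rw [hc1]
    simp only
    rw [if_pos ⟨hr.1, hr.2, by omega⟩]
  have hsum : ∑ r ∈ Finset.Ico 1 s, ∑ i ∈ range (e + 1),
      (c r i : ℝ) * dz (r * κ + i) ((s - r) * κ + (e - i)) =
      ∑ r ∈ Finset.Ico 1 s, ∑ i ∈ range (e + 1),
      (c1 r i : ℝ) * dz (r * κ + i) ((s - r) * κ + (e - i)) :=
    Finset.sum_congr rfl fun r hr => Finset.sum_congr rfl fun i hi => by rw [hcc r hr i hi]
  have hC' : ∑ r ∈ Finset.Ico 1 s, ∑ i ∈ range (e + 1), |(c1 r i : ℝ)| ≤ C := by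
    refine le_trans (le_of_eq ?_) hC
    exact Finset.sum_congr rfl fun r hr => Finset.sum_congr rfl fun i hi => by rw [hcc r hr i hi]
  rw [hsum]
  have hex1 : ∃ r, (1 ≤ r ∧ r < s) ∧ ∃ i, i ≤ e ∧ c1 r i ≠ 0 := by
    obtain ⟨r, hr, i, hi, h1⟩ := hex
    refine ⟨r, hr, i, hi, ?_⟩
    rw [hcc r (Finset.mem_Ico.2 hr) i (Finset.mem_range.2 (by omega))]
    exact h1
  set r0 := Nat.find hex1 with hr0
  obtain ⟨⟨hr1, hrs⟩, hcr⟩ := Nat.find_spec hex1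
  rw [← hr0] at hr1 hrs hcr
  have hlt : ∀ r', r' < r0 → ∀ i, c1 r' i = 0 := by
    intro r' hr' i
    by_contra h1
    have h2 : 1 ≤ r' ∧ r' < s ∧ i ≤ e := by
      by_contra h3
      apply h1
      rw [hc1]
      simp only
      rw [if_neg h3]
    exact Nat.find_min hex1 hr' ⟨⟨h2.1, h2.2.1⟩, i, h2.2.2, h1⟩
  obtain ⟨ℓ, hℓP, hℓ⟩ := prime_test (c := c1 r0) (e := e) hP (H := H) (fun i hi => by
    rw [hcc r0 (Finset.mem_Ico.2 ⟨hr1, hrs⟩) i (Finset.mem_range.2 (by omega))]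
    exact hH r0 i) hcr hPc
  have hTℓ : Tm s e c1 (ℓ ^ r0) ≠ 0 := by
    rw [Tm_prime (hP ℓ hℓP) hr1 hrs hlt]
    unfold Qr
    intro h0
    apply hℓ
    rw [← h0]
    refine Finset.sum_congr rfl fun i _ => ?_
    simp
  have hexM : ∃ M, Tm s e c1 M ≠ 0 := ⟨_, hTℓ⟩
  set K := Nat.find hexM with hKdef
  have hTK : Tm s e c1 K ≠ 0 := Nat.find_spec hexM
  have hTlt : ∀ M, M < K → Tm s e c1 M = 0 := by
    intro M hM
    by_contra h1
    exact Nat.find_min hexM hM h1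
  have hK1 : 1 ≤ K := by
    by_contra h1
    have : K = 0 := by omega
    rw [this] at hTK
    exact hTK Tm_zero
  have hKB : K ≤ B := by
    calc K ≤ ℓ ^ r0 := Nat.find_min' hexM hTℓ
      _ ≤ N ^ r0 := Nat.pow_le_pow_left (hPN ℓ hℓP) _
      _ ≤ N ^ (s - 1) := Nat.pow_le_pow_right hN (by omega)
      _ = B := hB.symm
  have hw := whole hκ hC' K hTlt
  have hlow := Tm_low hK1 hTK
  have hsucc := succ_pow (n := K) (N := B) (e := κ) hK1 hKB (by positivity) hcond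
  have hK0 : (0 : ℝ) < K := by exact_mod_cast hK1
  have hKB' : (K : ℝ) ≤ B := by exact_mod_cast hKB
  -- numbers
  have h1 : 2 * C / ((K : ℝ) + 1) ^ (κ - 3) ≤ 1 / (4 * (K : ℝ) ^ (κ + e)) := by
    rw [div_le_div_iff₀ (by positivity) (by positivity)]
    have hpos : (0 : ℝ) < ((K : ℝ) + 1) ^ 3 := by positivity
    rw [← mul_le_mul_iff_of_pos_right hpos]
    have e4 : ((K : ℝ) + 1) ^ (κ - 3) * ((K : ℝ) + 1) ^ 3 = ((K : ℝ) + 1) ^ κ := by
      rw [← pow_add]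
      congr 1
      omega
    have e5 : (K : ℝ) ^ e * ((K : ℝ) + 1) ^ 3 ≤ ((B : ℝ) + 1) ^ (e + 3) := by
      rw [pow_add]
      have : (K : ℝ) ≤ (B : ℝ) + 1 := by linarith
      gcongr
    calc 2 * C * (4 * (K : ℝ) ^ (κ + e)) * ((K : ℝ) + 1) ^ 3
        = 8 * C * ((K : ℝ) ^ e * ((K : ℝ) + 1) ^ 3) * (K : ℝ) ^ κ := by
          rw [pow_add]
          ring
      _ ≤ 8 * C * ((B : ℝ) + 1) ^ (e + 3) * (K : ℝ) ^ κ := by
          refine mul_le_mul_of_nonneg_right ?_ (by positivity)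
          exact mul_le_mul_of_nonneg_left e5 (by positivity)
      _ ≤ ((K : ℝ) + 1) ^ κ := hsucc
      _ = 1 * ((K : ℝ) + 1) ^ (κ - 3) * ((K : ℝ) + 1) ^ 3 := by rw [one_mul, e4]
  have h2 : 1 / (K : ℝ) ^ (κ + e) ≤ |Tm s e c1 K / (K : ℝ) ^ κ| := by
    rw [abs_div, abs_of_pos (show (0 : ℝ) < (K : ℝ) ^ κ by positivity),
      div_le_div_iff₀ (by positivity) (by positivity), one_mul]
    rw [div_le_iff₀ (by positivity)] at hlow
    calc (K : ℝ) ^ κ = 1 * (K : ℝ) ^ κ := by ring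
      _ ≤ |Tm s e c1 K| * (K : ℝ) ^ e * (K : ℝ) ^ κ := mul_le_mul_of_nonneg_right hlow (by positivity)
      _ = |Tm s e c1 K| * (K : ℝ) ^ (κ + e) := by rw [pow_add]; ring
  have h3 : 1 / (4 * (K : ℝ) ^ (κ + e)) = 1 / (K : ℝ) ^ (κ + e) / 4 := by
    rw [div_div]
    congr 1
    ring
  have h4 : 1 / (2 * (K : ℝ) ^ (κ + e)) = 1 / (K : ℝ) ^ (κ + e) / 2 := by
    rw [div_div]
    congr 1
    ring
  have h5 : 0 < 1 / (K : ℝ) ^ (κ + e) := by positivity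
  have hK2 : 2 ≤ K := by
    by_contra h6
    have : K = 1 := by omega
    rw [this] at hTK
    exact hTK (Tm_one hs)
  have hTup := Tm_up (s := s) hC' K
  have h8 : |Tm s e c1 K / (K : ℝ) ^ κ| ≤ C * (K : ℝ) ^ 2 / (K : ℝ) ^ κ := by
    rw [abs_div, abs_of_pos (show (0 : ℝ) < (K : ℝ) ^ κ by positivity)]
    exact div_le_div_of_nonneg_right hTup (by positivity)
  refine ⟨K, hK2, hKB, ?_, ?_⟩
  · rw [h4]
    have h7 := abs_sub_abs_le_abs_sub (Tm s e c1 K / (K : ℝ) ^ κ)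
      (∑ r ∈ Finset.Ico 1 s, ∑ i ∈ range (e + 1),
      (c1 r i : ℝ) * dz (r * κ + i) ((s - r) * κ + (e - i)))
    rw [abs_sub_comm] at h7
    linarith
  · have h7 := abs_sub_abs_le_abs_sub (∑ r ∈ Finset.Ico 1 s, ∑ i ∈ range (e + 1),
      (c1 r i : ℝ) * dz (r * κ + i) ((s - r) * κ + (e - i))) (Tm s e c1 K / (K : ℝ) ^ κ)
    have h9 : 2 * C * (K : ℝ) ^ 2 / (K : ℝ) ^ κ =
        C * (K : ℝ) ^ 2 / (K : ℝ) ^ κ + C * (K : ℝ) ^ 2 / (K : ℝ) ^ κ := by ring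
    rw [h9]
    linarith

end

end Run7.h776.DZW
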