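import Pool.Agent.Run7.h776.DZW.Two

/-!
# All windows together: the finite theorem
-/

set_option autoImplicit false

namespace Run7.h776.DZW

open Finset

section

variable {p D L N : ℕ} {c c' : ℕ → ℤ} {d : ℤ} {C : ℝ}

/-- the case `d ≠ 0` -/
lemma caseD' (h : Par2 p D L N C) (hC : Bd L c C) (hC' : Bd L c' C) (hd : d ≠ 0) :
    1 / 2 ≤
      |∑' m : ℕ, ∑ n ∈ Finset.Ico 1 (m + 1), G p D L c (m + 1) n +
        ∑' m : ℕ, ∑ n ∈ Finset.Ico 1 (m + 1), H p D L c' (m + 1) n + d * zt (p + D)| := by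
  have hC0 : 0 ≤ C := by linarith [h.hC1]
  have hGs := (G_small2 h hC).2
  have hP := h.p_ge
  have hQ := h.D_ge
  have hHs := (sumH (m1 := 1) (a := 1)
    (f := fun m => ∑ n ∈ Finset.Ico 1 (m + 1), H p D L c' (m + 1) n) h.hD hC0 hC' le_rfl
    (fun m hm => by
      have : m = 0 := by omega
      subst this
      simp) (fun m _ => rfl)).2
  have hz : 1 ≤ |(d : ℝ) * zt (p + D)| := by
    rw [abs_mul]
    have h1 : (1 : ℝ) ≤ |(d : ℝ)| := by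
      have := Int.one_le_abs hd
      exact_mod_cast this
    have h2 := zt_ge (k := p + D) (by have := h.hp; omega)
    rw [abs_of_nonneg (show (0 : ℝ) ≤ zt (p + D) by linarith)]
    nlinarith
  have hN1 : (1 : ℝ) ≤ N := by exact_mod_cast h.hN
  have e1 : 16 * C / 2 ^ p ≤ 1 / 4 := by
    rw [div_le_div_iff₀ (by positivity) (by norm_num)]
    have : (1 : ℝ) ≤ ((N : ℝ) + 1) ^ (L + D + 4) := one_le_pow₀ (by linarith)
    have b1 : 64 * C * 1 ≤ 64 * C * ((N : ℝ) + 1) ^ (L + D + 4) :=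
      mul_le_mul_of_nonneg_left this (by positivity)
    linarith
  have e2 : |∑' m : ℕ, ∑ n ∈ Finset.Ico 1 (m + 1), H p D L c' (m + 1) n| ≤ 1 / 4 := by
    refine hHs.trans ?_
    obtain ⟨r, hr⟩ := Nat.exists_eq_add_of_le' h.hD
    rw [show D - L - 3 = r + 1 by omega]
    push_cast
    norm_num
    rw [div_le_div_iff₀ (by positivity) (by norm_num)]
    have hpos : (0 : ℝ) < 2 ^ (L + 3) := by positivity
    rw [← mul_le_mul_iff_of_pos_right hpos]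
    have e4 : (2 : ℝ) ^ (r + 1) * 2 ^ (L + 3) = 2 ^ D := by
      rw [← pow_add, hr]
      congr 1
      ring
    have e5 : (2 : ℝ) ^ (L + 3) ≤ ((N : ℝ) + 1) ^ (L + 4) := by
      calc (2 : ℝ) ^ (L + 3) ≤ ((N : ℝ) + 1) ^ (L + 3) := by
            have : (2 : ℝ) ≤ (N : ℝ) + 1 := by linarith
            gcongr
        _ ≤ _ := pow_le_pow_right₀ (by linarith) (by omega)
    calc 2 * C * 4 * 2 ^ (L + 3) ≤ 64 * C * 2 ^ (L + 3) := by
          have : 0 ≤ C * (2 : ℝ) ^ (L + 3) := by positivity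
          nlinarith
      _ ≤ 64 * C * ((N : ℝ) + 1) ^ (L + 4) := mul_le_mul_of_nonneg_left e5 (by positivity)
      _ ≤ 2 ^ D := hQ
      _ = 1 * 2 ^ (r + 1) * 2 ^ (L + 3) := by rw [one_mul, e4]
  rw [add_comm]
  have t1 := abs_sub_abs_le_abs_add ((d : ℝ) * zt (p + D))
    (∑' m : ℕ, ∑ n ∈ Finset.Ico 1 (m + 1), G p D L c (m + 1) n +
      ∑' m : ℕ, ∑ n ∈ Finset.Ico 1 (m + 1), H p D L c' (m + 1) n)
  have t2 := abs_add_le (∑' m : ℕ, ∑ n ∈ Finset.Ico 1 (m + 1), G p D L c (m + 1) n)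
    (∑' m : ℕ, ∑ n ∈ Finset.Ico 1 (m + 1), H p D L c' (m + 1) n)
  linarith

end

/-- the comparison of the two leading terms -/
lemma compare {s κ e p D L N1 B K x0 n0 : ℕ} {C Z a b : ℝ} (hC1 : 1 ≤ C) (hpD : p + D = s * κ + e)
    (hZ1 : (N1 : ℝ) + 1 ≤ Z) (hZ2 : (B : ℝ) + 1 ≤ Z)
    (hX : (64 * C * Z ^ (D + e + L + 4)) ^ B ≤ (2 : ℝ) ^ κ)
    (hG : (64 * C * Z ^ (L + e + 2 * s + 4)) ^ N1 ≤ (2 : ℝ) ^ D)
    (hK2 : 2 ≤ K) (hKB : K ≤ B) (hn1 : 1 ≤ n0) (hnx : n0 < x0) (hxN : x0 ≤ N1)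
    (ha : a ≤ 2 * C * (K : ℝ) ^ 2 / (K : ℝ) ^ κ)
    (hb : b ≤ 2 * C / ((x0 : ℝ) ^ p * (n0 : ℝ) ^ D)) :
    b ≤ 1 / (K : ℝ) ^ (κ + e) / 4 ∨ a ≤ 1 / ((x0 : ℝ) ^ (p + L) * (n0 : ℝ) ^ D) / 4 := by
  have hK0 : (0 : ℝ) < K := by exact_mod_cast (show 0 < K by omega)
  have hx0 : (0 : ℝ) < x0 := by exact_mod_cast (show 0 < x0 by omega)
  have hn0 : (0 : ℝ) < n0 := by exact_mod_cast (show 0 < n0 by omega)
  have hK1 : (1 : ℝ) ≤ K := by exact_mod_cast (show 1 ≤ K by omega)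
  have hx1 : (1 : ℝ) ≤ x0 := by exact_mod_cast (show 1 ≤ x0 by omega)
  have hn1' : (1 : ℝ) ≤ n0 := by exact_mod_cast hn1
  have hnx' : (n0 : ℝ) + 1 ≤ x0 := by exact_mod_cast hnx
  have hxZ : (x0 : ℝ) ≤ Z := by
    have : (x0 : ℝ) ≤ N1 := by exact_mod_cast hxN
    linarith
  have hKZ : (K : ℝ) ≤ Z := by
    have : (K : ℝ) ≤ B := by exact_mod_cast hKB
    linarith
  have hZ0 : 0 < Z := by linarith
  have hZ1' : 1 ≤ Z := by linarith
  have hC0 : 0 < C := by linarith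
  rcases lt_trichotomy K (x0 ^ s) with hlt | heq | hgt
  · -- the rational windows win
    left
    refine hb.trans ?_
    rw [div_div, div_le_div_iff₀ (by positivity) (by positivity), one_mul]
    have hs := succ_pow (n := K) (N := B) (e := κ) (by omega) hKB (by positivity) hX
    have h1 : (K : ℝ) + 1 ≤ (x0 : ℝ) ^ s := by exact_mod_cast hlt
    have h2 : ((K : ℝ) + 1) ^ κ ≤ (x0 : ℝ) ^ (s * κ) := by
      rw [pow_mul]
      exact pow_le_pow_left₀ (by positivity) h1 κ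
    have hpos : (0 : ℝ) < (x0 : ℝ) ^ D := by positivity
    rw [← mul_le_mul_iff_of_pos_right hpos]
    have h3 : 8 * C * ((K : ℝ) ^ e * (x0 : ℝ) ^ D) ≤ 64 * C * Z ^ (D + e + L + 4) := by
      have h4 : (K : ℝ) ^ e * (x0 : ℝ) ^ D ≤ Z ^ (D + e + L + 4) := by
        calc (K : ℝ) ^ e * (x0 : ℝ) ^ D ≤ Z ^ e * Z ^ D := by gcongr
          _ = Z ^ (e + D) := by rw [pow_add]
          _ ≤ _ := pow_le_pow_right₀ hZ1' (by omega)
      have h5 : 0 ≤ C * ((K : ℝ) ^ e * (x0 : ℝ) ^ D) := by positivity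
      calc 8 * C * ((K : ℝ) ^ e * (x0 : ℝ) ^ D) ≤ 64 * C * ((K : ℝ) ^ e * (x0 : ℝ) ^ D) := by
            nlinarith
        _ ≤ _ := mul_le_mul_of_nonneg_left h4 (by positivity)
    calc 2 * C * ((K : ℝ) ^ (κ + e) * 4) * (x0 : ℝ) ^ D
        = 8 * C * ((K : ℝ) ^ e * (x0 : ℝ) ^ D) * (K : ℝ) ^ κ := by rw [pow_add]; ring
      _ ≤ 64 * C * Z ^ (D + e + L + 4) * (K : ℝ) ^ κ := mul_le_mul_of_nonneg_right h3 (by positivity)
      _ ≤ ((K : ℝ) + 1) ^ κ := hs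
      _ ≤ (x0 : ℝ) ^ (s * κ) := h2
      _ ≤ (x0 : ℝ) ^ (p + D) := pow_le_pow_right₀ hx1 (by omega)
      _ = (x0 : ℝ) ^ p * 1 * (x0 : ℝ) ^ D := by rw [pow_add]; ring
      _ ≤ (x0 : ℝ) ^ p * (n0 : ℝ) ^ D * (x0 : ℝ) ^ D := by
          have : (1 : ℝ) ≤ (n0 : ℝ) ^ D := one_le_pow₀ hn1'
          gcongr
  · right
    refine ha.trans ?_
    rw [div_div, div_le_div_iff₀ (by positivity) (by positivity), one_mul]
    have hs := succ_pow (n := n0) (N := N1) (e := D) hn1 (by omega) (by positivity) hG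
    have h1 : ((n0 : ℝ) + 1) ^ D ≤ (x0 : ℝ) ^ D := pow_le_pow_left₀ (by positivity) hnx' D
    have hKx : (K : ℝ) = (x0 : ℝ) ^ s := by rw [heq]; push_cast; rfl
    have hpos : (0 : ℝ) < (x0 : ℝ) ^ e := by positivity
    rw [← mul_le_mul_iff_of_pos_right hpos]
    have h3 : 8 * C * ((K : ℝ) ^ 2 * (x0 : ℝ) ^ (L + e)) ≤ 64 * C * Z ^ (L + e + 2 * s + 4) := by
      have h4 : (K : ℝ) ^ 2 * (x0 : ℝ) ^ (L + e) ≤ Z ^ (L + e + 2 * s + 4) := by
        calc (K : ℝ) ^ 2 * (x0 : ℝ) ^ (L + e) = (x0 : ℝ) ^ (2 * s + (L + e)) := by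
              rw [hKx, ← pow_mul, ← pow_add]
              congr 1
              ring
          _ ≤ Z ^ (2 * s + (L + e)) := by gcongr
          _ ≤ _ := pow_le_pow_right₀ hZ1' (by omega)
      have h5 : 0 ≤ C * ((K : ℝ) ^ 2 * (x0 : ℝ) ^ (L + e)) := by positivity
      calc 8 * C * ((K : ℝ) ^ 2 * (x0 : ℝ) ^ (L + e)) ≤
          64 * C * ((K : ℝ) ^ 2 * (x0 : ℝ) ^ (L + e)) := by nlinarith
        _ ≤ _ := mul_le_mul_of_nonneg_left h4 (by positivity)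
    calc 2 * C * (K : ℝ) ^ 2 * ((x0 : ℝ) ^ (p + L) * (n0 : ℝ) ^ D * 4) * (x0 : ℝ) ^ e
        = (x0 : ℝ) ^ p * (8 * C * ((K : ℝ) ^ 2 * (x0 : ℝ) ^ (L + e)) * (n0 : ℝ) ^ D) := by
          rw [pow_add, pow_add]
          ring
      _ ≤ (x0 : ℝ) ^ p * (64 * C * Z ^ (L + e + 2 * s + 4) * (n0 : ℝ) ^ D) := by
          refine mul_le_mul_of_nonneg_left ?_ (by positivity)
          exact mul_le_mul_of_nonneg_right h3 (by positivity)
      _ ≤ (x0 : ℝ) ^ p * ((n0 : ℝ) + 1) ^ D := mul_le_mul_of_nonneg_left hs (by positivity)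
      _ ≤ (x0 : ℝ) ^ p * (x0 : ℝ) ^ D := mul_le_mul_of_nonneg_left h1 (by positivity)
      _ = (x0 : ℝ) ^ (s * κ + e) := by rw [← pow_add, hpD]
      _ = (K : ℝ) ^ κ * (x0 : ℝ) ^ e := by rw [hKx, ← pow_mul, ← pow_add]
  · right
    refine ha.trans ?_
    rw [div_div, div_le_div_iff₀ (by positivity) (by positivity), one_mul]
    have hs := succ_pow (n := x0 ^ s) (N := B) (e := κ) (Nat.one_le_pow _ _ (by omega)) (by omega)
      (by positivity) hX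
    have h1 : ((x0 ^ s : ℕ) : ℝ) + 1 ≤ K := by exact_mod_cast hgt
    have h2 : (((x0 ^ s : ℕ) : ℝ) + 1) ^ κ ≤ (K : ℝ) ^ κ := pow_le_pow_left₀ (by positivity) h1 κ
    have h3 : 8 * C * ((K : ℝ) ^ 2 * (x0 : ℝ) ^ (e + L)) ≤ 64 * C * Z ^ (D + e + L + 4) := by
      have h4 : (K : ℝ) ^ 2 * (x0 : ℝ) ^ (e + L) ≤ Z ^ (D + e + L + 4) := by
        calc (K : ℝ) ^ 2 * (x0 : ℝ) ^ (e + L) ≤ Z ^ 2 * Z ^ (e + L) := by gcongr
          _ = Z ^ (2 + (e + L)) := by rw [← pow_add]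
          _ ≤ _ := pow_le_pow_right₀ hZ1' (by omega)
      have h5 : 0 ≤ C * ((K : ℝ) ^ 2 * (x0 : ℝ) ^ (e + L)) := by positivity
      calc 8 * C * ((K : ℝ) ^ 2 * (x0 : ℝ) ^ (e + L)) ≤
          64 * C * ((K : ℝ) ^ 2 * (x0 : ℝ) ^ (e + L)) := by nlinarith
        _ ≤ _ := mul_le_mul_of_nonneg_left h4 (by positivity)
    have h6 : (n0 : ℝ) ^ D ≤ (x0 : ℝ) ^ D := pow_le_pow_left₀ (by positivity) (by linarith) D
    calc 2 * C * (K : ℝ) ^ 2 * ((x0 : ℝ) ^ (p + L) * (n0 : ℝ) ^ D * 4)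
        ≤ 2 * C * (K : ℝ) ^ 2 * ((x0 : ℝ) ^ (p + L) * (x0 : ℝ) ^ D * 4) := by gcongr
      _ = 8 * C * (K : ℝ) ^ 2 * (x0 : ℝ) ^ (p + D + L) := by rw [pow_add, pow_add, pow_add]; ring
      _ = 8 * C * ((K : ℝ) ^ 2 * (x0 : ℝ) ^ (e + L)) * ((x0 ^ s : ℕ) : ℝ) ^ κ := by
          rw [hpD]
          push_cast
          rw [← pow_mul, pow_add, pow_add, pow_add]
          ring
      _ ≤ 64 * C * Z ^ (D + e + L + 4) * ((x0 ^ s : ℕ) : ℝ) ^ κ :=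
          mul_le_mul_of_nonneg_right h3 (by positivity)
      _ ≤ (((x0 ^ s : ℕ) : ℝ) + 1) ^ κ := hs
      _ ≤ (K : ℝ) ^ κ := h2

/-- **the finite theorem** for all windows together -/
theorem uni_finite {s κ e p D L N1 N B : ℕ} {C Z H0 : ℝ} {P : Finset ℕ} {c : ℕ → ℕ → ℤ}
    {cG cH : ℕ → ℤ} {d : ℤ} (hs : 2 ≤ s) (hκ : 3 ≤ κ) (hpD : p + D = s * κ + e)
    (hpar : Par2 p D L N1 C)
    (hC : ∑ r ∈ Finset.Ico 1 s, ∑ i ∈ range (e + 1), |(c r i : ℝ)| ≤ C)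
    (hCG : Bd L cG C) (hCH : Bd L cH C)
    (hH : ∀ r i, |(c r i : ℝ)| ≤ H0) (hHG : ∀ j, j ≤ L → |(cG j : ℝ)| ≤ H0)
    (hHH : ∀ j, j ≤ L → |(cH j : ℝ)| ≤ H0)
    (hP : ∀ ℓ ∈ P, ℓ.Prime) (hPN : ∀ ℓ ∈ P, ℓ ≤ N) (hN : 1 ≤ N) (hB : B = N ^ (s - 1))
    (hPc : e < P.card ∨ H0 < (2 : ℝ) ^ P.card)
    {P1 : Finset ℕ} (hP1 : ∀ ℓ ∈ P1, ℓ.Prime) (hPN1 : ∀ ℓ ∈ P1, ℓ ≤ N1)
    (hPc1 : L < P1.card ∨ H0 < (2 : ℝ) ^ P1.card)
    (hZ1 : (N1 : ℝ) + 1 ≤ Z) (hZ2 : (B : ℝ) + 1 ≤ Z)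
    (hX : (64 * C * Z ^ (D + e + L + 4)) ^ B ≤ (2 : ℝ) ^ κ)
    (hG : (64 * C * Z ^ (L + e + 2 * s + 4)) ^ N1 ≤ (2 : ℝ) ^ D)
    (hne : d ≠ 0 ∨ (∃ r ∈ Finset.Ico 1 s, ∃ i ∈ range (e + 1), c r i ≠ 0) ∨
      ∃ j, j ≤ L ∧ (cG j ≠ 0 ∨ cH j ≠ 0)) :
    1 / (4 * (B : ℝ) ^ (κ + e)) ≤ |∑ r ∈ Finset.Ico 1 s, ∑ i ∈ range (e + 1),
      (c r i : ℝ) * dz (r * κ + i) ((s - r) * κ + (e - i)) +
      ∑ j ∈ range (L + 1), ((cG j : ℝ) * dz (p + j) (D - j) + (cH j : ℝ) * dz (D - j) (p + j)) +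
        d * zt (s * κ + e)| ∨
    1 / (4 * (N1 : ℝ) ^ (s * κ + e + L)) ≤ |∑ r ∈ Finset.Ico 1 s, ∑ i ∈ range (e + 1),
      (c r i : ℝ) * dz (r * κ + i) ((s - r) * κ + (e - i)) +
      ∑ j ∈ range (L + 1), ((cG j : ℝ) * dz (p + j) (D - j) + (cH j : ℝ) * dz (D - j) (p + j)) +
        d * zt (s * κ + e)| := by
  have hC1 := hpar.hC1
  have hC0 : 0 ≤ C := by linarith
  have hB1 : 1 ≤ B := by rw [hB]; exact Nat.one_le_pow _ _ hN
  have hBr : (1 : ℝ) ≤ B := by exact_mod_cast hB1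
  have hN1r : (1 : ℝ) ≤ N1 := by exact_mod_cast hpar.hN
  have hZ1' : 2 ≤ Z := by linarith
  have hbase : 64 * C * Z ^ (D + e + L + 4) ≤ (2 : ℝ) ^ κ := by
    have hb : (1 : ℝ) ≤ 64 * C * Z ^ (D + e + L + 4) := by
      have e1 : (1 : ℝ) ≤ Z ^ (D + e + L + 4) := one_le_pow₀ (by linarith)
      nlinarith
    exact le_trans (le_self_pow₀ hb (by omega)) hX
  have hcond : (8 * C * ((B : ℝ) + 1) ^ (e + 3)) ^ B ≤ (2 : ℝ) ^ κ := by
    refine le_trans (pow_le_pow_left₀ (by positivity) ?_ B) hX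
    have e1 : ((B : ℝ) + 1) ^ (e + 3) ≤ Z ^ (D + e + L + 4) := by
      calc ((B : ℝ) + 1) ^ (e + 3) ≤ Z ^ (e + 3) := by gcongr
        _ ≤ _ := pow_le_pow_right₀ (by linarith) (by omega)
    have e2 : 0 ≤ C * ((B : ℝ) + 1) ^ (e + 3) := by positivity
    calc 8 * C * ((B : ℝ) + 1) ^ (e + 3) ≤ 64 * C * ((B : ℝ) + 1) ^ (e + 3) := by nlinarith
      _ ≤ _ := mul_le_mul_of_nonneg_left e1 (by positivity)
  -- the rational windows are small compared with one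
  have hRs : |∑ r ∈ Finset.Ico 1 s, ∑ i ∈ range (e + 1),
      (c r i : ℝ) * dz (r * κ + i) ((s - r) * κ + (e - i))| ≤ 16 * C / 2 ^ κ := by
    have hw := whole (c := c) hκ hC 1 (fun M hM => by
      have : M = 0 := by omega
      rw [this]
      exact Tm_zero)
    rw [Tm_one hs, zero_div, sub_zero] at hw
    refine hw.trans (le_of_eq ?_)
    have e4 : (2 : ℝ) ^ κ = (((1 : ℕ) : ℝ) + 1) ^ (κ - 3) * 8 := by
      rw [show ((1 : ℕ) : ℝ) + 1 = 2 by norm_num, show (8 : ℝ) = 2 ^ 3 by norm_num, ← pow_add]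
      congr 1
      omega
    rw [e4]
    field_simp
    ring
  have hsplit : ∑ j ∈ range (L + 1), ((cG j : ℝ) * dz (p + j) (D - j) +
      (cH j : ℝ) * dz (D - j) (p + j)) =
      ∑' m : ℕ, ∑ n ∈ Finset.Ico 1 (m + 1), G p D L cG (m + 1) n +
        ∑' m : ℕ, ∑ n ∈ Finset.Ico 1 (m + 1), H p D L cH (m + 1) n := by
    rw [Finset.sum_add_distrib, sum_G (by have := hpar.hp; omega), sum_H (by have := hpar.hD; omega)]
  rw [hsplit]
  set R : ℝ := ∑ r ∈ Finset.Ico 1 s, ∑ i ∈ range (e + 1),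
      (c r i : ℝ) * dz (r * κ + i) ((s - r) * κ + (e - i)) with hR
  set FG : ℝ := ∑' m : ℕ, ∑ n ∈ Finset.Ico 1 (m + 1), G p D L cG (m + 1) n with hFG
  set FH : ℝ := ∑' m : ℕ, ∑ n ∈ Finset.Ico 1 (m + 1), H p D L cH (m + 1) n with hFH
  by_cases hd : d = 0
  swap
  · left
    have h1 := caseD' hpar hCG hCH hd
    rw [hpD] at h1
    have h2 : 16 * C / 2 ^ κ ≤ 1 / 4 := by
      rw [div_le_div_iff₀ (by positivity) (by norm_num)]
      have : (1 : ℝ) ≤ Z ^ (D + e + L + 4) := one_le_pow₀ (by linarith)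
      have b1 : 64 * C * 1 ≤ 64 * C * Z ^ (D + e + L + 4) :=
        mul_le_mul_of_nonneg_left this (by positivity)
      linarith
    have h3 := abs_sub_abs_le_abs_add (FG + FH + d * zt (s * κ + e)) R
    have h4 : FG + FH + d * zt (s * κ + e) + R = R + (FG + FH) + d * zt (s * κ + e) := by ring
    rw [h4] at h3
    have h5 : 1 / (4 * (B : ℝ) ^ (κ + e)) ≤ 1 / 4 := by
      refine one_div_le_one_div_of_le (by norm_num) ?_
      have : (1 : ℝ) ≤ (B : ℝ) ^ (κ + e) := one_le_pow₀ hBr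
      linarith
    linarith
  rw [hd, Int.cast_zero, zero_mul, add_zero]
  by_cases hcH : ∃ j, j ≤ L ∧ cH j ≠ 0
  · right
    have h1 := caseH' hpar hCG hCH
      (hexH (by have := hpar.hD; omega) hP1 hPN1 hHH hPc1 hcH)
    have h2 : 16 * C / 2 ^ κ ≤ 1 / (4 * (N1 : ℝ) ^ D) := by
      rw [div_le_div_iff₀ (by positivity) (by positivity)]
      have e1 : (N1 : ℝ) ^ D ≤ Z ^ (D + e + L + 4) := by
        calc (N1 : ℝ) ^ D ≤ Z ^ D := by
              have : (N1 : ℝ) ≤ Z := by linarith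
              gcongr
          _ ≤ _ := pow_le_pow_right₀ (by linarith) (by omega)
      calc 16 * C * (4 * (N1 : ℝ) ^ D) = 64 * C * (N1 : ℝ) ^ D := by ring
        _ ≤ 64 * C * Z ^ (D + e + L + 4) := mul_le_mul_of_nonneg_left e1 (by positivity)
        _ ≤ 2 ^ κ := hbase
        _ = 1 * 2 ^ κ := by ring
    have h3 := abs_sub_abs_le_abs_add (FG + FH) R
    rw [add_comm (FG + FH) R] at h3
    have h4 : 1 / (2 * (N1 : ℝ) ^ D) = 1 / (4 * (N1 : ℝ) ^ D) + 1 / (4 * (N1 : ℝ) ^ D) := by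
      field_simp
      norm_num
    have h5 : 1 / (4 * (N1 : ℝ) ^ (s * κ + e + L)) ≤ 1 / (4 * (N1 : ℝ) ^ D) := by
      refine one_div_le_one_div_of_le (by positivity) ?_
      have : (N1 : ℝ) ^ D ≤ (N1 : ℝ) ^ (s * κ + e + L) := pow_le_pow_right₀ hN1r (by omega)
      linarith
    linarith
  have hFH0 : FH = 0 := by
    push_neg at hcH
    have h0 : ∀ x n : ℕ, H p D L cH x n = 0 := by
      intro x n
      unfold H
      refine Finset.sum_eq_zero fun j hj => ?_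
      rw [Finset.mem_range] at hj
      rw [hcH j (by omega)]
      simp
    rw [hFH]
    simp only [h0, Finset.sum_const_zero, tsum_zero]
  rw [hFH0, add_zero]
  by_cases hcG : ∃ j, j ≤ L ∧ cG j ≠ 0
  swap
  · left
    have hFG0 : FG = 0 := by
      push_neg at hcG
      have h0 : ∀ x n : ℕ, G p D L cG x n = 0 := by
        intro x n
        unfold G
        refine Finset.sum_eq_zero fun j hj => ?_
        rw [Finset.mem_range] at hj
        rw [hcG j (by omega)]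
        simp
      rw [hFG]
      simp only [h0, Finset.sum_const_zero, tsum_zero]
    rw [hFG0, add_zero]
    have hcR : ∃ r ∈ Finset.Ico 1 s, ∃ i ∈ range (e + 1), c r i ≠ 0 := by
      rcases hne with h1 | h1 | ⟨j, hj, h1 | h1⟩
      · exact absurd hd h1
      · exact h1
      · exact absurd ⟨j, hj, h1⟩ hcG
      · exact absurd ⟨j, hj, h1⟩ hcH
    obtain ⟨K, hK2, hKB, h1, -⟩ := rat_two hs hκ hC hC1 hH hP hPN hN hB hPc hcond hcR
    refine le_trans ?_ h1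
    have hK0 : (0 : ℝ) < K := by exact_mod_cast (show 0 < K by omega)
    have hKB' : (K : ℝ) ≤ B := by exact_mod_cast hKB
    refine one_div_le_one_div_of_le (by positivity) ?_
    have h3 : (K : ℝ) ^ (κ + e) ≤ (B : ℝ) ^ (κ + e) := by gcongr
    have h4 : 0 < (B : ℝ) ^ (κ + e) := by positivity
    linarith
  obtain ⟨x0, n0, hn1, hnx, hxN, hg1, hg2⟩ := caseG' hpar hCG
    (hexG (by have := hpar.hD; omega) hP1 hPN1 hHG hPc1 hcG)
  have hx0 : (0 : ℝ) < x0 := by exact_mod_cast (show 0 < x0 by omega)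
  have hn0 : (0 : ℝ) < n0 := by exact_mod_cast (show 0 < n0 by omega)
  have hxN' : (x0 : ℝ) ≤ N1 := by exact_mod_cast hxN
  have hnN' : (n0 : ℝ) ≤ N1 := by exact_mod_cast (show n0 ≤ N1 by omega)
  have hVN : 1 / (4 * (N1 : ℝ) ^ (s * κ + e + L)) ≤
      1 / ((x0 : ℝ) ^ (p + L) * (n0 : ℝ) ^ D) / 4 := by
    rw [div_div, ← hpD]
    refine one_div_le_one_div_of_le (by positivity) ?_
    calc (x0 : ℝ) ^ (p + L) * (n0 : ℝ) ^ D * 4 ≤ (N1 : ℝ) ^ (p + L) * (N1 : ℝ) ^ D * 4 := by gcongr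
      _ = 4 * (N1 : ℝ) ^ (p + D + L) := by rw [← pow_add]; ring
  have hV0 : 0 < 1 / ((x0 : ℝ) ^ (p + L) * (n0 : ℝ) ^ D) := by positivity
  by_cases hcR : ∃ r ∈ Finset.Ico 1 s, ∃ i ∈ range (e + 1), c r i ≠ 0
  swap
  · right
    have hR0 : R = 0 := by
      push_neg at hcR
      rw [hR]
      refine Finset.sum_eq_zero fun r hr => Finset.sum_eq_zero fun i hi => ?_
      rw [hcR r hr i hi]
      simp
    rw [hR0, zero_add]
    refine hVN.trans (le_trans ?_ hg1)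
    linarith
  obtain ⟨K, hK2, hKB, h1, h2⟩ := rat_two hs hκ hC hC1 hH hP hPN hN hB hPc hcond hcR
  have hK0 : (0 : ℝ) < K := by exact_mod_cast (show 0 < K by omega)
  have hKB' : (K : ℝ) ≤ B := by exact_mod_cast hKB
  rcases compare hC1 hpD hZ1 hZ2 hX hG hK2 hKB hn1 hnx hxN h2 hg2 with h3 | h3
  · left
    have h4 := abs_sub_abs_le_abs_add R FG
    have h5 : 1 / (2 * (K : ℝ) ^ (κ + e)) = 1 / (K : ℝ) ^ (κ + e) / 2 := by
      rw [div_div]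
      congr 1
      ring
    have h6 : 1 / (4 * (B : ℝ) ^ (κ + e)) ≤ 1 / (K : ℝ) ^ (κ + e) / 4 := by
      rw [div_div]
      refine one_div_le_one_div_of_le (by positivity) ?_
      have h7 : (K : ℝ) ^ (κ + e) ≤ (B : ℝ) ^ (κ + e) := by gcongr
      linarith
    rw [h5] at h1
    linarith
  · right
    have h4 := abs_sub_abs_le_abs_add FG R
    rw [add_comm FG R] at h4
    linarith

end Run7.h776.DZW
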