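import Pool.Agent.Run7.h776.DZW.UniPar

/-!
# All windows together: large weights
-/

set_option autoImplicit false

namespace Run7.h776.DZW

open Finset Filter

/-- **the asymptotic theorem** for all windows together -/
theorem uni_window (s : ℕ) (hs : 2 ≤ s) (t γ t' a b ε : ℝ) (ht : 0 < t) (hγ : 0 < γ) (ht' : 0 < t')
    (h1 : max t γ + ((s : ℝ) - 1) * min t γ < 1) (h2 : ((s : ℝ) - 1) * min t γ < s * ε)
    (h3 : t' + min t' γ < a) (h4 : t + min t' γ < a) (h5 : γ + min t' γ < a)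
    (h6 : b + min t' γ < 1) (h7 : b + ((s : ℝ) - 1) * min t γ < 1) (h8 : min t' γ < ε) :
    ∃ k0 : ℕ, ∀ k : ℕ, k0 ≤ k → ∀ u L : ℕ, (L : ℝ) ≤ (k : ℝ) ^ t' →
      (k : ℝ) ^ a ≤ (k : ℝ) - u - L → (k : ℝ) - u ≤ (k : ℝ) ^ b →
      ∀ (c c' c'' : ℕ → ℤ) (d : ℤ),
        (∀ p ∈ mult k s t, |(c p : ℝ)| ≤ (2 : ℝ) ^ ((k : ℝ) ^ γ)) →
        (∀ p ∈ Icc u (u + L), |(c' p : ℝ)| ≤ (2 : ℝ) ^ ((k : ℝ) ^ γ) ∧
          |(c'' p : ℝ)| ≤ (2 : ℝ) ^ ((k : ℝ) ^ γ)) →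
        (d ≠ 0 ∨ (∃ p ∈ mult k s t, c p ≠ 0) ∨ ∃ p ∈ Icc u (u + L), c' p ≠ 0 ∨ c'' p ≠ 0) →
        (k : ℝ) ^ (-(ε * k)) <
          |∑ p ∈ mult k s t, (c p : ℝ) * dz p (k - p) +
            ∑ p ∈ Icc u (u + L), ((c' p : ℝ) * dz p (k - p) + (c'' p : ℝ) * dz (k - p) p) +
            d * zt k| := by
  classical
  by_cases hab : a ≤ b
  swap
  · refine ⟨2, fun k hk u L hL g1 g2 => ?_⟩
    exfalso
    have hk2 : (2 : ℝ) ≤ k := by exact_mod_cast hk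
    have g3 : (k : ℝ) ^ b < (k : ℝ) ^ a := Real.rpow_lt_rpow_of_exponent_lt (by linarith) (by linarith)
    have : (0 : ℝ) ≤ L := Nat.cast_nonneg L
    linarith
  have hsr : (2 : ℝ) ≤ s := by exact_mod_cast hs
  obtain ⟨μ, hμ⟩ : ∃ μ, μ = min t γ := ⟨_, rfl⟩
  obtain ⟨ν, hν⟩ : ∃ ν, ν = max t γ := ⟨_, rfl⟩
  rw [← hμ, ← hν] at h1
  rw [← hμ] at h2 h7
  obtain ⟨ω, hω⟩ : ∃ ω, ω = min t' γ := ⟨_, rfl⟩
  rw [← hω] at h3 h4 h5 h6 h8
  have hω0 : 0 < ω := by rw [hω]; exact lt_min ht' hγ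
  have hμ0 : 0 < μ := by rw [hμ]; exact lt_min ht hγ
  have hμt : μ ≤ t := by rw [hμ]; exact min_le_left _ _
  have htν : t ≤ ν := by rw [hν]; exact le_max_left _ _
  have hγν : γ ≤ ν := by rw [hν]; exact le_max_right _ _
  -- the small number
  obtain ⟨η, hη, k1, k2, k3, k4, k5, k6, k7, k8⟩ : ∃ η : ℝ, 0 < η ∧
      (((s : ℝ) - 1) * μ + ν) + s * η < 1 ∧ ((s : ℝ) - 1) * μ + ((s : ℝ) - 1) * η < s * ε ∧
      (t' + ω) + 2 * η < a ∧ (t + ω) + 2 * η < a ∧ (γ + ω) + 1 * η < a ∧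
      (b + ω) + 2 * η < 1 ∧ (b + ((s : ℝ) - 1) * μ) + s * η < 1 ∧ ω + 1 * η < ε := by
    have q1 := small_num (s : ℝ) (show ((s : ℝ) - 1) * μ + ν < 1 by linarith)
    have q2 := small_num ((s : ℝ) - 1) h2
    have q3 := small_num 2 h3
    have q4 := small_num 2 h4
    have q5 := small_num 1 h5
    have q6 := small_num 2 h6
    have q7 := small_num (s : ℝ) h7
    have q8 := small_num 1 h8
    have q0 : ∀ᶠ η in nhdsWithin (0 : ℝ) (Set.Ioi 0), 0 < η := self_mem_nhdsWithin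
    obtain ⟨η, b0, b1, b2, b3, b4, b5, b6, b7, b8⟩ :=
      (q0.and (q1.and (q2.and (q3.and (q4.and (q5.and (q6.and (q7.and q8)))))))).exists
    exact ⟨η, b0, b1, b2, b3, b4, b5, b6, b7, b8⟩
  obtain ⟨τ, hτ⟩ : ∃ τ, τ = μ + η := ⟨_, rfl⟩
  obtain ⟨τ', hτ'⟩ : ∃ τ', τ' = ω + η := ⟨_, rfl⟩
  obtain ⟨β, hβ⟩ : ∃ β, β = ((s : ℝ) - 1) * τ := ⟨_, rfl⟩
  have hβe : β = ((s : ℝ) - 1) * μ + ((s : ℝ) - 1) * η := by rw [hβ, hτ]; ring
  have hβη : β + η = ((s : ℝ) - 1) * μ + s * η := by rw [hβe]; ring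
  have hτ0 : 0 < τ := by rw [hτ]; linarith
  have hτ'0 : 0 < τ' := by rw [hτ']; linarith
  have hβ0 : 0 < β := by
    rw [hβ]
    exact mul_pos (by linarith) hτ0
  have hβs : β / s < ε := by rw [div_lt_iff₀ (by linarith)]; linarith
  obtain ⟨δ3, hδ3⟩ : ∃ δ3, δ3 = ε - β / s := ⟨_, rfl⟩
  have hδ30 : 0 < δ3 := by rw [hδ3]; linarith
  obtain ⟨δ4, hδ4⟩ : ∃ δ4, δ4 = ε - τ' := ⟨_, rfl⟩
  have hδ40 : 0 < δ4 := by rw [hδ4]; linarith
  obtain ⟨ζ, hζ⟩ : ∃ ζ, ζ = β + τ' := ⟨_, rfl⟩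
  have ht1 : t < 1 := by
    have : 0 < ((s : ℝ) - 1) * μ := mul_pos (by linarith) hμ0
    linarith
  have hev : ∀ᶠ x : ℝ in atTop,
      ((4 * (s : ℝ) * x ^ t ≤ x ^ (1 : ℝ) ∧
        ((s : ℝ) + 2) * x ^ μ ≤ (Nat.primeCounting ⌊x ^ τ⌋₊ : ℝ) ∧
        2 * x ^ β ≤ x ^ ζ ∧ 2 * x ^ τ' ≤ x ^ ζ) ∧
      (x ^ ζ + 1 ≤ (2 : ℝ) ^ (x ^ η) ∧ x ^ (1 : ℝ) + 1 ≤ (2 : ℝ) ^ (x ^ η)) ∧
      (36 * x ^ τ' ≤ x ^ a ∧ 6 * (3 * (s : ℝ) + 6) * x ^ (τ' + η) ≤ x ^ a ∧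
        6 * x ^ (τ' + γ) ≤ x ^ a ∧ 6 * x ^ (τ' + t' + η) ≤ x ^ a ∧ 6 * x ^ (τ' + t + η) ≤ x ^ a) ∧
      (4 * x ^ a ≤ x ^ (1 : ℝ) ∧ 4 * x ^ (τ' + b + η) ≤ x ^ (1 : ℝ))) ∧
      ((60 * (s : ℝ) * x ^ β ≤ x ^ (1 : ℝ) ∧ 10 * (s : ℝ) * ((s : ℝ) + 6) * x ^ (β + η) ≤ x ^ (1 : ℝ) ∧
        10 * (s : ℝ) * x ^ (β + γ) ≤ x ^ (1 : ℝ) ∧ 20 * (s : ℝ) * x ^ (β + b + η) ≤ x ^ (1 : ℝ) ∧
        10 * (s : ℝ) * x ^ (β + t + η) ≤ x ^ (1 : ℝ)) ∧
      (2 * x ^ ω ≤ (Nat.primeCounting ⌊x ^ τ'⌋₊ : ℝ) ∧ 10 * x ^ (0 : ℝ) ≤ x ^ τ' ∧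
        2 * x ^ b ≤ x ^ (1 : ℝ)) ∧
      (2 * β / δ3 * x ^ t ≤ x ^ (1 : ℝ) ∧ 2 * τ' / δ4 * x ^ t' ≤ x ^ (1 : ℝ)) ∧
      (4 * (s : ℝ) * ((s : ℝ) + 3) < x ∧ 2 * (1 + β * (s + 1)) / δ3 < x ∧ 2 / δ4 < x)) := by
    have g1 := ev (show t < 1 by linarith) (4 * (s : ℝ))
    have g2 := ev_pr hμ0 (show μ < τ by rw [hτ]; linarith) (A := (s : ℝ) + 2) (by linarith)
    have g3 := ev (show β < ζ by rw [hζ]; linarith) 2
    have g4 := ev (show τ' < ζ by rw [hζ]; linarith) 2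
    have g5 := ev_log (τ := ζ) hη
    have g5' := ev_log (τ := 1) hη
    have g6 := ev (show τ' < a by rw [hτ']; linarith) 36
    have g7 := ev (show τ' + η < a by rw [hτ']; linarith) (6 * (3 * (s : ℝ) + 6))
    have g8 := ev (show τ' + γ < a by rw [hτ']; linarith) 6
    have g9 := ev (show τ' + t' + η < a by rw [hτ']; linarith) 6
    have g10 := ev (show τ' + t + η < a by rw [hτ']; linarith) 6
    have g11 := ev (show a < 1 by linarith) 4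
    have g12 := ev (show τ' + b + η < 1 by rw [hτ']; linarith) 4
    have g13 := ev (show β < 1 by linarith) (60 * (s : ℝ))
    have g14 := ev (show β + η < 1 by linarith) (10 * (s : ℝ) * ((s : ℝ) + 6))
    have g15 := ev (show β + γ < 1 by linarith) (10 * (s : ℝ))
    have g16 := ev (show β + b + η < 1 by linarith) (20 * (s : ℝ))
    have g17 := ev (show β + t + η < 1 by linarith) (10 * (s : ℝ))
    have g18 := ev_pr hω0 (show ω < τ' by rw [hτ']; linarith) (A := 2) (by norm_num)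
    have g19 := ev (show (0 : ℝ) < τ' by linarith) 10
    have g20 := ev (show b < 1 by linarith) 2
    have g21 := ev (show t < 1 by linarith) (2 * β / δ3)
    have g22 := ev (show t' < 1 by linarith) (2 * τ' / δ4)
    filter_upwards [g1, g2, g3, g4, g5, g5', g6, g7, g8, g9, g10, g11, g12, g13, g14, g15, g16, g17,
      g18, g19, g20, g21, g22, eventually_gt_atTop (4 * (s : ℝ) * ((s : ℝ) + 3)),
      eventually_gt_atTop (2 * (1 + β * (s + 1)) / δ3), eventually_gt_atTop (2 / δ4)] with x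
      a1 a2 a3 a4 a5 a5' a6 a7 a8 a9 a10 a11 a12 a13 a14 a15 a16 a17 a18 a19 a20 a21 a22 a23 a24 a25
    exact ⟨⟨⟨a1, a2, a3, a4⟩, ⟨a5, a5'⟩, ⟨a6, a7, a8, a9, a10⟩, a11, a12⟩,
      ⟨a13, a14, a15, a16, a17⟩, ⟨a18, a19, a20⟩, ⟨a21, a22⟩, a23, a24, a25⟩
  have hev' := tendsto_natCast_atTop_atTop (R := ℝ) |>.eventually hev
  obtain ⟨k0, hk0⟩ := eventually_atTop.1 hev'
  refine ⟨k0, fun k hk u L hL hA hB' c c' c'' d hcc hcc' hne => ?_⟩
  obtain ⟨⟨⟨a1, a2, a3, a4⟩, ⟨a5, a5'⟩, ⟨a6, a7, a8, a9, a10⟩, a11, a12⟩,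
      ⟨a13, a14, a15, a16, a17⟩, ⟨a18, a19, a20⟩, ⟨a21, a22⟩, a23, a24, a25⟩ := hk0 k hk
  clear hk0 hev hev'
  rw [Real.rpow_zero, mul_one] at a19
  rw [Real.rpow_one] at a1 a5' a11 a12 a13 a14 a15 a16 a17 a20 a21 a22
  obtain ⟨κ, e, hek, heR, hκx, heκ, hrep⟩ := rat_setup hs a1 a23
  obtain ⟨x, hx⟩ : ∃ x : ℝ, x = (k : ℝ) := ⟨_, rfl⟩
  rw [← hx] at a1 a2 a3 a4 a5 a5' a6 a7 a8 a9 a10 a11 a12 a13 a14 a15 a16 a17 a18 a19 a20 a21 a22
  rw [← hx] at a23 a24 a25 heR hκx hL hA hB' hcc hcc' ⊢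
  have hss : 4 ≤ (s : ℝ) * s := by
    calc (4 : ℝ) = 2 * 2 := by norm_num
      _ ≤ (s : ℝ) * s := mul_le_mul hsr hsr (by norm_num) (by linarith)
  have hx40 : 40 ≤ x := by
    have : 4 * (s : ℝ) * (s + 3) = 4 * (s * s) + 12 * s := by ring
    linarith
  have hx0 : 0 < x := by linarith
  have hx1 : 1 ≤ x := by linarith
  have hL0 : (0 : ℝ) ≤ L := Nat.cast_nonneg L
  have he0 : (0 : ℝ) ≤ e := Nat.cast_nonneg e
  -- `N`, `B`, `N1`
  obtain ⟨N, hN⟩ : ∃ N : ℕ, N = ⌊x ^ τ⌋₊ := ⟨_, rfl⟩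
  have hNle : (N : ℝ) ≤ x ^ τ := by rw [hN]; exact Nat.floor_le (by positivity)
  have hN1 : 1 ≤ N := by
    rw [hN, Nat.one_le_floor_iff]
    exact Real.one_le_rpow hx1 hτ0.le
  obtain ⟨B, hB⟩ : ∃ B : ℕ, B = N ^ (s - 1) := ⟨_, rfl⟩
  have hBle : (B : ℝ) ≤ x ^ β := by
    calc (B : ℝ) = (N : ℝ) ^ (s - 1) := by rw [hB]; push_cast; rfl
      _ ≤ (x ^ τ) ^ (s - 1) := pow_le_pow_left₀ (by positivity) hNle _
      _ = x ^ β := by
        rw [← Real.rpow_natCast, ← Real.rpow_mul hx0.le, Nat.cast_sub (by omega), Nat.cast_one,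
          mul_comm, hβ]
  have hB1 : 1 ≤ B := by rw [hB]; exact Nat.one_le_pow _ _ hN1
  obtain ⟨N1, hN1d⟩ : ∃ N1 : ℕ, N1 = ⌊x ^ τ'⌋₊ := ⟨_, rfl⟩
  have hN1le : (N1 : ℝ) ≤ x ^ τ' := by rw [hN1d]; exact Nat.floor_le (by positivity)
  have hLN1 : 1 ≤ N1 := by
    rw [hN1d, Nat.one_le_floor_iff]
    exact Real.one_le_rpow hx1 hτ'0.le
  -- `D`
  have huk : u + L ≤ k := by
    have q5 : (0 : ℝ) ≤ x ^ a := by positivity
    have q6 : (u : ℝ) + L ≤ k := by rw [← hx]; linarith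
    exact_mod_cast q6
  obtain ⟨D, hD⟩ : ∃ D : ℕ, D = k - u := ⟨_, rfl⟩
  have hDr : (D : ℝ) = x - u := by
    rw [hD, Nat.cast_sub (by omega), hx]
  have hDa : x ^ a ≤ D := by rw [hDr]; linarith
  have hDb : (D : ℝ) ≤ x ^ b := by rw [hDr]; exact hB'
  have huD : u + D = s * κ + e := by omega
  -- `g`, `h`
  obtain ⟨g, hg⟩ : ∃ g : ℝ, g = x ^ γ := ⟨_, rfl⟩
  obtain ⟨h, hh⟩ : ∃ h : ℝ, h = x ^ η := ⟨_, rfl⟩
  have hg0 : 0 ≤ g := by rw [hg]; positivity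
  have hh0 : 0 ≤ h := by rw [hh]; positivity
  rw [← hh] at a5 a5'
  rw [← hg] at hcc hcc'
  have h2g : (1 : ℝ) ≤ (2 : ℝ) ^ g := Real.one_le_rpow (by norm_num) hg0
  -- powers
  obtain ⟨xt, hxt⟩ : ∃ y : ℝ, y = x ^ t := ⟨_, rfl⟩
  obtain ⟨xt', hxt'⟩ : ∃ y : ℝ, y = x ^ t' := ⟨_, rfl⟩
  obtain ⟨xb, hxb⟩ : ∃ y : ℝ, y = x ^ b := ⟨_, rfl⟩
  obtain ⟨xβ, hxβ⟩ : ∃ y : ℝ, y = x ^ β := ⟨_, rfl⟩
  obtain ⟨xτ', hxτ'⟩ : ∃ y : ℝ, y = x ^ τ' := ⟨_, rfl⟩
  have xt0 : 0 ≤ xt := by rw [hxt]; positivity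
  have xt'0 : 0 ≤ xt' := by rw [hxt']; positivity
  have xb0 : 0 ≤ xb := by rw [hxb]; positivity
  have xβ0 : 0 ≤ xβ := by rw [hxβ]; positivity
  have xτ'0 : 0 ≤ xτ' := by rw [hxτ']; positivity
  have hxtb : xt' ≤ xb := by
    rw [hxt', hxb]
    exact Real.rpow_le_rpow_of_exponent_le hx1 (by linarith)
  have m1 : x ^ (τ' + η) = xτ' * h := by rw [hh, hxτ', ← Real.rpow_add hx0]
  have m2 : x ^ (τ' + γ) = xτ' * g := by rw [hg, hxτ', ← Real.rpow_add hx0]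
  have m3 : x ^ (τ' + t' + η) = xτ' * (xt' * h) := by
    rw [hh, hxτ', hxt', ← Real.rpow_add hx0, ← Real.rpow_add hx0]
    congr 1
    ring
  have m4 : x ^ (τ' + t + η) = xτ' * (xt * h) := by
    rw [hh, hxτ', hxt, ← Real.rpow_add hx0, ← Real.rpow_add hx0]
    congr 1
    ring
  have m5 : x ^ (τ' + b + η) = xτ' * (xb * h) := by
    rw [hh, hxτ', hxb, ← Real.rpow_add hx0, ← Real.rpow_add hx0]
    congr 1
    ring
  have m6 : x ^ (β + η) = xβ * h := by rw [hh, hxβ, ← Real.rpow_add hx0]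
  have m7 : x ^ (β + γ) = xβ * g := by rw [hg, hxβ, ← Real.rpow_add hx0]
  have m8 : x ^ (β + b + η) = xβ * (xb * h) := by
    rw [hh, hxβ, hxb, ← Real.rpow_add hx0, ← Real.rpow_add hx0]
    congr 1
    ring
  have m9 : x ^ (β + t + η) = xβ * (xt * h) := by
    rw [hh, hxβ, hxt, ← Real.rpow_add hx0, ← Real.rpow_add hx0]
    congr 1
    ring
  rw [m1] at a7
  rw [m2] at a8
  rw [m3] at a9
  rw [m4] at a10
  rw [m5] at a12
  rw [m6] at a14
  rw [m7] at a15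
  rw [m8] at a16
  rw [m9] at a17
  rw [← hxt] at a1 heR a21
  rw [← hxt'] at hL a22
  rw [← hxb] at hDb a20
  rw [← hxβ] at a3 a13 hBle
  rw [← hxτ'] at a4 a6 a19 hN1le
  -- the constants
  obtain ⟨W, hW⟩ : ∃ W : ℝ, W = (s : ℝ) * ((e : ℝ) + 1) + ((L : ℝ) + 1) := ⟨_, rfl⟩
  have hse : 0 ≤ (s : ℝ) * ((e : ℝ) + 1) := by positivity
  have hW1 : 1 ≤ W := by rw [hW]; linarith
  have hWh : W ≤ (2 : ℝ) ^ h := by
    refine le_trans ?_ a5'
    rw [hW]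
    have q1 : (s : ℝ) * ((e : ℝ) + 1) ≤ s * (xt + 2 + s) :=
      mul_le_mul_of_nonneg_left (by linarith) (by linarith)
    have q2 : (s : ℝ) * (xt + 2 + s) = s * xt + 2 * s + s * s := by ring
    have q3 : 4 * (s : ℝ) * xt = 4 * (s * xt) := by ring
    have q4 : 4 * (s : ℝ) * (s + 3) = 4 * (s * s) + 12 * s := by ring
    linarith
  obtain ⟨Z, hZ⟩ : ∃ Z : ℝ, Z = xβ + xτ' + 1 := ⟨_, rfl⟩
  have hZh : Z ≤ (2 : ℝ) ^ h := by rw [hZ]; linarith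
  have hZ0 : 0 ≤ Z := by rw [hZ]; linarith
  have hZ1 : (N1 : ℝ) + 1 ≤ Z := by rw [hZ]; linarith
  have hZ2 : (B : ℝ) + 1 ≤ Z := by rw [hZ]; linarith
  -- the four conditions
  have hN10 : (0 : ℝ) ≤ N1 := Nat.cast_nonneg N1
  have hB0 : (0 : ℝ) ≤ B := Nat.cast_nonneg B
  have cA : ∀ y : ℝ, 0 ≤ y → y ≤ xt' + xt + (3 * s + 5) →
      (N1 : ℝ) * (6 + h + g + y * h) ≤ D := by
    intro y hy0 hy
    have hy1 : y * h ≤ (xt' + xt + (3 * s + 5)) * h := mul_le_mul_of_nonneg_right hy hh0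
    have hy2 : 0 ≤ y * h := mul_nonneg hy0 hh0
    calc (N1 : ℝ) * (6 + h + g + y * h)
        ≤ xτ' * (6 + h + g + (xt' + xt + (3 * s + 5)) * h) :=
          mul_le_mul hN1le (by linarith) (by linarith) xτ'0
      _ = 6 * xτ' + (3 * s + 6) * (xτ' * h) + xτ' * g + xτ' * (xt' * h) + xτ' * (xt * h) := by ring
      _ ≤ x ^ a := by
          have q : 6 * (3 * (s : ℝ) + 6) * (xτ' * h) = 6 * ((3 * s + 6) * (xτ' * h)) := by ring
          linarith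
      _ ≤ D := hDa
  have cond1 : (64 * (W * (2 : ℝ) ^ g) * ((N1 : ℝ) + 1) ^ (L + 4)) ^ N1 ≤ (2 : ℝ) ^ D := by
    refine pw3 (h := h) (by linarith) hWh (by linarith) (by linarith) ?_
    push_cast
    exact cA _ (by linarith) (by linarith)
  have condG : (64 * (W * (2 : ℝ) ^ g) * Z ^ (L + e + 2 * s + 4)) ^ N1 ≤ (2 : ℝ) ^ D := by
    refine pw3 (h := h) (by linarith) hWh hZ0 hZh ?_
    push_cast
    exact cA _ (by linarith) (by linarith)
  have cond2 : (64 * (W * (2 : ℝ) ^ g) * ((N1 : ℝ) + 1) ^ (L + D + 4)) ^ N1 ≤ (2 : ℝ) ^ u := by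
    refine pw3 (h := h) (by linarith) hWh (by linarith) (by linarith) ?_
    push_cast
    have hD0 : (0 : ℝ) ≤ D := Nat.cast_nonneg D
    have hy1 : ((L : ℝ) + D + 4) * h ≤ (xt' + xb + 4) * h :=
      mul_le_mul_of_nonneg_right (by linarith) hh0
    have hy2 : 0 ≤ ((L : ℝ) + D + 4) * h := mul_nonneg (by linarith) hh0
    have hsh : 0 ≤ (s : ℝ) * (xτ' * h) := by positivity
    have hxh : 0 ≤ xτ' * h := by positivity
    have hxth : 0 ≤ xτ' * (xt * h) := by positivity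
    calc (N1 : ℝ) * (6 + h + g + ((L : ℝ) + D + 4) * h)
        ≤ xτ' * (6 + h + g + (xt' + xb + 4) * h) :=
          mul_le_mul hN1le (by linarith) (by linarith) xτ'0
      _ = 6 * xτ' + 5 * (xτ' * h) + xτ' * g + xτ' * (xt' * h) + xτ' * (xb * h) := by ring
      _ ≤ x ^ a + xτ' * (xb * h) := by
          have q : 6 * (3 * (s : ℝ) + 6) * (xτ' * h) = 18 * (s * (xτ' * h)) + 36 * (xτ' * h) := by ring
          linarith
      _ ≤ x / 2 := by linarith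
      _ ≤ u := by linarith
  have condX : (64 * (W * (2 : ℝ) ^ g) * Z ^ (D + e + L + 4)) ^ B ≤ (2 : ℝ) ^ κ := by
    refine pw3 (h := h) (by linarith) hWh hZ0 hZh ?_
    push_cast
    have hD0 : (0 : ℝ) ≤ D := Nat.cast_nonneg D
    have hy1 : ((D : ℝ) + e + L + 4) * h ≤ (2 * xb + xt + (s + 5)) * h :=
      mul_le_mul_of_nonneg_right (by linarith) hh0
    have hy2 : 0 ≤ ((D : ℝ) + e + L + 4) * h := mul_nonneg (by linarith) hh0
    calc (B : ℝ) * (6 + h + g + ((D : ℝ) + e + L + 4) * h)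
        ≤ xβ * (6 + h + g + (2 * xb + xt + (s + 5)) * h) :=
          mul_le_mul hBle (by linarith) (by linarith) xβ0
      _ = 6 * xβ + ((s : ℝ) + 6) * (xβ * h) + xβ * g + 2 * (xβ * (xb * h)) + xβ * (xt * h) := by ring
      _ ≤ x / (2 * s) := by
          rw [le_div_iff₀ (by positivity)]
          have q1 : (6 * xβ + ((s : ℝ) + 6) * (xβ * h) + xβ * g + 2 * (xβ * (xb * h)) +
              xβ * (xt * h)) * (2 * s) = (60 * s * xβ) / 5 + (10 * s * (s + 6) * (xβ * h)) / 5 +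
              (10 * s * (xβ * g)) / 5 + (20 * s * (xβ * (xb * h))) / 5 +
              (10 * s * (xβ * (xt * h))) / 5 := by ring
          rw [q1]
          linarith
      _ ≤ κ := hκx
  have hpar : Par2 u D L N1 (W * (2 : ℝ) ^ g) := by
    refine ⟨?_, ?_, hLN1, ?_, cond1, cond2⟩
    · have q5 : (4 : ℝ) ≤ u := by linarith
      exact_mod_cast q5
    · have q5 : (L : ℝ) + 4 ≤ D := by rw [hDr]; linarith
      exact_mod_cast q5
    · calc (1 : ℝ) = 1 * 1 := by norm_num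
        _ ≤ W * (2 : ℝ) ^ g := mul_le_mul hW1 h2g (by norm_num) (by linarith)
  -- the coefficients
  obtain ⟨c1, hc1⟩ : ∃ c1 : ℕ → ℕ → ℤ,
    c1 = fun r i => if r * κ + i ∈ mult k s t then c (r * κ + i) else 0 := ⟨_, rfl⟩
  have hc1a : ∀ r i, r * κ + i ∈ mult k s t → c1 r i = c (r * κ + i) := by
    intro r i hm
    rw [hc1]
    simp only
    rw [if_pos hm]
  have hc1b : ∀ r i, r * κ + i ∉ mult k s t → c1 r i = 0 := by
    intro r i hm
    rw [hc1]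
    simp only
    rw [if_neg hm]
  have hH : ∀ r i, |(c1 r i : ℝ)| ≤ (2 : ℝ) ^ g := by
    intro r i
    by_cases hm : r * κ + i ∈ mult k s t
    · rw [hc1a r i hm]
      exact hcc _ hm
    · rw [hc1b r i hm, Int.cast_zero, abs_zero]
      linarith
  have hC : ∑ r ∈ Finset.Ico 1 s, ∑ i ∈ range (e + 1), |(c1 r i : ℝ)| ≤ W * (2 : ℝ) ^ g := by
    calc ∑ r ∈ Finset.Ico 1 s, ∑ i ∈ range (e + 1), |(c1 r i : ℝ)|
        ≤ ∑ r ∈ Finset.Ico 1 s, ∑ i ∈ range (e + 1), (2 : ℝ) ^ g :=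
          Finset.sum_le_sum fun r _ => Finset.sum_le_sum fun i _ => hH r i
      _ = ((s - 1 : ℕ) : ℝ) * (((e : ℝ) + 1) * (2 : ℝ) ^ g) := by
          rw [Finset.sum_const, Finset.sum_const, Finset.card_range, Nat.card_Ico, nsmul_eq_mul,
            nsmul_eq_mul]
          push_cast
          ring
      _ ≤ (s : ℝ) * (((e : ℝ) + 1) * (2 : ℝ) ^ g) := by
          refine mul_le_mul_of_nonneg_right ?_ (by positivity)
          have : s - 1 ≤ s := by omega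
          exact_mod_cast this
      _ = (s : ℝ) * ((e : ℝ) + 1) * (2 : ℝ) ^ g := by ring
      _ ≤ W * (2 : ℝ) ^ g := by
          refine mul_le_mul_of_nonneg_right ?_ (by linarith)
          rw [hW]
          linarith
  have hBd : ∀ f : ℕ → ℤ, (∀ q ∈ Icc u (u + L), |(f q : ℝ)| ≤ (2 : ℝ) ^ g) →
      Bd L (fun j => f (u + j)) (W * (2 : ℝ) ^ g) := by
    intro f hf
    unfold Bd
    calc ∑ j ∈ range (L + 1), |((f (u + j) : ℤ) : ℝ)| ≤ ∑ j ∈ range (L + 1), (2 : ℝ) ^ g :=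
          Finset.sum_le_sum fun j hj => hf _ (by
            rw [Finset.mem_range] at hj
            rw [Finset.mem_Icc]
            omega)
      _ = ((L : ℝ) + 1) * (2 : ℝ) ^ g := by
        rw [Finset.sum_const, Finset.card_range, nsmul_eq_mul]
        push_cast
        ring
      _ ≤ W * (2 : ℝ) ^ g := by
          refine mul_le_mul_of_nonneg_right ?_ (by linarith)
          rw [hW]
          linarith
  have hxμ1 : 1 ≤ x ^ μ := Real.one_le_rpow hx1 hμ0.le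
  have hPc : e < (Nat.primesLE N).card ∨ (2 : ℝ) ^ g < (2 : ℝ) ^ (Nat.primesLE N).card := by
    rw [Nat.primesLE_card_eq_primeCounting, hN]
    have hexp : ((s : ℝ) + 2) * x ^ μ = s * x ^ μ + x ^ μ + x ^ μ := by ring
    have hexp2 : (s : ℝ) * 1 ≤ s * x ^ μ := mul_le_mul_of_nonneg_left hxμ1 (by linarith)
    rcases le_total t γ with htγ | htγ
    · left
      have hμt' : μ = t := by rw [hμ, min_eq_left htγ]
      have q5 : (e : ℝ) < (Nat.primeCounting ⌊x ^ τ⌋₊ : ℝ) := by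
        refine lt_of_lt_of_le heR (le_trans ?_ a2)
        have : xt = x ^ μ := by rw [hxt, hμt']
        rw [this]
        linarith
      exact_mod_cast q5
    · right
      have hμγ' : μ = γ := by rw [hμ, min_eq_right htγ]
      rw [← Real.rpow_natCast]
      refine Real.rpow_lt_rpow_of_exponent_lt (by norm_num) (lt_of_lt_of_le ?_ a2)
      have : g = x ^ μ := by rw [hg, hμγ']
      rw [this]
      linarith
  have hPc1 : L < (Nat.primesLE N1).card ∨ (2 : ℝ) ^ g < (2 : ℝ) ^ (Nat.primesLE N1).card := by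
    rw [Nat.primesLE_card_eq_primeCounting, hN1d]
    have hxω1 : 1 ≤ x ^ ω := Real.one_le_rpow hx1 hω0.le
    rcases le_total t' γ with htγ | htγ
    · left
      have hωt' : ω = t' := by rw [hω, min_eq_left htγ]
      have q5 : (L : ℝ) < (Nat.primeCounting ⌊x ^ τ'⌋₊ : ℝ) := by
        refine lt_of_le_of_lt hL (lt_of_lt_of_le ?_ a18)
        have : xt' = x ^ ω := by rw [hxt', hωt']
        rw [this]
        linarith
      exact_mod_cast q5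
    · right
      have hωγ' : ω = γ := by rw [hω, min_eq_right htγ]
      rw [← Real.rpow_natCast]
      refine Real.rpow_lt_rpow_of_exponent_lt (by norm_num) (lt_of_lt_of_le ?_ a18)
      have : g = x ^ ω := by rw [hg, hωγ']
      rw [this]
      linarith
  have hfin := uni_finite (c := c1) (cG := fun j => c' (u + j)) (cH := fun j => c'' (u + j))
    (C := W * (2 : ℝ) ^ g) (P := Nat.primesLE N) (N := N) (B := B) (Z := Z)
    (H0 := (2 : ℝ) ^ g) (d := d) (κ := κ) (e := e) hs (by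
      have q5 : (3 : ℝ) ≤ κ := by
        refine le_trans ?_ hκx
        rw [le_div_iff₀ (by positivity)]
        have q4 : 4 * (s : ℝ) * (s + 3) = 4 * (s * s) + 12 * s := by ring
        linarith
      exact_mod_cast q5) huD hpar hC (hBd c' fun q hq => (hcc' q hq).1)
    (hBd c'' fun q hq => (hcc' q hq).2) hH
    (fun j hj => (hcc' (u + j) (Finset.mem_Icc.2 ⟨by omega, by omega⟩)).1)
    (fun j hj => (hcc' (u + j) (Finset.mem_Icc.2 ⟨by omega, by omega⟩)).2)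
    (fun ℓ hℓ => (Nat.mem_primesLE.1 hℓ).2)
    (fun ℓ hℓ => (Nat.mem_primesLE.1 hℓ).1) hN1 hB hPc (P1 := Nat.primesLE N1)
    (fun ℓ hℓ => (Nat.mem_primesLE.1 hℓ).2)
    (fun ℓ hℓ => (Nat.mem_primesLE.1 hℓ).1) hPc1 hZ1 hZ2 condX condG (by
      rcases hne with q5 | ⟨p, hp, q5⟩ | ⟨q, hq, q5⟩
      · exact Or.inl q5
      · right
        left
        obtain ⟨r, i, hr1, hrs, hi, rfl⟩ := hrep p hp
        refine ⟨r, Finset.mem_Ico.2 ⟨hr1, hrs⟩, i, Finset.mem_range.2 (by omega), ?_⟩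
        rw [hc1a r i hp]
        exact q5
      · right
        right
        rw [Finset.mem_Icc] at hq
        refine ⟨q - u, by omega, ?_⟩
        rw [show u + (q - u) = q by omega]
        exact q5)
  have hrs := rat_sum hek heκ hrep c c1 hc1a hc1b
  rw [hrs, ← high_sum hD c' c'', hek] at hfin
  rcases hfin with hfin | hfin
  · refine lt_of_lt_of_le ?_ hfin
    have hκs : (κ : ℝ) ≤ x / s := by
      rw [le_div_iff₀ (by linarith), hx, ← hek]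
      push_cast
      linarith
    refine last_step (A0 := x / s + (xt + 1 + s)) (by linarith) hβ0.le (by rw [← hxβ]; exact hBle) hB1
      (by push_cast; linarith) ?_
    have f1 : 2 * (1 + β * (s + 1)) < δ3 * x := by
      rw [div_lt_iff₀ hδ30] at a24
      linarith
    have f2 : 2 * β * xt ≤ δ3 * x := by
      have q7 := mul_le_mul_of_nonneg_left a21 hδ30.le
      have q8 : δ3 * (2 * β / δ3 * xt) = 2 * β * xt := by field_simp
      linarith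
    have f3 : β * (x / s + (xt + 1 + s)) = β / s * x + β * xt + β * (s + 1) := by ring
    have f4 : ε * x = δ3 * x + β / s * x := by rw [hδ3]; ring
    rw [f3, f4]
    linarith
  · refine lt_of_lt_of_le ?_ hfin
    refine last_step (A0 := x + xt') (by linarith) hτ'0.le (by rw [← hxτ']; exact hN1le) (by omega)
      (by push_cast; rw [← hx]; linarith) ?_
    have f1 : 2 < δ4 * x := by
      rw [div_lt_iff₀ hδ40] at a25
      linarith
    have f2 : 2 * τ' * xt' ≤ δ4 * x := by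
      have q7 := mul_le_mul_of_nonneg_left a22 hδ40.le
      have q8 : δ4 * (2 * τ' / δ4 * xt') = 2 * τ' * xt' := by field_simp
      linarith
    have f3 : τ' * (x + xt') = τ' * x + τ' * xt' := by ring
    have f4 : ε * x = δ4 * x + τ' * x := by rw [hδ4]; ring
    rw [f3, f4]
    linarith

end Run7.h776.DZW
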