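import Pool.Agent.Run7.h776.DZW.Uni
import Pool.Agent.Run7.h776.DZW.Asy

/-!
# All windows together: the parameters
-/

set_option autoImplicit false

namespace Run7.h776.DZW

open Finset Filter

lemma pw3 {g h W Z : ℝ} {M E D : ℕ} (hW0 : 0 ≤ W) (hW : W ≤ (2 : ℝ) ^ h) (hZ0 : 0 ≤ Z)
    (hh : Z ≤ (2 : ℝ) ^ h) (hs : (M : ℝ) * (6 + h + g + E * h) ≤ D) :
    (64 * (W * (2 : ℝ) ^ g) * Z ^ E) ^ M ≤ (2 : ℝ) ^ D := by
  have h2 : (0 : ℝ) < 2 := by norm_num
  have e1 : Z ^ E ≤ (2 : ℝ) ^ (E * h) := by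
    calc Z ^ E ≤ ((2 : ℝ) ^ h) ^ E := pow_le_pow_left₀ hZ0 hh E
      _ = (2 : ℝ) ^ (E * h) := by
        rw [← Real.rpow_natCast, ← Real.rpow_mul h2.le, mul_comm]
  have e2 : 64 * (W * (2 : ℝ) ^ g) * Z ^ E ≤ (2 : ℝ) ^ (6 + h + g + E * h) := by
    rw [Real.rpow_add h2, Real.rpow_add h2, Real.rpow_add h2]
    have e3 : (2 : ℝ) ^ (6 : ℝ) = 64 := by
      rw [show (6 : ℝ) = ((6 : ℕ) : ℝ) by norm_num, Real.rpow_natCast]
      norm_num
    rw [e3]
    have p1 : (0 : ℝ) < (2 : ℝ) ^ g := Real.rpow_pos_of_pos h2 _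
    have p2 : (0 : ℝ) < (2 : ℝ) ^ h := Real.rpow_pos_of_pos h2 _
    calc 64 * (W * (2 : ℝ) ^ g) * Z ^ E
        ≤ 64 * ((2 : ℝ) ^ h * (2 : ℝ) ^ g) * (2 : ℝ) ^ (E * h) := by gcongr
      _ = _ := by ring
  calc (64 * (W * (2 : ℝ) ^ g) * Z ^ E) ^ M
      ≤ ((2 : ℝ) ^ (6 + h + g + E * h)) ^ M := by
        refine pow_le_pow_left₀ ?_ e2 M
        have p1 : (0 : ℝ) < (2 : ℝ) ^ g := Real.rpow_pos_of_pos h2 _
        positivity
    _ = (2 : ℝ) ^ ((M : ℝ) * (6 + h + g + E * h)) := by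
        rw [← Real.rpow_natCast, ← Real.rpow_mul h2.le, mul_comm]
    _ ≤ (2 : ℝ) ^ (D : ℝ) := Real.rpow_le_rpow_of_exponent_le (by norm_num) hs
    _ = (2 : ℝ) ^ D := Real.rpow_natCast _ _

/-- many primes -/
lemma ev_pr {μ τ : ℝ} (hμ : 0 < μ) (hμτ : μ < τ) {A : ℝ} (hA : 0 ≤ A) :
    ∀ᶠ x : ℝ in atTop, A * x ^ μ ≤ (Nat.primeCounting ⌊x ^ τ⌋₊ : ℝ) := by
  have hτ : 0 < τ := by linarith
  set σ : ℝ := μ / τ with hσ
  have hσ0 : 0 < σ := by positivity
  have hσ1 : σ < 1 := by rw [hσ, div_lt_one hτ]; exact hμτ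
  set δ : ℝ := (1 - σ) / 2 with hδ
  have hδ0 : 0 < δ := by rw [hδ]; linarith
  have hy : ∀ᶠ y : ℝ in atTop, A * y ^ σ ≤ (Nat.primeCounting ⌊y⌋₊ : ℝ) := by
    have h1 := ev (show σ + δ < 1 by rw [hδ]; linarith) (8 * A)
    have h2 := ev (show δ < 1 by rw [hδ]; linarith) 16
    have h3 := (isLittleO_log_rpow_atTop hδ0).def (show (0 : ℝ) < 1 by norm_num)
    filter_upwards [h1, h2, h3, eventually_gt_atTop 8] with y a1 a2 a3 a4
    have hy0 : 0 < y := by linarith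
    have hlog : 0 < Real.log y := Real.log_pos (by linarith)
    rw [Real.norm_of_nonneg hlog.le, Real.norm_of_nonneg (Real.rpow_nonneg hy0.le _), one_mul] at a3
    refine le_trans ?_ (Chebyshev.pi_ge' (x := y) (by linarith))
    rw [le_div_iff₀ hlog]
    rw [Real.rpow_one] at a1 a2
    have b1 : A * y ^ σ * Real.log y ≤ y / 8 := by
      calc A * y ^ σ * Real.log y ≤ A * y ^ σ * y ^ δ :=
            mul_le_mul_of_nonneg_left a3 (by positivity)
        _ = A * y ^ (σ + δ) := by rw [Real.rpow_add hy0]; ring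
        _ ≤ y / 8 := by linarith
    have b2 : Real.log (y + 2) ≤ y / 8 := by
      calc Real.log (y + 2) ≤ Real.log (y ^ 2) := Real.log_le_log (by linarith) (by nlinarith)
        _ = 2 * Real.log y := by rw [Real.log_pow]; norm_num
        _ ≤ 2 * y ^ δ := by linarith
        _ ≤ y / 8 := by linarith
    have b3 := Real.log_two_gt_d9
    nlinarith
  have hx := (tendsto_rpow_atTop hτ).eventually hy
  filter_upwards [hx, eventually_gt_atTop 0] with x hx hx0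
  rw [← Real.rpow_mul hx0.le, show τ * σ = μ by rw [hσ]; field_simp] at hx
  exact hx

open Classical in
/-- the `p` with `|s p - r k| ≤ k ^ t` for some `0 < r < s` -/
noncomputable def mult (k s : ℕ) (t : ℝ) : Finset ℕ :=
  (range (k + 1)).filter fun p => ∃ r : ℕ, 1 ≤ r ∧ r < s ∧ |(s : ℝ) * p - r * k| ≤ (k : ℝ) ^ t

lemma rat_setup {s k : ℕ} {t : ℝ} (hs : 2 ≤ s) (h1 : 4 * (s : ℝ) * (k : ℝ) ^ t ≤ k)
    (h2 : 4 * (s : ℝ) * ((s : ℝ) + 3) < k) :
    ∃ κ e : ℕ, s * κ + e = k ∧ (e : ℝ) < (k : ℝ) ^ t + 1 + s ∧ (k : ℝ) / (2 * s) ≤ κ ∧ e < κ ∧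
      ∀ p ∈ mult k s t, ∃ r i, 1 ≤ r ∧ r < s ∧ i ≤ e ∧ p = r * κ + i := by
  classical
  have hsr : (2 : ℝ) ≤ s := by exact_mod_cast hs
  set x : ℝ := (k : ℝ) with hx
  have hx0 : 0 < x := by
    have : (0 : ℝ) < 4 * (s : ℝ) * ((s : ℝ) + 3) := by positivity
    linarith
  have hxt0 : 0 ≤ x ^ t := by positivity
  have h8 : 8 * x ^ t ≤ x := by
    have : 2 * x ^ t ≤ s * x ^ t := mul_le_mul_of_nonneg_right hsr hxt0
    linarith
  have hss : 2 * (s : ℝ) ≤ s * s := mul_le_mul_of_nonneg_right hsr (by linarith)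
  set E : ℕ := ⌈x ^ t⌉₊ with hE
  have hEge : x ^ t ≤ E := Nat.le_ceil _
  have hElt : (E : ℝ) < x ^ t + 1 := Nat.ceil_lt_add_one hxt0
  have hEk : E ≤ k := by
    have : (E : ℝ) ≤ k := by
      rw [← hx]
      linarith
    exact_mod_cast this
  set κ : ℕ := (k - E) / s with hκ
  have hκ1 : s * κ ≤ k - E := Nat.mul_div_le _ _
  have hκ2 : k - E < s * (κ + 1) := by
    have := Nat.lt_mul_div_succ (k - E) (show 0 < s by omega)
    simpa [hκ, Nat.succ_eq_add_one] using this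
  set e : ℕ := k - s * κ with he
  have hek : s * κ + e = k := by omega
  have hEe : E ≤ e := by omega
  have heE : e < E + s := by
    rw [Nat.mul_add, Nat.mul_one] at hκ2
    omega
  have heR : (e : ℝ) < x ^ t + 1 + s := by
    have : (e : ℝ) < (E : ℝ) + s := by exact_mod_cast heE
    linarith
  have hekR : (s : ℝ) * κ + e = x := by
    rw [hx, ← hek]
    push_cast
    ring
  have hκx : x / (2 * s) ≤ κ := by
    rw [div_le_iff₀ (by positivity)]
    have : (κ : ℝ) * (2 * s) = 2 * (s * κ) := by ring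
    rw [this]
    linarith
  refine ⟨κ, e, hek, heR, hκx, ?_, ?_⟩
  · have h5 : (e : ℝ) < κ := by
      refine lt_of_lt_of_le heR (le_trans ?_ hκx)
      rw [le_div_iff₀ (by positivity)]
      have e1 : (x ^ t + 1 + s) * (2 * s) = 2 * (s * x ^ t) + 2 * s + 2 * (s * s) := by ring
      have e2 : 4 * (s : ℝ) * (s + 3) = 4 * (s * s) + 12 * s := by ring
      rw [e1]
      linarith
    exact_mod_cast h5
  · intro p hp
    rw [mult, Finset.mem_filter] at hp
    obtain ⟨-, r, hr1, hrs, habs⟩ := hp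
    rw [← hx, abs_le] at habs
    have hr1' : (1 : ℝ) ≤ r := by exact_mod_cast hr1
    have hrs' : (r : ℝ) + 1 ≤ s := by exact_mod_cast hrs
    have heE' : x ^ t ≤ e := hEge.trans (by exact_mod_cast hEe)
    have he0 : (0 : ℝ) ≤ e := by linarith
    have hrx : (r : ℝ) * x = s * ((r : ℝ) * κ) + r * e := by rw [← hekR]; ring
    rw [hrx] at habs
    have hre : (e : ℝ) ≤ r * e := le_mul_of_one_le_left he0 hr1'
    have hre2 : ((r : ℝ) + 1) * e ≤ s * e := mul_le_mul_of_nonneg_right hrs' he0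
    have hb1 : (r : ℝ) * κ ≤ p := by
      have : (s : ℝ) * ((r : ℝ) * κ) ≤ s * p := by linarith
      exact le_of_mul_le_mul_left this (by linarith)
    have hb1' : r * κ ≤ p := by exact_mod_cast hb1
    have hb2 : (p : ℝ) ≤ (r : ℝ) * κ + e := by
      have : (s : ℝ) * p ≤ s * ((r : ℝ) * κ + e) := by linarith
      exact le_of_mul_le_mul_left this (by linarith)
    have hb2' : p ≤ r * κ + e := by exact_mod_cast hb2
    exact ⟨r, p - r * κ, hr1, hrs, by omega, by omega⟩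

lemma rat_sum {s k κ e : ℕ} {t : ℝ} (hek : s * κ + e = k) (heκ : e < κ)
    (hrep : ∀ p ∈ mult k s t, ∃ r i, 1 ≤ r ∧ r < s ∧ i ≤ e ∧ p = r * κ + i) (c : ℕ → ℤ)
    (c1 : ℕ → ℕ → ℤ) (hc1 : ∀ r i, r * κ + i ∈ mult k s t → c1 r i = c (r * κ + i))
    (hc2 : ∀ r i, r * κ + i ∉ mult k s t → c1 r i = 0) :
    ∑ r ∈ Finset.Ico 1 s, ∑ i ∈ range (e + 1),
      (c1 r i : ℝ) * dz (r * κ + i) ((s - r) * κ + (e - i)) =
      ∑ p ∈ mult k s t, (c p : ℝ) * dz p (k - p) := by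
  classical
  set f : ℕ → ℝ := fun p => if p ∈ mult k s t then (c p : ℝ) * dz p (k - p) else 0 with hf
  have hstep : ∀ r ∈ Finset.Ico 1 s, ∀ i ∈ range (e + 1),
      (c1 r i : ℝ) * dz (r * κ + i) ((s - r) * κ + (e - i)) = f (r * κ + i) := by
    intro r hr i hi
    rw [Finset.mem_Ico] at hr
    rw [Finset.mem_range] at hi
    rw [hf]
    simp only
    by_cases hm : r * κ + i ∈ mult k s t
    · rw [if_pos hm, hc1 r i hm]
      congr 2
      have h5 : (s - r) * κ = s * κ - r * κ := Nat.sub_mul _ _ _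
      have h6 : r * κ ≤ s * κ := Nat.mul_le_mul_right κ (by omega)
      omega
    · rw [if_neg hm, hc2 r i hm, Int.cast_zero, zero_mul]
  rw [Finset.sum_congr rfl fun r hr => Finset.sum_congr rfl (hstep r hr), ← Finset.sum_product']
  have hinj : Set.InjOn (fun q : ℕ × ℕ => q.1 * κ + q.2)
      (((Finset.Ico 1 s) ×ˢ (range (e + 1)) : Finset (ℕ × ℕ)) : Set (ℕ × ℕ)) := by
    rintro ⟨r, i⟩ h5 ⟨r', i'⟩ h6 h7
    rw [Finset.mem_coe, Finset.mem_product, Finset.mem_Ico, Finset.mem_range] at h5 h6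
    simp only at h5 h6 h7
    have hκ0 : 0 < κ := by omega
    have h8 : r = r' := by
      have e1 : (r * κ + i) / κ = r := by
        rw [Nat.add_comm, Nat.add_mul_div_right _ _ hκ0, Nat.div_eq_of_lt (by omega), zero_add]
      have e2 : (r' * κ + i') / κ = r' := by
        rw [Nat.add_comm, Nat.add_mul_div_right _ _ hκ0, Nat.div_eq_of_lt (by omega), zero_add]
      rw [← e1, ← e2, h7]
    subst h8
    have h9 : i = i' := by omega
    rw [h9]
  have himg := Finset.sum_image (f := f) (s := (Finset.Ico 1 s) ×ˢ (range (e + 1)))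
    (g := fun q : ℕ × ℕ => q.1 * κ + q.2) hinj
  rw [← himg]
  symm
  have hsub : mult k s t ⊆ Finset.image (fun q : ℕ × ℕ => q.1 * κ + q.2)
      ((Finset.Ico 1 s) ×ˢ (range (e + 1))) := by
    intro p hp
    obtain ⟨r, i, hr1, hrs, hi, rfl⟩ := hrep p hp
    rw [Finset.mem_image]
    exact ⟨(r, i), by
      rw [Finset.mem_product, Finset.mem_Ico, Finset.mem_range]
      exact ⟨⟨hr1, hrs⟩, by simp only; omega⟩, rfl⟩
  rw [← Finset.sum_subset hsub (f := f) (fun p _ hp => by rw [hf]; simp only; rw [if_neg hp])]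
  refine Finset.sum_congr rfl fun p hp => ?_
  rw [hf]
  simp only
  rw [if_pos hp]

lemma high_sum {u L k D : ℕ} (hD : D = k - u) (c c' : ℕ → ℤ) :
    ∑ q ∈ Icc u (u + L), ((c q : ℝ) * dz q (k - q) + (c' q : ℝ) * dz (k - q) q) =
      ∑ j ∈ range (L + 1), ((c (u + j) : ℝ) * dz (u + j) (D - j) +
        (c' (u + j) : ℝ) * dz (D - j) (u + j)) := by
  have e0 : Icc u (u + L) = Ico u (u + (L + 1)) := by
    ext q
    rw [Finset.mem_Icc, Finset.mem_Ico]
    omega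
  rw [e0, Finset.sum_Ico_eq_sum_range, show u + (L + 1) - u = L + 1 by omega]
  refine Finset.sum_congr rfl fun j hj => ?_
  rw [Finset.mem_range] at hj
  rw [hD, show k - (u + j) = k - u - j by omega]

/-- the last step -/
lemma last_step {x ε β A0 : ℝ} {B n : ℕ} (hx : 4 < x) (hβ : 0 ≤ β) (hB : (B : ℝ) ≤ x ^ β)
    (hB1 : 1 ≤ B) (hn : (n : ℝ) ≤ A0) (h : 1 + β * A0 ≤ ε * x) :
    x ^ (-(ε * x)) < 1 / (4 * (B : ℝ) ^ n) := by
  have hx0 : 0 < x := by linarith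
  have hB0 : (0 : ℝ) < B := by exact_mod_cast hB1
  rw [Real.rpow_neg hx0.le, ← one_div]
  refine one_div_lt_one_div_of_lt (by positivity) ?_
  have e5 : (B : ℝ) ^ n ≤ x ^ (β * A0) := by
    calc (B : ℝ) ^ n ≤ (x ^ β) ^ n := pow_le_pow_left₀ hB0.le hB _
      _ = x ^ (β * (n : ℝ)) := by
        rw [← Real.rpow_natCast, ← Real.rpow_mul hx0.le]
      _ ≤ x ^ (β * A0) :=
        Real.rpow_le_rpow_of_exponent_le (by linarith) (mul_le_mul_of_nonneg_left hn hβ)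
  have e6 : (4 : ℝ) < x ^ (1 : ℝ) := by rw [Real.rpow_one]; linarith
  calc 4 * (B : ℝ) ^ n ≤ 4 * x ^ (β * A0) := by linarith
    _ < x ^ (1 : ℝ) * x ^ (β * A0) := mul_lt_mul_of_pos_right e6 (Real.rpow_pos_of_pos hx0 _)
    _ = x ^ (1 + β * A0) := by rw [← Real.rpow_add hx0]
    _ ≤ x ^ (ε * x) := Real.rpow_le_rpow_of_exponent_le (by linarith) h

/-- a small number -/
lemma small_num {A B0 : ℝ} (c : ℝ) (h : A < B0) : ∀ᶠ η in nhdsWithin (0 : ℝ) (Set.Ioi 0), A + c * η < B0 := by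
  have h1 : Tendsto (fun η : ℝ => A + c * η) (nhds 0) (nhds (A + c * 0)) :=
    (continuous_const.add (continuous_const.mul continuous_id)).tendsto 0
  rw [mul_zero, add_zero] at h1
  exact (h1.mono_left nhdsWithin_le_nhds).eventually_lt_const h

end Run7.h776.DZW
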